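import Pool.Agent.Work.MP_8daf13_an.Coeff
import Pool.Agent.Work.MP_8daf13_an.Defs
import Pool.Agent.Work.MP_8daf13_an.Diff

/-! Bundle of small proof modules (one section per former module). -/

section

/-! Extraction of Schur functions by the Schwarz lemma. -/

open Complex Metric Filter Topology
open scoped ComplexConjugate

namespace Pool.Agent.MP_8daf13

/-- Schwarz lemma: a bounded function vanishing at the origin is z times a bounded function. -/
lemma exists_factor {φ : ℂ → ℂ} (hφ : DifferentiableOn ℂ φ (ball 0 1))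
    (hb : ∀ z ∈ ball (0 : ℂ) 1, ‖φ z‖ ≤ 1) (h0 : φ 0 = 0) :
    ∃ v : ℂ → ℂ, DifferentiableOn ℂ v (ball 0 1) ∧ (∀ z ∈ ball (0 : ℂ) 1, ‖v z‖ ≤ 1) ∧
      ∀ z, φ z = z * v z := by
  refine ⟨dslope φ 0, differentiableOn_dslope_ball one_pos hφ, fun z hz => ?_, fun z => ?_⟩
  · have h := Complex.norm_dslope_le_div_of_mapsTo_ball (R₂ := 1) hφ (fun y hy => by
      rw [h0, mem_closedBall_zero_iff]
      exact hb y hy) hz
    simpa using h
  · have h := eq_dslope φ z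
    rwa [h0, zero_add] at h

lemma exists_w {P : ℂ → ℂ} (hP : DifferentiableOn ℂ P (ball 0 1)) (hP0 : P 0 = 1)
    (hre : ∀ z ∈ ball (0 : ℂ) 1, 0 < (P z).re) :
    ∃ w : ℂ → ℂ, DifferentiableOn ℂ w (ball 0 1) ∧ (∀ z ∈ ball (0 : ℂ) 1, ‖w z‖ ≤ 1) ∧
      ∀ z ∈ ball (0 : ℂ) 1, P z * (1 - z * w z) = 1 + z * w z := by
  have hne : ∀ z ∈ ball (0 : ℂ) 1, P z + 1 ≠ 0 := by
    intro z hz h
    have h1 := congrArg Complex.re h
    simp only [add_re, one_re, zero_re] at h1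
    linarith [hre z hz]
  obtain ⟨w, hw1, hw2, hw3⟩ := exists_factor (φ := fun z => (P z - 1) / (P z + 1))
    ((hP.sub_const 1).div (hP.add_const 1) hne) (fun z hz => by
      rw [norm_div, div_le_one (norm_pos_iff.mpr (hne z hz))]
      refine le_of_sq_le_sq ?_ (norm_nonneg _)
      rw [← normSq_eq_norm_sq, ← normSq_eq_norm_sq, normSq_apply, normSq_apply]
      simp only [sub_re, one_re, sub_im, one_im, add_re, add_im]
      nlinarith [hre z hz]) (by simp [hP0])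
  refine ⟨w, hw1, hw2, fun z hz => ?_⟩
  have h := hw3 z
  have h2 := hne z hz
  rw [← h]
  field_simp
  ring

lemma exists_v {w : ℂ → ℂ} (hw : DifferentiableOn ℂ w (ball 0 1))
    (hb : ∀ z ∈ ball (0 : ℂ) 1, ‖w z‖ ≤ 1) :
    ∃ v : ℂ → ℂ, DifferentiableOn ℂ v (ball 0 1) ∧ (∀ z ∈ ball (0 : ℂ) 1, ‖v z‖ ≤ 1) ∧
      ∀ z ∈ ball (0 : ℂ) 1, w z * (1 + conj (w 0) * z * v z) = w 0 + z * v z := by
  have h00 : (0 : ℂ) ∈ ball (0 : ℂ) 1 := mem_ball_self one_pos
  rcases eq_or_lt_of_le (hb 0 h00) with h1 | h1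
  · have hmax : IsMaxOn (norm ∘ w) (ball 0 1) 0 := by
      intro z hz
      simp only [Set.mem_ofPred_eq, Function.comp]
      rw [h1]
      exact hb z hz
    have hc := Complex.eqOn_of_isPreconnected_of_isMaxOn_norm
      (convex_ball (0 : ℂ) 1).isPreconnected isOpen_ball hw h00 hmax
    refine ⟨fun _ => 0, differentiableOn_const _, fun z _ => by simp, fun z hz => ?_⟩
    have h2 : w z = w 0 := hc hz
    rw [h2]
    ring
  · set a := w 0 with ha
    have hlt : ∀ z ∈ ball (0 : ℂ) 1, ‖conj a * w z‖ < 1 := by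
      intro z hz
      rw [norm_mul, RCLike.norm_conj]
      have := hb z hz
      have := norm_nonneg a
      have := norm_nonneg (w z)
      nlinarith
    have hne : ∀ z ∈ ball (0 : ℂ) 1, 1 - conj a * w z ≠ 0 := by
      intro z hz h
      have h2 : conj a * w z = 1 := (sub_eq_zero.mp h).symm
      have h3 := hlt z hz
      rw [h2, norm_one] at h3
      exact lt_irrefl _ h3
    obtain ⟨v, hv1, hv2, hv3⟩ := exists_factor (φ := fun z => (w z - a) / (1 - conj a * w z))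
      ((hw.sub_const a).div ((differentiableOn_const 1).sub (hw.const_mul (conj a))) hne)
      (fun z hz => by
        rw [norm_div, div_le_one (norm_pos_iff.mpr (hne z hz))]
        refine le_of_sq_le_sq ?_ (norm_nonneg _)
        have h2 := hb z hz
        have h3 : normSq (w z) ≤ 1 := by
          rw [normSq_eq_norm_sq]
          have := norm_nonneg (w z)
          nlinarith
        have h4 : normSq a ≤ 1 := by
          rw [normSq_eq_norm_sq]
          have := norm_nonneg a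
          nlinarith
        rw [← normSq_eq_norm_sq, ← normSq_eq_norm_sq]
        rw [normSq_apply] at h3 h4 ⊢
        rw [normSq_apply]
        simp only [sub_re, one_re, sub_im, one_im, mul_re, mul_im, conj_re, conj_im]
        nlinarith [mul_nonneg (sub_nonneg.mpr h3) (sub_nonneg.mpr h4)]) (by simp [ha])
    refine ⟨v, hv1, hv2, fun z hz => ?_⟩
    have h := hv3 z
    have h2 := hne z hz
    rw [div_eq_iff h2] at h
    linear_combination h

end Pool.Agent.MP_8daf13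

end

section

/-! Taylor coefficients of a function bounded by one: `|v_l| ≤ 1 - |v_0|^2`. -/

set_option autoImplicit false

open Complex Metric Filter Topology
open scoped ComplexConjugate

namespace Pool.Agent.MP_8daf13

lemma tc_finset_sum {ι : Type*} (s : Finset ι) (f : ι → ℂ → ℂ)
    (hf : ∀ i ∈ s, AnalyticAt ℂ (f i) 0) (n : ℕ) :
    tc (fun z => ∑ i ∈ s, f i z) n = ∑ i ∈ s, tc (f i) n := by
  classical
  induction s using Finset.induction_on with
  | empty =>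
    simp only [Finset.sum_empty]
    rw [tc_const]; simp
  | insert i s hi ih =>
    have h1 : (fun z => ∑ j ∈ insert i s, f j z) = fun z => f i z + ∑ j ∈ s, f j z := by
      funext z; rw [Finset.sum_insert hi]
    have h2 : AnalyticAt ℂ (fun z => ∑ j ∈ s, f j z) 0 := by
      refine Finset.analyticAt_fun_sum s fun j hj => hf j (Finset.mem_insert_of_mem hj)
    rw [h1, tc_add (hf i (Finset.mem_insert_self i s)) h2, Finset.sum_insert hi,
      ih fun j hj => hf j (Finset.mem_insert_of_mem hj)]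

lemma mem_ball_rot {c z : ℂ} (hc : ‖c‖ = 1) (hz : z ∈ ball (0 : ℂ) 1) :
    c * z ∈ ball (0 : ℂ) 1 := by
  rw [mem_ball_zero_iff] at hz ⊢
  rw [norm_mul, hc, one_mul]; exact hz

lemma differentiableOn_rot {v : ℂ → ℂ} (hv : DifferentiableOn ℂ v (ball 0 1)) {c : ℂ}
    (hc : ‖c‖ = 1) : DifferentiableOn ℂ (fun z => v (c * z)) (ball 0 1) :=
  hv.comp (differentiableOn_id.const_mul c) fun _ hz => mem_ball_rot hc hz

lemma tc_rot {c : ℂ} (hc : ‖c‖ = 1) (k : ℕ) : ∀ {v : ℂ → ℂ},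
    DifferentiableOn ℂ v (ball 0 1) → tc (fun z => v (c * z)) k = c ^ k * tc v k := by
  induction k with
  | zero => intro v _; simp [tc_zero]
  | succ k ih =>
    intro v hv
    have hd := differentiableOn_dslope_ball one_pos hv
    have h1 : (fun z => v (c * z)) = fun z => v 0 + z * (c * dslope v 0 (c * z)) := by
      funext z
      rw [eq_dslope v (c * z)]; ring
    have ha : AnalyticAt ℂ (fun z => c * dslope v 0 (c * z)) 0 :=
      analyticAt_const.mul (analyticAt_of_ball one_pos (differentiableOn_rot hd hc))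
    have hb : AnalyticAt ℂ (fun z => z * (c * dslope v 0 (c * z))) 0 := analyticAt_id.mul ha
    rw [h1, tc_add analyticAt_const hb, tc_const, tc_id_mul ha, tc_const_mul, ih hd,
      tc_dslope one_pos hv]
    simp only [Nat.succ_ne_zero, if_false, zero_add]
    ring

/-- Cauchy estimate. -/
lemma tc_norm_le {v : ℂ → ℂ} (hv : DifferentiableOn ℂ v (ball 0 1))
    (hb : ∀ z ∈ ball (0 : ℂ) 1, ‖v z‖ ≤ 1) (l : ℕ) : ‖tc v l‖ ≤ 1 := by
  have h1 : ∀ r ∈ Set.Ioo (0 : ℝ) 1, ‖tc v l‖ * r ^ l ≤ 1 := by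
    intro r hr
    have hsub : closedBall (0 : ℂ) r ⊆ ball 0 1 := closedBall_subset_ball hr.2
    have hd : DiffContOnCl ℂ v (ball 0 r) := by
      refine DifferentiableOn.diffContOnCl ?_
      rw [closure_ball _ hr.1.ne']
      exact hv.mono hsub
    have h2 := Complex.norm_iteratedDeriv_le_of_forall_mem_sphere_norm_le (n := l) hr.1 hd
      (C := 1) fun z hz => hb z (hsub (sphere_subset_closedBall hz))
    have hfac : (0 : ℝ) < l.factorial := by exact_mod_cast l.factorial_pos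
    have hr' : 0 < r ^ l := pow_pos hr.1 l
    unfold tc
    rw [norm_div, Complex.norm_natCast, div_mul_eq_mul_div, div_le_one hfac]
    rw [mul_one, le_div_iff₀ hr'] at h2
    exact h2
  have h3 : Tendsto (fun r : ℝ => ‖tc v l‖ * r ^ l) (𝓝[<] 1) (𝓝 (‖tc v l‖ * 1 ^ l)) := by
    refine Tendsto.mono_left ?_ nhdsWithin_le_nhds
    exact (continuous_const.mul (continuous_pow l)).tendsto 1
  rw [one_pow, mul_one] at h3
  refine le_of_tendsto h3 ?_
  filter_upwards [Ioo_mem_nhdsLT (zero_lt_one' ℝ)] with r hr using h1 r hr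

lemma mobius_den_ne {a u : ℂ} (ha : ‖a‖ < 1) (hu : ‖u‖ ≤ 1) : 1 - conj a * u ≠ 0 := by
  intro h
  have h1 : conj a * u = 1 := (sub_eq_zero.mp h).symm
  have h2 : ‖conj a * u‖ < 1 := by
    rw [norm_mul, Complex.norm_conj]
    calc ‖a‖ * ‖u‖ ≤ ‖a‖ * 1 := mul_le_mul_of_nonneg_left hu (norm_nonneg _)
      _ < 1 := by linarith
  rw [h1, norm_one] at h2
  exact lt_irrefl _ h2

lemma mobius_norm_le {a u : ℂ} (ha : ‖a‖ < 1) (hu : ‖u‖ ≤ 1) :
    ‖(u - a) / (1 - conj a * u)‖ ≤ 1 := by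
  have hne := mobius_den_ne ha hu
  rw [norm_div, div_le_one (norm_pos_iff.mpr hne)]
  have h1 : ‖u - a‖ ^ 2 ≤ ‖1 - conj a * u‖ ^ 2 := by
    have e : ‖1 - conj a * u‖ ^ 2 - ‖u - a‖ ^ 2 = (1 - ‖a‖ ^ 2) * (1 - ‖u‖ ^ 2) := by
      rw [← Complex.normSq_eq_norm_sq, ← Complex.normSq_eq_norm_sq, ← Complex.normSq_eq_norm_sq,
        ← Complex.normSq_eq_norm_sq]
      simp only [Complex.normSq_apply, Complex.sub_re, Complex.sub_im, Complex.mul_re,
        Complex.mul_im, Complex.one_re, Complex.one_im, Complex.conj_re, Complex.conj_im]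
      ring
    have h2 : 0 ≤ (1 - ‖a‖ ^ 2) * (1 - ‖u‖ ^ 2) := by
      have h3 : ‖a‖ ^ 2 ≤ 1 := by nlinarith [norm_nonneg a]
      have h4 : ‖u‖ ^ 2 ≤ 1 := by nlinarith [norm_nonneg u]
      exact mul_nonneg (by linarith) (by linarith)
    linarith
  exact le_of_sq_le_sq h1 (norm_nonneg _) |> fun h => h

/-- The case of a function whose coefficients of index `0 < k < l` vanish, `|u 0| < 1`. -/
lemma schur_gap {u : ℂ → ℂ} (hu : DifferentiableOn ℂ u (ball 0 1))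
    (hb : ∀ z ∈ ball (0 : ℂ) 1, ‖u z‖ ≤ 1) (h0 : ‖u 0‖ < 1) (l : ℕ) (hl : 1 ≤ l)
    (hgap : ∀ k, 0 < k → k < l → tc u k = 0) : ‖tc u l‖ ≤ 1 - ‖u 0‖ ^ 2 := by
  set a := u 0 with ha
  set φ : ℂ → ℂ := fun z => (u z - a) / (1 - conj a * u z) with hφ
  have hden : ∀ z ∈ ball (0 : ℂ) 1, 1 - conj a * u z ≠ 0 := fun z hz =>
    mobius_den_ne h0 (hb z hz)
  have hD : DifferentiableOn ℂ (fun z => 1 - conj a * u z) (ball 0 1) :=
    (differentiableOn_const _).sub (hu.const_mul _)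
  have hφd : DifferentiableOn ℂ φ (ball 0 1) := (hu.sub_const a).div hD hden
  have hφa := analyticAt_of_ball one_pos hφd
  have hua := analyticAt_of_ball one_pos hu
  have hDa := analyticAt_of_ball one_pos hD
  have hmem : ball (0 : ℂ) 1 ∈ 𝓝 (0 : ℂ) := isOpen_ball.mem_nhds (mem_ball_self one_pos)
  have hprod : ∀ k, tc (fun z => φ z * (1 - conj a * u z)) k = tc (fun z => u z - a) k := by
    intro k
    refine tc_congr ?_ k
    filter_upwards [hmem] with z hz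
    rw [hφ]
    exact div_mul_cancel₀ _ (hden z hz)
  have hD0 : tc (fun z => 1 - conj a * u z) 0 = 1 - conj a * a := by
    rw [tc_zero]
  have hsub : ∀ k, 0 < k → tc (fun z => u z - a) k = tc u k := by
    intro k hk
    rw [tc_sub hua analyticAt_const, tc_const, if_neg hk.ne', sub_zero]
  have haa : (1 : ℂ) - conj a * a = ((1 - ‖a‖ ^ 2 : ℝ) : ℂ) := by
    have h := Complex.conj_mul' a
    rw [h]; push_cast; rfl
  have hpos : 0 < 1 - ‖a‖ ^ 2 := by nlinarith [norm_nonneg a]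
  have hne : (1 : ℂ) - conj a * a ≠ 0 := by
    rw [haa]; exact_mod_cast hpos.ne'
  have hzero : ∀ k, k < l → tc φ k = 0 := by
    intro k
    induction k using Nat.strong_induction_on with
    | _ k ih =>
      intro hk
      rcases Nat.eq_zero_or_pos k with hk0 | hk0
      · subst hk0
        rw [tc_zero]
        simp [hφ, ← ha]
      · have h1 := hprod k
        rw [tc_mul hφa hDa, hsub k hk0, hgap k hk0 hk, Finset.sum_range_succ, Nat.sub_self, hD0,
          Finset.sum_eq_zero, zero_add] at h1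
        · exact (mul_eq_zero.mp h1).resolve_right hne
        · intro i hi
          have hi' := Finset.mem_range.mp hi
          rw [ih i hi' (hi'.trans hk), zero_mul]
  have hlast : tc φ l * (1 - conj a * a) = tc u l := by
    have h1 := hprod l
    rw [tc_mul hφa hDa, hsub l (by omega), Finset.sum_range_succ, Nat.sub_self, hD0,
      Finset.sum_eq_zero, zero_add] at h1
    · exact h1
    · intro i hi
      rw [hzero i (Finset.mem_range.mp hi), zero_mul]
  have hφb : ‖tc φ l‖ ≤ 1 := tc_norm_le hφd (fun z hz => mobius_norm_le h0 (hb z hz)) l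
  rw [← hlast, norm_mul, haa, Complex.norm_real, Real.norm_of_nonneg hpos.le]
  calc ‖tc φ l‖ * (1 - ‖a‖ ^ 2) ≤ 1 * (1 - ‖a‖ ^ 2) := mul_le_mul_of_nonneg_right hφb hpos.le
    _ = _ := one_mul _

lemma schur_coeff_lt {v : ℂ → ℂ} (hv : DifferentiableOn ℂ v (ball 0 1))
    (hb : ∀ z ∈ ball (0 : ℂ) 1, ‖v z‖ ≤ 1) (h0 : ‖v 0‖ < 1) (l : ℕ) (hl : 1 ≤ l) :
    ‖tc v l‖ ≤ 1 - ‖v 0‖ ^ 2 := by
  set ω : ℂ := Complex.exp (2 * Real.pi * Complex.I / l) with hω
  have hprim : IsPrimitiveRoot ω l := Complex.isPrimitiveRoot_exp l (by omega)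
  have hωn : ‖ω‖ = 1 := hprim.norm'_eq_one (by omega)
  have hωj : ∀ j, ‖ω ^ j‖ = 1 := fun j => by rw [norm_pow, hωn, one_pow]
  have hl0 : (l : ℂ) ≠ 0 := by exact_mod_cast (by omega : l ≠ 0)
  set u : ℂ → ℂ := fun z => (l : ℂ)⁻¹ * ∑ j ∈ Finset.range l, v (ω ^ j * z) with hu
  have hud : DifferentiableOn ℂ u (ball 0 1) := by
    refine DifferentiableOn.const_mul ?_ _
    exact DifferentiableOn.fun_sum fun j _ => differentiableOn_rot hv (hωj j)
  have hub : ∀ z ∈ ball (0 : ℂ) 1, ‖u z‖ ≤ 1 := by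
    intro z hz
    have h1 : ‖∑ j ∈ Finset.range l, v (ω ^ j * z)‖ ≤ l := by
      refine (norm_sum_le _ _).trans ?_
      refine (Finset.sum_le_sum fun j _ => hb _ (mem_ball_rot (hωj j) hz)).trans (le_of_eq ?_)
      simp
    have hlp : (0 : ℝ) < l := by exact_mod_cast hl
    show ‖(l : ℂ)⁻¹ * _‖ ≤ 1
    rw [norm_mul, norm_inv, Complex.norm_natCast, inv_mul_le_iff₀ hlp, mul_one]
    exact h1
  have htc : ∀ k, tc u k = (l : ℂ)⁻¹ * ((∑ j ∈ Finset.range l, (ω ^ k) ^ j) * tc v k) := by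
    intro k
    rw [hu, tc_const_mul, tc_finset_sum _ _ fun j _ =>
      analyticAt_of_ball one_pos (differentiableOn_rot hv (hωj j)), Finset.sum_mul]
    congr 1
    refine Finset.sum_congr rfl fun j _ => ?_
    rw [tc_rot (hωj j) k hv, ← pow_mul, ← pow_mul, mul_comm j k]
  have hu0 : u 0 = v 0 := by
    have h := htc 0
    rw [tc_zero, tc_zero] at h
    rw [h]
    simp only [pow_zero, one_pow, Finset.sum_const, Finset.card_range, nsmul_eq_mul, mul_one]
    field_simp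
  have hul : tc u l = tc v l := by
    rw [htc l, hprim.pow_eq_one]
    simp only [one_pow, Finset.sum_const, Finset.card_range, nsmul_eq_mul, mul_one]
    field_simp
  have hgap : ∀ k, 0 < k → k < l → tc u k = 0 := by
    intro k hk hkl
    have h1 : ω ^ k ≠ 1 := fun h => by
      have := hprim.dvd_of_pow_eq_one k h
      exact absurd (Nat.le_of_dvd hk this) (by omega)
    have h2 : (∑ j ∈ Finset.range l, (ω ^ k) ^ j) * (ω ^ k - 1) = 0 := by
      rw [geom_sum_mul, ← pow_mul, mul_comm k l, pow_mul, hprim.pow_eq_one, one_pow, sub_self]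
    have h3 := (mul_eq_zero.mp h2).resolve_right (sub_ne_zero.mpr h1)
    rw [htc k, h3, zero_mul, mul_zero]
  have h := schur_gap hud hub (by rw [hu0]; exact h0) l hl hgap
  rwa [hul, hu0] at h

/-- S1 -/
lemma schur_coeff {v : ℂ → ℂ} (hv : DifferentiableOn ℂ v (ball 0 1))
    (hb : ∀ z ∈ ball (0 : ℂ) 1, ‖v z‖ ≤ 1) (l : ℕ) (hl : 1 ≤ l) :
    ‖tc v l‖ ≤ 1 - ‖tc v 0‖ ^ 2 := by
  rw [tc_zero]
  have hv0 : ‖v 0‖ ≤ 1 := hb 0 (mem_ball_self one_pos)
  have h1 : ∀ t ∈ Set.Ioo (0 : ℝ) 1, t * ‖tc v l‖ ≤ 1 - t ^ 2 * ‖v 0‖ ^ 2 := by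
    intro t ht
    have hn : ‖(t : ℂ)‖ = t := by rw [Complex.norm_real, Real.norm_of_nonneg ht.1.le]
    have h2 := schur_coeff_lt (v := fun z => (t : ℂ) * v z) (hv.const_mul _)
      (fun z hz => by
        rw [norm_mul, hn]
        exact mul_le_one₀ ht.2.le (norm_nonneg _) (hb z hz))
      (by
        rw [norm_mul, hn]
        calc t * ‖v 0‖ ≤ t * 1 := mul_le_mul_of_nonneg_left hv0 ht.1.le
          _ < 1 := by linarith [ht.2]) l hl
    rw [tc_const_mul, norm_mul, norm_mul, hn, mul_pow] at h2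
    exact h2
  have h3 : Tendsto (fun t : ℝ => t * ‖tc v l‖) (𝓝[<] 1) (𝓝 (1 * ‖tc v l‖)) := by
    refine Tendsto.mono_left ?_ nhdsWithin_le_nhds
    exact (continuous_id.mul continuous_const).tendsto 1
  have h4 : Tendsto (fun t : ℝ => 1 - t ^ 2 * ‖v 0‖ ^ 2) (𝓝[<] 1)
      (𝓝 (1 - 1 ^ 2 * ‖v 0‖ ^ 2)) := by
    refine Tendsto.mono_left ?_ nhdsWithin_le_nhds
    exact (continuous_const.sub ((continuous_pow 2).mul continuous_const)).tendsto 1
  rw [one_mul] at h3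
  rw [one_pow, one_mul] at h4
  refine le_of_tendsto_of_tendsto h3 h4 ?_
  filter_upwards [Ioo_mem_nhdsLT (zero_lt_one' ℝ)] with t ht using h1 t ht

end Pool.Agent.MP_8daf13

end

section

open Complex Metric Filter Topology
open scoped ComplexConjugate

namespace Pool.Agent.MP_8daf13

lemma tc_geom (a : ℂ) (n : ℕ) : tc (fun z => (1 - a * z)⁻¹) n = a ^ n := by
  have hne : ∀ᶠ z in 𝓝 (0 : ℂ), 1 - a * z ≠ 0 := by
    have hc : ContinuousAt (fun z : ℂ => 1 - a * z) 0 := by fun_prop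
    exact hc.eventually_ne (by simp)
  have han : AnalyticAt ℂ (fun z : ℂ => (1 - a * z)⁻¹) 0 := by
    apply AnalyticAt.inv
    · fun_prop
    · simp
  induction n with
  | zero => simp [tc_zero]
  | succ n ih =>
    have h1 : tc (fun z => (1 - a * z)⁻¹) (n + 1)
        = tc (fun z => 1 + a * (z * (1 - a * z)⁻¹)) (n + 1) := by
      refine tc_congr ?_ _
      filter_upwards [hne] with z hz
      field_simp
      ring
    have han2 : AnalyticAt ℂ (fun z : ℂ => a * (z * (1 - a * z)⁻¹)) 0 :=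
      analyticAt_const.mul (analyticAt_id.mul han)
    rw [h1, tc_add (f := fun _ => (1 : ℂ)) analyticAt_const han2, tc_const,
      tc_const_mul a (fun z => z * (1 - a * z)⁻¹), tc_id_mul han, ih]
    simp [pow_succ, mul_comm]

lemma coef_rec {p : ℝ} (hp : 0 < p) (hp1 : p < 1) {w₀ : ℂ} (hw : w₀ ≠ 0) {f P v : ℂ → ℂ} {m : ℂ}
    (hf : ∃ g : ℂ → ℂ, DifferentiableOn ℂ g (ball 0 1) ∧ g p ≠ 0 ∧
      ∀ z ∈ ball (0 : ℂ) 1, z ≠ p → f z = g z / (z - p))
    (hf0 : f 0 = 0) (hf1 : deriv f 0 = 1)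
    (hP : ∀ z ∈ ball (0 : ℂ) 1, z ≠ p → f z ≠ w₀ ∧
      P z = - (z * deriv f z) / (f z - w₀) - p / (z - p) + p * z / (1 - p * z))
    (hv : DifferentiableOn ℂ v (ball 0 1))
    (hPv : ∀ z ∈ ball (0 : ℂ) 1, (P z - 1) * (1 - m * z + (conj m * z - z ^ 2) * v z)
        = 2 * z * (m + z * v z)) :
    2 * m = p + 1 / p + 1 / w₀ ∧ ∃ h : ℕ → ℂ, Rec m (tc v) h ∧
      ∀ n, 1 ≤ n → tc f n = - w₀ * ∑ k ∈ Finset.range (n + 1), (sC p (n - k) : ℂ) * h k := by
  have hp0 : (p : ℂ) ≠ 0 := by exact_mod_cast hp.ne'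
  -- small neighbourhood
  have hball : ball (0 : ℂ) p ⊆ ball 0 1 := ball_subset_ball hp1.le
  have hnear : ∀ z ∈ ball (0 : ℂ) p, z ≠ p := by
    intro z hz h
    rw [h, mem_ball_zero_iff] at hz
    simp [abs_of_pos hp] at hz
  have hsub : ∀ z ∈ ball (0 : ℂ) p, z - p ≠ 0 := fun z hz => sub_ne_zero.mpr (hnear z hz)
  have h1p : ∀ z ∈ ball (0 : ℂ) 1, 1 - p * z ≠ 0 := by
    intro z hz h
    have : (p : ℂ) * z = 1 := (sub_eq_zero.mp h).symm
    have h2 : ‖(p : ℂ) * z‖ < 1 := by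
      rw [norm_mul]
      have : ‖(p : ℂ)‖ = p := by simp [abs_of_pos hp]
      rw [this]
      have hz' : ‖z‖ < 1 := mem_ball_zero_iff.mp hz
      nlinarith [norm_nonneg z]
    rw [this] at h2
    simp at h2
  have hfd : DifferentiableOn ℂ f (ball 0 p) := by
    obtain ⟨g, hg, -, hfg⟩ := hf
    have : DifferentiableOn ℂ (fun z => g z / (z - p)) (ball 0 p) := by
      apply DifferentiableOn.div (hg.mono hball) (by fun_prop)
      exact hsub
    exact this.congr fun z hz => hfg z (hball hz) (hnear z hz)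
  have hfa : AnalyticAt ℂ f 0 := analyticAt_of_ball hp hfd
  have hva : AnalyticAt ℂ v 0 := analyticAt_of_ball one_pos hv
  -- the function H
  set H : ℂ → ℂ := fun z => (1 - f z / w₀) * ((1 - z / p) * (1 - p * z)) with hH
  have hHa : AnalyticAt ℂ H 0 := by
    have h1 : AnalyticAt ℂ (fun z => 1 - f z / w₀) 0 := by
      have : AnalyticAt ℂ (fun z => f z / w₀) 0 := hfa.div analyticAt_const hw
      exact analyticAt_const.sub this
    have h2 : AnalyticAt ℂ (fun z : ℂ => (1 - z / p) * (1 - p * z)) 0 := by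
      apply AnalyticAt.mul
      · exact analyticAt_const.sub (analyticAt_id.div analyticAt_const hp0)
      · fun_prop
    exact h1.mul h2
  have hH'a : AnalyticAt ℂ (deriv H) 0 := hHa.deriv
  have hH0 : H 0 = 1 := by simp [hH, hf0]
  have hderivH : ∀ z ∈ ball (0 : ℂ) p, deriv H z =
      (- deriv f z / w₀) * ((1 - z / p) * (1 - p * z))
        + (1 - f z / w₀) * ((- 1 / p) * (1 - p * z) + (1 - z / p) * (- p)) := by
    intro z hz
    have hfz : HasDerivAt f (deriv f z) z :=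
      ((hfd z hz).differentiableAt (isOpen_ball.mem_nhds hz)).hasDerivAt
    have h1 : HasDerivAt (fun z => 1 - f z / w₀) (- deriv f z / w₀) z := by
      have := (hfz.div_const w₀).const_sub 1
      simpa [neg_div] using this
    have h2 : HasDerivAt (fun z : ℂ => 1 - z / p) (- 1 / p) z := by
      have := ((hasDerivAt_id z).div_const (p : ℂ)).const_sub 1
      simpa [neg_div] using this
    have h3 : HasDerivAt (fun z : ℂ => 1 - p * z) (- p) z := by
      have := ((hasDerivAt_id z).const_mul (p : ℂ)).const_sub 1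
      simpa using this
    exact (h1.mul (h2.mul h3)).deriv
  -- key identity
  have hkey : ∀ z ∈ ball (0 : ℂ) p, z * deriv H z =
      z * (m * (z * deriv H z) - 2 * m * H z
        - z * ((conj m * deriv H z - z * deriv H z + 2 * H z) * v z)) := by
    intro z hz
    obtain ⟨hfw, hPz⟩ := hP z (hball hz) (hnear z hz)
    have e1 : z * deriv H z = (1 - P z) * H z := by
      rw [hderivH z hz, hPz]
      have a1 := sub_ne_zero.mpr hfw
      have a2 := hsub z hz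
      have a3 := h1p z (hball hz)
      have a3' : 1 - z * (p : ℂ) ≠ 0 := by rwa [mul_comm]
      simp only [hH]
      field_simp
      ring
    have e2 := hPv z (hball hz)
    have e3 : z * deriv H z * (1 - m * z + (conj m * z - z ^ 2) * v z)
        = - (2 * z * (m + z * v z)) * H z := by
      rw [e1, ← e2]; ring
    linear_combination e3
  have hevent : ∀ᶠ z in 𝓝 (0 : ℂ), z ∈ ball (0 : ℂ) p := isOpen_ball.mem_nhds (mem_ball_self hp)
  -- coefficients
  set Y : ℂ → ℂ := fun z => conj m * deriv H z - z * deriv H z + 2 * H z with hY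
  have hzH' : AnalyticAt ℂ (fun z => z * deriv H z) 0 := analyticAt_id.mul hH'a
  have hmH' : AnalyticAt ℂ (fun z => conj m * deriv H z) 0 := analyticAt_const.mul hH'a
  have h2H : AnalyticAt ℂ (fun z => 2 * H z) 0 := analyticAt_const.mul hHa
  have hYa : AnalyticAt ℂ Y 0 := (hmH'.sub hzH').add h2H
  have hYv : AnalyticAt ℂ (fun z => Y z * v z) 0 := hYa.mul hva
  have hzYv : AnalyticAt ℂ (fun z => z * (Y z * v z)) 0 := analyticAt_id.mul hYv
  have hmzH' : AnalyticAt ℂ (fun z => m * (z * deriv H z)) 0 := analyticAt_const.mul hzH'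
  have h2mH : AnalyticAt ℂ (fun z => 2 * m * H z) 0 := analyticAt_const.mul hHa
  have hzH'c : ∀ k, tc (fun z => z * deriv H z) k = k * tc H k := by
    intro k
    rcases k with _ | k
    · simp [tc_zero]
    · rw [tc_id_mul hH'a, tc_deriv]; push_cast; ring
  have hYc : ∀ k, tc Y k = conj m * ((k : ℂ) + 1) * tc H (k + 1) - ((k : ℂ) - 2) * tc H k := by
    intro k
    rw [hY, tc_add (f := fun z => conj m * deriv H z - z * deriv H z) (hmH'.sub hzH') h2H,
      tc_sub hmH' hzH', tc_const_mul _ (deriv H), tc_const_mul _ H, hzH'c, tc_deriv]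
    ring
  have hrec : ∀ k : ℕ, ((k : ℂ) + 1) * tc H (k + 1) = ((k : ℂ) - 2) * m * tc H k
      - ∑ j ∈ Finset.range k, tc v (k - 1 - j) *
        (conj m * ((j : ℂ) + 1) * tc H (j + 1) - ((j : ℂ) - 2) * tc H j) := by
    intro k
    have h1 : tc (fun z => z * deriv H z) (k + 1) = tc (fun z => z * (m * (z * deriv H z)
        - 2 * m * H z - z * (Y z * v z))) (k + 1) := by
      refine tc_congr ?_ _
      filter_upwards [hevent] with z hz
      exact hkey z hz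
    rw [tc_id_mul hH'a, tc_id_mul (f := fun z => m * (z * deriv H z)
        - 2 * m * H z - z * (Y z * v z)) ((hmzH'.sub h2mH).sub hzYv), tc_deriv] at h1
    rw [tc_sub (f := fun z => m * (z * deriv H z) - 2 * m * H z) (hmzH'.sub h2mH) hzYv,
      tc_sub hmzH' h2mH, tc_const_mul m (fun z => z * deriv H z), tc_const_mul (2 * m) H, hzH'c]
      at h1
    have h2 : tc (fun z => z * (Y z * v z)) k = ∑ j ∈ Finset.range k, tc v (k - 1 - j) *
        (conj m * ((j : ℂ) + 1) * tc H (j + 1) - ((j : ℂ) - 2) * tc H j) := by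
      rcases k with _ | k
      · simp [tc_zero]
      · rw [tc_id_mul hYv, tc_mul hYa hva]
        refine Finset.sum_congr rfl fun j _ => ?_
        rw [hYc]
        simp only [Nat.add_sub_cancel]
        ring
    rw [h2] at h1
    rw [h1]; ring
  -- formula for the coefficients of f
  have hK1 : AnalyticAt ℂ (fun z : ℂ => (1 - (p : ℂ) * z)⁻¹) 0 := by
    apply AnalyticAt.inv
    · fun_prop
    · simp
  have hK2 : AnalyticAt ℂ (fun z : ℂ => (1 - (1 / (p : ℂ)) * z)⁻¹) 0 := by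
    apply AnalyticAt.inv
    · fun_prop
    · simp
  have hKc : ∀ n, tc (fun z : ℂ => (1 - (p : ℂ) * z)⁻¹ * (1 - (1 / (p : ℂ)) * z)⁻¹) n
      = (sC p n : ℂ) := by
    intro n
    rw [tc_mul hK1 hK2]
    unfold sC
    push_cast
    refine Finset.sum_congr rfl fun i _ => ?_
    rw [tc_geom, tc_geom]
    rw [one_div, inv_pow]
    field_simp
  have hfc : ∀ n, 1 ≤ n → tc f n = - w₀ * ∑ k ∈ Finset.range (n + 1), (sC p (n - k) : ℂ) * tc H k := by
    intro n hn
    have hHK : AnalyticAt ℂ (fun z => H z * ((1 - (p : ℂ) * z)⁻¹ * (1 - (1 / (p : ℂ)) * z)⁻¹)) 0 :=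
      hHa.mul (hK1.mul hK2)
    have h1 : tc f n = tc (fun z => w₀ - w₀ * (H z * ((1 - (p : ℂ) * z)⁻¹
        * (1 - (1 / (p : ℂ)) * z)⁻¹))) n := by
      refine tc_congr ?_ _
      filter_upwards [hevent] with z hz
      have a2 := hsub z hz
      have a3 := h1p z (hball hz)
      have a4 : 1 - 1 / (p : ℂ) * z ≠ 0 := by
        intro h
        apply a2
        field_simp at h
        linear_combination -h
      have a5 : (p : ℂ) - z ≠ 0 := by
        intro h; apply a2; linear_combination -h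
      simp only [hH]
      have e : (1 : ℂ) - z / p = 1 - 1 / p * z := by ring
      rw [e]
      have e2 : (1 - f z / w₀) * ((1 - 1 / (p : ℂ) * z) * (1 - p * z)) *
          ((1 - (p : ℂ) * z)⁻¹ * (1 - (1 / (p : ℂ)) * z)⁻¹) = 1 - f z / w₀ := by
        rw [show (1 - f z / w₀) * ((1 - 1 / (p : ℂ) * z) * (1 - p * z)) *
          ((1 - (p : ℂ) * z)⁻¹ * (1 - (1 / (p : ℂ)) * z)⁻¹) = (1 - f z / w₀) *
          ((1 - (p : ℂ) * z) * (1 - (p : ℂ) * z)⁻¹) *
          ((1 - 1 / (p : ℂ) * z) * (1 - (1 / (p : ℂ)) * z)⁻¹) by ring,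
          mul_inv_cancel₀ a3, mul_inv_cancel₀ a4]
        ring
      rw [e2]
      field_simp
      ring
    have hHK2 : AnalyticAt ℂ (fun z => w₀ * (H z * ((1 - (p : ℂ) * z)⁻¹
        * (1 - (1 / (p : ℂ)) * z)⁻¹))) 0 := analyticAt_const.mul hHK
    rw [h1, tc_sub (f := fun _ => w₀) analyticAt_const hHK2, tc_const,
      if_neg (by omega), tc_const_mul w₀ (fun z => H z * ((1 - (p : ℂ) * z)⁻¹
        * (1 - (1 / (p : ℂ)) * z)⁻¹)), tc_mul (g := fun z => (1 - (p : ℂ) * z)⁻¹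
        * (1 - (1 / (p : ℂ)) * z)⁻¹) hHa (hK1.mul hK2)]
    rw [zero_sub, neg_mul]
    congr 2
    refine Finset.sum_congr rfl fun k _ => ?_
    rw [hKc]; ring
  have hH0' : tc H 0 = 1 := by rw [tc_zero]; exact hH0
  refine ⟨?_, tc H, ⟨hH0', hrec⟩, hfc⟩
  have h1 := hfc 1 le_rfl
  have h2 := hrec 0
  have h3 : tc f 1 = 1 := by rw [tc_one, hf1]
  have h4 : (sC p 1 : ℂ) = p + 1 / p := by
    unfold sC
    simp [Finset.sum_range_succ]
    ring
  have h5 : (sC p 0 : ℂ) = 1 := by unfold sC; simp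
  rw [h3, Finset.sum_range_succ, Finset.sum_range_succ, Finset.sum_range_zero] at h1
  simp only [Nat.sub_zero, Nat.sub_self, zero_add, h4, h5, hH0'] at h1
  simp [hH0'] at h2
  rw [h2] at h1
  field_simp
  field_simp at h1
  linear_combination -h1
end Pool.Agent.MP_8daf13

end

section

/-! Item S4 of MP_8daf13_an: the function attached to a Schur function. -/

open Complex Metric Filter Topology
open scoped ComplexConjugate

namespace Pool.Agent.MP_8daf13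

lemma S4_normSq (m u : ℂ) :
    normSq (1 + conj m * u) - normSq (m + u) = (1 - normSq m) * (1 - normSq u) := by
  simp only [normSq_apply, add_re, add_im, mul_re, mul_im, conj_re, conj_im, one_re, one_im]
  ring

lemma S4_norm_le {m u : ℂ} (hm : ‖m‖ ≤ 1) (hu : ‖u‖ ≤ 1) : ‖m + u‖ ≤ ‖1 + conj m * u‖ := by
  have h := S4_normSq m u
  simp only [normSq_eq_norm_sq] at h
  have h1 : 0 ≤ (1 - ‖m‖ ^ 2) * (1 - ‖u‖ ^ 2) := by
    apply mul_nonneg <;> nlinarith [norm_nonneg m, norm_nonneg u]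
  have h2 : ‖m + u‖ ^ 2 ≤ ‖1 + conj m * u‖ ^ 2 := by linarith
  exact (pow_le_pow_iff_left₀ (norm_nonneg _) (norm_nonneg _) two_ne_zero).mp h2

lemma S4_re {D A : ℂ} (h : ‖A‖ < ‖D‖) : 0 < ((D + A) / (D - A)).re := by
  have hne : D - A ≠ 0 := by
    intro h0
    rw [sub_eq_zero] at h0
    rw [h0] at h
    exact lt_irrefl _ h
  have hpos : 0 < normSq (D - A) := normSq_pos.mpr hne
  have h2 : ((D + A) / (D - A)).re = (normSq D - normSq A) / normSq (D - A) := by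
    rw [div_re]
    simp only [normSq_apply, add_re, add_im, sub_re, sub_im]
    ring
  rw [h2]
  apply div_pos _ hpos
  rw [normSq_eq_norm_sq, normSq_eq_norm_sq]
  nlinarith [norm_nonneg A, norm_nonneg D]

/-- S4 -/
lemma exists_f {p : ℝ} (hp : 0 < p) (hp1 : p < 1) {m w₀ : ℂ} (hm : ‖m‖ ≤ 1) (hw : w₀ ≠ 0)
    (hmw : 2 * m = p + 1 / p + 1 / w₀) {v : ℂ → ℂ}
    (hv : DifferentiableOn ℂ v (ball 0 1)) (hb : ∀ z ∈ ball (0 : ℂ) 1, ‖v z‖ ≤ 1) :
    ∃ f P : ℂ → ℂ, (∃ g : ℂ → ℂ, DifferentiableOn ℂ g (ball 0 1) ∧ g p ≠ 0 ∧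
        ∀ z ∈ ball (0 : ℂ) 1, z ≠ p → f z = g z / (z - p)) ∧ f 0 = 0 ∧ deriv f 0 = 1 ∧
      DifferentiableOn ℂ P (ball 0 1) ∧ P 0 = 1 ∧ (∀ z ∈ ball (0 : ℂ) 1, 0 < (P z).re) ∧
      (∀ z ∈ ball (0 : ℂ) 1, z ≠ p → f z ≠ w₀ ∧
        P z = - (z * deriv f z) / (f z - w₀) - p / (z - p) + p * z / (1 - p * z)) ∧
      ∀ z ∈ ball (0 : ℂ) 1, (P z - 1) * (1 - m * z + (conj m * z - z ^ 2) * v z)
        = 2 * z * (m + z * v z) := by
  have hpc : (p : ℂ) ≠ 0 := by exact_mod_cast hp.ne'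
  -- the two auxiliary functions
  set D : ℂ → ℂ := fun z => 1 + conj m * (z * v z) with hD
  set A : ℂ → ℂ := fun z => z * (m + z * v z) with hA
  have hzv : ∀ z ∈ ball (0 : ℂ) 1, ‖z * v z‖ < 1 := by
    intro z hz
    have hz1 : ‖z‖ < 1 := by simpa using hz
    rw [norm_mul]
    nlinarith [norm_nonneg z, norm_nonneg (v z), hb z hz]
  have hDne : ∀ z ∈ ball (0 : ℂ) 1, D z ≠ 0 := by
    intro z hz h0
    have h1 : ‖conj m * (z * v z)‖ < 1 := by
      rw [norm_mul, RCLike.norm_conj]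
      nlinarith [hzv z hz, norm_nonneg m, norm_nonneg (z * v z)]
    have h2 : conj m * (z * v z) = -1 := by
      have : 1 + conj m * (z * v z) = 0 := h0
      linear_combination this
    rw [h2, norm_neg, norm_one] at h1
    exact lt_irrefl _ h1
  have hAD : ∀ z ∈ ball (0 : ℂ) 1, ‖A z‖ < ‖D z‖ := by
    intro z hz
    have hz1 : ‖z‖ < 1 := by simpa using hz
    have h1 := S4_norm_le hm (hzv z hz).le
    have h2 : 0 < ‖D z‖ := norm_pos_iff.mpr (hDne z hz)
    have h3 : ‖A z‖ = ‖z‖ * ‖m + z * v z‖ := norm_mul _ _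
    rw [h3]
    have h4 : ‖m + z * v z‖ ≤ ‖D z‖ := h1
    nlinarith [norm_nonneg z, norm_nonneg (m + z * v z)]
  have hne : ∀ z ∈ ball (0 : ℂ) 1, D z - A z ≠ 0 := by
    intro z hz h0
    rw [sub_eq_zero] at h0
    have := hAD z hz
    rw [h0] at this
    exact lt_irrefl _ this
  have hDd : DifferentiableOn ℂ D (ball 0 1) := by
    intro z hz
    have := hv z hz
    fun_prop
  have hAd : DifferentiableOn ℂ A (ball 0 1) := by
    intro z hz
    have := hv z hz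
    fun_prop
  -- the function P
  set P : ℂ → ℂ := fun z => (D z + A z) / (D z - A z) with hP
  -- the logarithmic derivative of H
  set k : ℂ → ℂ := fun z => -2 * (m + z * v z) / (D z - A z) with hk
  have hkd : DifferentiableOn ℂ k (ball 0 1) := by
    intro z hz
    have h1 := hv z hz
    have h2 := hDd z hz
    have h3 := hAd z hz
    have h4 := hne z hz
    refine DifferentiableWithinAt.div ?_ (h2.sub h3) h4
    fun_prop
  obtain ⟨F, hF⟩ := hkd.isExactOn_ball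
  set H : ℂ → ℂ := fun z => Complex.exp (F z - F 0) with hH
  have hHd : ∀ z ∈ ball (0 : ℂ) 1, HasDerivAt H (k z * H z) z := by
    intro z hz
    have h1 := ((hF z hz).sub_const (F 0)).cexp
    rw [mul_comm] at h1
    exact h1
  have hHne : ∀ z, H z ≠ 0 := fun z => Complex.exp_ne_zero _
  have hH0 : H 0 = 1 := by simp [hH]
  have h1pz : ∀ z ∈ ball (0 : ℂ) 1, (1 : ℂ) - p * z ≠ 0 := by
    intro z hz h0
    have hz1 : ‖z‖ < 1 := by simpa using hz
    have h1 : (p : ℂ) * z = 1 := by linear_combination -h0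
    have h2 : ‖(p : ℂ) * z‖ = 1 := by rw [h1, norm_one]
    rw [norm_mul, Complex.norm_real, Real.norm_eq_abs, abs_of_pos hp] at h2
    nlinarith [norm_nonneg z]
  set g : ℂ → ℂ := fun z => w₀ * ((z - p) + p * H z / (1 - p * z)) with hg
  set f : ℂ → ℂ := fun z => g z / (z - p) with hf
  have h0mem : (0 : ℂ) ∈ ball (0 : ℂ) 1 := by simp
  have hpmem : (p : ℂ) ∈ ball (0 : ℂ) 1 := by
    simp only [mem_ball_zero_iff, Complex.norm_real, Real.norm_eq_abs, abs_of_pos hp]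
    exact hp1
  have hgd : DifferentiableOn ℂ g (ball 0 1) := by
    intro z hz
    have h1 := (hHd z hz).differentiableAt.differentiableWithinAt (s := ball 0 1)
    have h2 := h1pz z hz
    have h3 : DifferentiableWithinAt ℂ (fun z => p * H z / (1 - p * z)) (ball 0 1) z :=
      DifferentiableWithinAt.div (by fun_prop) (by fun_prop) h2
    fun_prop
  -- f - w₀ off the pole
  have hfw : ∀ z ∈ ball (0 : ℂ) 1, z ≠ p →
      f z = w₀ + w₀ * p * H z / ((1 - p * z) * (z - p)) := by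
    intro z hz hzp
    have h1 := h1pz z hz
    have h2 : z - p ≠ 0 := sub_ne_zero.mpr hzp
    simp only [hf, hg]
    field_simp
  have hfd : ∀ z ∈ ball (0 : ℂ) 1, z ≠ p →
      HasDerivAt f (w₀ * p * H z / ((1 - p * z) * (z - p)) *
        (k z + p / (1 - p * z) - 1 / (z - p))) z := by
    intro z hz hzp
    have h1 := h1pz z hz
    have h2 : z - p ≠ 0 := sub_ne_zero.mpr hzp
    have hev : f =ᶠ[𝓝 z] fun z => w₀ + w₀ * p * H z / ((1 - p * z) * (z - p)) := by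
      filter_upwards [isOpen_ball.mem_nhds hz, isOpen_ne.mem_nhds hzp] with y hy1 hy2
      exact hfw y hy1 hy2
    refine HasDerivAt.congr_of_eventuallyEq ?_ hev
    have d1 : HasDerivAt (fun z : ℂ => (1 - p * z) * (z - p))
        ((0 - p * 1) * (z - p) + (1 - p * z) * 1) z :=
      ((hasDerivAt_const z (1 : ℂ)).sub ((hasDerivAt_id z).const_mul (p : ℂ))).mul
        ((hasDerivAt_id z).sub_const (p : ℂ))
    have d2 : HasDerivAt (fun z => w₀ * p * H z) (w₀ * p * (k z * H z)) z :=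
      (hHd z hz).const_mul _
    have d3 := (d2.div d1 (mul_ne_zero h1 h2)).const_add w₀
    refine d3.congr_deriv ?_
    field_simp
    ring
  refine ⟨f, P, ⟨g, hgd, ?_, fun z _ _ => rfl⟩, ?_, ?_, ?_, ?_, ?_, ?_, ?_⟩
  · -- g p ≠ 0
    have h1 := h1pz p hpmem
    have h2 := hHne p
    have : g p = w₀ * (p * H p / (1 - p * p)) := by simp [hg]
    rw [this]
    exact mul_ne_zero hw (div_ne_zero (mul_ne_zero hpc h2) h1)
  · rw [hfw 0 h0mem (Ne.symm hpc), hH0]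
    field_simp
    ring
  · rw [(hfd 0 h0mem (Ne.symm hpc)).deriv, hH0]
    have hk0 : k 0 = -2 * m := by simp [hk, hD, hA]
    rw [hk0]
    have e : (-2 : ℂ) * m = -(p + 1 / p + 1 / w₀) := by rw [← hmw]; ring
    rw [e]
    field_simp
    ring
  · intro z hz
    have h2 := hDd z hz
    have h3 := hAd z hz
    exact DifferentiableWithinAt.div (h2.add h3) (h2.sub h3) (hne z hz)
  · simp [hP, hD, hA]
  · intro z hz
    exact S4_re (hAD z hz)
  · intro z hz hzp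
    have h1 := h1pz z hz
    have h2 : z - p ≠ 0 := sub_ne_zero.mpr hzp
    have h3 := hHne z
    have h4 := hne z hz
    have hsub : f z - w₀ = w₀ * p * H z / ((1 - p * z) * (z - p)) := by
      rw [hfw z hz hzp]; ring
    have hne2 : f z - w₀ ≠ 0 := by
      rw [hsub]
      exact div_ne_zero (mul_ne_zero (mul_ne_zero hw hpc) h3) (mul_ne_zero h1 h2)
    refine ⟨fun h => hne2 (by rw [h, sub_self]), ?_⟩
    rw [(hfd z hz hzp).deriv, ← hsub]
    have e1 : -(z * ((f z - w₀) * (k z + p / (1 - p * z) - 1 / (z - p)))) / (f z - w₀) =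
        -(z * (k z + p / (1 - p * z) - 1 / (z - p))) := by
      field_simp
    rw [e1]
    have e2 : P z = 1 - z * k z := by
      simp only [hP, hk]
      rw [eq_sub_iff_add_eq, ← mul_div_assoc, ← add_div, div_eq_iff h4]
      simp only [hA]
      ring
    rw [e2]
    field_simp
    ring
  · intro z hz
    have h4 := hne z hz
    have e : 1 - m * z + (conj m * z - z ^ 2) * v z = D z - A z := by
      simp only [hD, hA]; ring
    rw [e]
    simp only [hP]
    rw [sub_mul, div_mul_cancel₀ _ h4]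
    simp only [hD, hA]
    ring

end Pool.Agent.MP_8daf13

end

section

/-! The link between the class and coefficient sequences of Schur functions. -/

open Complex Metric Filter Topology
open scoped ComplexConjugate

namespace Pool.Agent.MP_8daf13

lemma Rec.unique {m : ℂ} {v h g : ℕ → ℂ} (H : Rec m v h) (G : Rec m v g) : ∀ k, h k = g k := by
  intro k
  induction k using Nat.strong_induction_on with
  | _ k ih =>
    rcases k with _ | k
    · rw [H.1, G.1]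
    · have h1 := H.2 k
      have h2 := G.2 k
      have e : ((k : ℂ) + 1) * h (k + 1) = ((k : ℂ) + 1) * g (k + 1) := by
        rw [h1, h2, ih k (by omega)]
        congr 1
        refine Finset.sum_congr rfl fun j hj => ?_
        have := Finset.mem_range.mp hj
        rw [ih (j + 1) (by omega), ih j (by omega)]
      have : ((k : ℂ) + 1) ≠ 0 := by exact_mod_cast Nat.succ_ne_zero k
      exact mul_left_cancel₀ this e

/-- forward direction -/
lemma forward {p : ℝ} (hp : 0 < p) (hp1 : p < 1) {w₀ : ℂ} (hw : w₀ ≠ 0) {f : ℂ → ℂ}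
    (hf : SigmaStar p w₀ f) :
    ‖((p : ℂ) + 1 / p + 1 / w₀) / 2‖ ≤ 1 ∧ ∃ v : ℂ → ℂ, DifferentiableOn ℂ v (ball 0 1) ∧
      (∀ z ∈ ball (0 : ℂ) 1, ‖v z‖ ≤ 1) ∧ ∃ h : ℕ → ℂ,
      Rec (((p : ℂ) + 1 / p + 1 / w₀) / 2) (tc v) h ∧
      ∀ n, 1 ≤ n → tc f n = - w₀ * ∑ k ∈ Finset.range (n + 1), (sC p (n - k) : ℂ) * h k := by
  obtain ⟨P, hPd, hP0, hPre, hP⟩ := hf.starlike
  obtain ⟨w, hwd, hwb, hPw⟩ := exists_w hPd hP0 hPre
  obtain ⟨v, hvd, hvb, hwv⟩ := exists_v hwd hwb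
  have hPv : ∀ z ∈ ball (0 : ℂ) 1, (P z - 1) * (1 - w 0 * z + (conj (w 0) * z - z ^ 2) * v z)
        = 2 * z * (w 0 + z * v z) := by
    intro z hz
    have a := hPw z hz
    have b := hwv z hz
    have e1 : (1 - z * w z) * (1 + conj (w 0) * z * v z)
        = 1 - w 0 * z + (conj (w 0) * z - z ^ 2) * v z := by
      linear_combination -z * b
    have e2 : (P z - 1) * (1 - z * w z) = 2 * z * w z := by linear_combination a
    rw [← e1, ← mul_assoc, e2]
    linear_combination 2 * z * b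
  obtain ⟨hm, h, hrec, hco⟩ := coef_rec hp hp1 hw hf.pole hf.zero hf.deriv_one hP hvd hPv
  have hm' : ((p : ℂ) + 1 / p + 1 / w₀) / 2 = w 0 := by rw [← hm]; ring
  rw [hm']
  exact ⟨hwb 0 (mem_ball_self one_pos), v, hvd, hvb, h, hrec, hco⟩

/-- coefficient inequalities for the Schur function -/
lemma schur_ineq {v : ℂ → ℂ} (hvd : DifferentiableOn ℂ v (ball 0 1))
    (hvb : ∀ z ∈ ball (0 : ℂ) 1, ‖v z‖ ≤ 1) :
    ‖tc v 0‖ ≤ 1 ∧ ∀ l, ‖tc v (l + 1)‖ ≤ 1 - ‖tc v 0‖ ^ 2 := by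
  refine ⟨?_, fun l => schur_coeff hvd hvb (l + 1) (by omega)⟩
  rw [tc_zero]
  exact hvb 0 (mem_ball_self one_pos)

/-- backward direction -/
lemma backward {p : ℝ} (hp : 0 < p) (hp1 : p < 1) {w₀ : ℂ} (hw : w₀ ≠ 0)
    (hm : ‖((p : ℂ) + 1 / p + 1 / w₀) / 2‖ ≤ 1) {v : ℂ → ℂ}
    (hvd : DifferentiableOn ℂ v (ball 0 1)) (hvb : ∀ z ∈ ball (0 : ℂ) 1, ‖v z‖ ≤ 1) {h : ℕ → ℂ}
    (H : Rec (((p : ℂ) + 1 / p + 1 / w₀) / 2) (tc v) h) :
    ∃ f : ℂ → ℂ, SigmaStar p w₀ f ∧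
      ∀ n, 1 ≤ n → tc f n = - w₀ * ∑ k ∈ Finset.range (n + 1), (sC p (n - k) : ℂ) * h k := by
  obtain ⟨f, P, h1, h2, h3, h4, h5, h6, h7, h8⟩ := exists_f hp hp1 hm hw (by ring) hvd hvb
  obtain ⟨-, g, hrec, hco⟩ := coef_rec hp hp1 hw h1 h2 h3 h7 hvd h8
  refine ⟨f, ⟨h1, h2, h3, P, h4, h5, h6, h7⟩, fun n hn => ?_⟩
  rw [hco n hn]
  congr 1
  refine Finset.sum_congr rfl fun k _ => ?_
  rw [H.unique hrec k]

lemma tc_const_eq (ζ : ℂ) : tc (fun _ => ζ) = cst ζ := by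
  ext n
  rw [tc_const]
  rfl

/-- if a Schur function has a unimodular value at the origin it is constant to all orders -/
lemma tc_of_unimodular {v : ℂ → ℂ} (hvd : DifferentiableOn ℂ v (ball 0 1))
    (hvb : ∀ z ∈ ball (0 : ℂ) 1, ‖v z‖ ≤ 1) (h1 : ‖tc v 0‖ = 1) : tc v = cst (tc v 0) := by
  ext n
  rcases n with _ | n
  · rw [cst_zero]
  · have := (schur_ineq hvd hvb).2 n
    rw [h1] at this
    rw [cst_succ]
    have h2 : ‖tc v (n + 1)‖ ≤ 0 := by linarith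
    exact norm_le_zero_iff.mp h2

end Pool.Agent.MP_8daf13

end

section

open Complex Metric Filter Topology
open scoped ComplexConjugate

namespace Pool.Agent.MP_8daf13

lemma cst_one (ζ : ℂ) : cst ζ 1 = 0 := cst_succ ζ 0

lemma cst_hv {ζ : ℂ} (hζ : ‖ζ‖ ≤ 1) : ∀ l, ‖cst ζ (l + 1)‖ ≤ 1 - ‖cst ζ 0‖ ^ 2 := by
  intro l
  rw [cst_succ, cst_zero]
  simp only [norm_zero]
  nlinarith [norm_nonneg ζ]

lemma lip_bound {m : ℂ} (hm : ‖m‖ ≤ 1) {ζ ξ : ℂ} (hζ : ‖ζ‖ ≤ 1) (hξ : ‖ξ‖ ≤ 1) {h g : ℕ → ℂ}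
    (H : Rec m (cst ζ) h) (G : Rec m (cst ξ) g) :
    ‖h 3 - g 3‖ ≤ 2 * ((1 - ‖m‖ ^ 2) * ‖ζ - ξ‖) ∧
    ‖h 4 - g 4‖ ≤ 3 * ((1 - ‖m‖ ^ 2) * ‖ζ - ξ‖) ∧
    ∀ k, ‖h (k + 5) - g (k + 5)‖ ≤ 34 / 3 * 3 ^ k * ((1 - ‖m‖ ^ 2) * ‖ζ - ξ‖) := by
  have hv0 : ‖cst ζ 0‖ ≤ 1 := by rw [cst_zero]; exact hζ
  have hw0 : ‖cst ξ 0‖ ≤ 1 := by rw [cst_zero]; exact hξ
  have n3 := H.n3 hm hv0 (cst_hv hζ)
  have g3 := G.n3 hm hw0 (cst_hv hξ)
  have bnd := H.bound hm hv0 (cst_hv hζ)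
  have hρ : 0 ≤ 1 - ‖m‖ ^ 2 := by nlinarith [norm_nonneg m]
  set ρ := 1 - ‖m‖ ^ 2 with hρd
  set ε := ‖ζ - ξ‖ with hεd
  have hε : 0 ≤ ε := norm_nonneg _
  have hρε : 0 ≤ ρ * ε := mul_nonneg hρ hε
  have n4 : ‖h 4‖ ≤ 17 / 6 * ρ := by
    have := (bnd 0).1
    simp only [zero_add, aC] at this
    linarith
  have n5 : ∀ k, ‖h (k + 5)‖ ≤ 17 / 3 * 3 ^ k * ρ := by
    intro k
    have h1 := (bnd (k + 1)).1
    have e : k + 1 + 4 = k + 5 := by ring
    rw [e] at h1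
    have h2 := aC_le k
    nlinarith
  set d : ℕ → ℂ := fun k => h k - g k with hd
  have step : ∀ K : ℕ, 1 ≤ K → ((K : ℝ) + 2) * ‖d (K + 2)‖ ≤ ((K : ℝ) - 1) * ‖d (K + 1)‖
      + ε * ‖XX m h K‖ + ‖XX m d K‖ := by
    intro K hK
    have hK' : (1 : ℝ) ≤ K := by exact_mod_cast hK
    have e1 := rec_cst_succ H K
    have e2 := rec_cst_succ G K
    have e3 : ((K : ℂ) + 2) * d (K + 2) = ((K : ℂ) - 1) * m * d (K + 1)
        - (ζ - ξ) * XX m h K - ξ * XX m d K := by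
      rw [hd, ← XX_sub]
      simp only
      linear_combination e1 - e2
    have h2 : ‖((K : ℂ) + 2) * d (K + 2)‖ = ((K : ℝ) + 2) * ‖d (K + 2)‖ := by
      rw [norm_mul, show ((K : ℂ) + 2) = (((K : ℝ) + 2 : ℝ) : ℂ) by push_cast; ring,
        Complex.norm_real, Real.norm_of_nonneg (by positivity)]
    rw [← h2, e3]
    have q1 : ‖((K : ℂ) - 1) * m * d (K + 1)‖ ≤ ((K : ℝ) - 1) * ‖d (K + 1)‖ := by
      rw [norm_mul, norm_mul, show ((K : ℂ) - 1) = (((K : ℝ) - 1 : ℝ) : ℂ) by push_cast; ring,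
        Complex.norm_real, Real.norm_of_nonneg (by linarith)]
      have h0 : 0 ≤ ((K : ℝ) - 1) * ‖d (K + 1)‖ := mul_nonneg (by linarith) (norm_nonneg _)
      nlinarith
    have q2 : ‖(ζ - ξ) * XX m h K‖ = ε * ‖XX m h K‖ := by rw [norm_mul]
    have q3 : ‖ξ * XX m d K‖ ≤ ‖XX m d K‖ := by
      rw [norm_mul]
      nlinarith [norm_nonneg (XX m d K)]
    have r1 := norm_sub_le (((K : ℂ) - 1) * m * d (K + 1) - (ζ - ξ) * XX m h K) (ξ * XX m d K)
    have r2 := norm_sub_le (((K : ℂ) - 1) * m * d (K + 1)) ((ζ - ξ) * XX m h K)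
    linarith
  have d3 : ‖d 3‖ ≤ 2 * (ρ * ε) := by
    have e : d 3 = 2 / 3 * ((ρ : ℝ) : ℂ) * ((ζ - ξ) * (m + conj m * (ζ + ξ))) := by
      simp only [hd]
      rw [H.h3, G.h3, cst_zero, cst_zero, cst_one, cst_one]; ring
    rw [e, norm_mul, norm_mul, norm_mul]
    have hn := norm_rho hm
    rw [← hρd] at hn
    rw [hn]
    have : ‖(2 / 3 : ℂ)‖ = 2 / 3 := by norm_num
    rw [this]
    have h3 : ‖m + conj m * (ζ + ξ)‖ ≤ 3 := by
      have a := norm_add_le m (conj m * (ζ + ξ))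
      have b := norm_add_le ζ ξ
      rw [norm_mul, Complex.norm_conj] at a
      nlinarith [norm_nonneg m, norm_nonneg (ζ + ξ)]
    have h4 : ρ * (ε * ‖m + conj m * (ζ + ξ)‖) ≤ ρ * (ε * 3) :=
      mul_le_mul_of_nonneg_left (mul_le_mul_of_nonneg_left h3 hε) hρ
    rw [← hεd]
    nlinarith
  have d4 : ‖d 4‖ ≤ 3 * (ρ * ε) := by
    have s := step 2 (by norm_num)
    have y := norm_XX_le hm d 2 le_rfl
    have z := norm_XX_le hm h 2 le_rfl
    norm_num at s y z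
    have t1 : ε * ‖XX m h 2‖ ≤ ε * (4 * ρ) := mul_le_mul_of_nonneg_left (by linarith) hε
    nlinarith
  have d5 : ‖d 5‖ ≤ 34 / 3 * (ρ * ε) := by
    have s := step 3 (by norm_num)
    have y := norm_XX_le hm d 3 (by norm_num)
    have z := norm_XX_le hm h 3 (by norm_num)
    norm_num at s y z
    have t1 : ε * ‖XX m h 3‖ ≤ ε * (38 / 3 * ρ) := mul_le_mul_of_nonneg_left (by linarith) hε
    nlinarith
  have d6 : ‖d 6‖ ≤ 34 * (ρ * ε) := by
    have s := step 4 (by norm_num)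
    have y := norm_XX_le hm d 4 (by norm_num)
    have z := norm_XX_le hm h 4 (by norm_num)
    have n5' := n5 0
    norm_num at s y z n5'
    have t1 : ε * ‖XX m h 4‖ ≤ ε * (34 * ρ) := mul_le_mul_of_nonneg_left (by linarith) hε
    nlinarith
  refine ⟨d3, d4, ?_⟩
  have key : ∀ k, ‖d (k + 5)‖ ≤ 34 / 3 * 3 ^ k * (ρ * ε) ∧
      ‖d (k + 6)‖ ≤ 34 / 3 * 3 ^ (k + 1) * (ρ * ε) := by
    intro k
    induction k with
    | zero =>
      constructor
      · simp only [zero_add, pow_zero, mul_one]; exact d5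
      · simp only [zero_add, pow_one]; linarith
    | succ k ih =>
      obtain ⟨i1, i2⟩ := ih
      have e0 : k + 1 + 5 = k + 6 := by ring
      rw [e0]
      refine ⟨i2, ?_⟩
      have e1 : k + 1 + 6 = k + 7 := by ring
      rw [e1]
      have s := step (k + 5) (by omega)
      have y := norm_XX_le hm d (k + 5) (by omega)
      have z := norm_XX_le hm h (k + 5) (by omega)
      have b1 := n5 k
      have b2 := n5 (k + 1)
      push_cast at s y z
      have f1 : k + 5 + 2 = k + 7 := by ring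
      have f2 : k + 5 + 1 = k + 6 := by ring
      rw [f1, f2] at s
      rw [f2] at y z
      rw [e0] at b2
      have hk0 : (0 : ℝ) ≤ k := Nat.cast_nonneg k
      have hpos : (0 : ℝ) < (k : ℝ) + 5 + 2 := by positivity
      refine le_of_mul_le_mul_left ?_ hpos
      have h3 : (0 : ℝ) ≤ 3 ^ k := by positivity
      rw [pow_succ] at i2 b2
      rw [pow_succ, pow_succ]
      set T : ℝ := 3 ^ k with hT
      have hTρε : 0 ≤ T * (ρ * ε) := mul_nonneg h3 hρε
      have t1 : ((k : ℝ) + 5 - 1) * ‖d (k + 6)‖ ≤ ((k : ℝ) + 5 - 1) * (34 / 3 * (T * 3) * (ρ * ε)) :=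
        mul_le_mul_of_nonneg_left i2 (by linarith)
      have t2 : ((k : ℝ) + 5 + 1) * ‖d (k + 6)‖ ≤ ((k : ℝ) + 5 + 1) * (34 / 3 * (T * 3) * (ρ * ε)) :=
        mul_le_mul_of_nonneg_left i2 (by linarith)
      have t3 : ((k : ℝ) + 5 - 2) * ‖d (k + 5)‖ ≤ ((k : ℝ) + 5 - 2) * (34 / 3 * T * (ρ * ε)) :=
        mul_le_mul_of_nonneg_left i1 (by linarith)
      have t4 : ((k : ℝ) + 5 + 1) * ‖h (k + 6)‖ ≤ ((k : ℝ) + 5 + 1) * (17 / 3 * (T * 3) * ρ) :=
        mul_le_mul_of_nonneg_left b2 (by linarith)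
      have t5 : ((k : ℝ) + 5 - 2) * ‖h (k + 5)‖ ≤ ((k : ℝ) + 5 - 2) * (17 / 3 * T * ρ) :=
        mul_le_mul_of_nonneg_left b1 (by linarith)
      have t6 : ε * ‖XX m h (k + 5)‖ ≤ ε * (((k : ℝ) + 5 + 1) * (17 / 3 * (T * 3) * ρ)
          + ((k : ℝ) + 5 - 2) * (17 / 3 * T * ρ)) := mul_le_mul_of_nonneg_left (by linarith) hε
      have t7 : 0 ≤ (k : ℝ) * (T * (ρ * ε)) := mul_nonneg hk0 hTρε
      nlinarith
  exact fun k => (key k).1

/-- summation against the weights -/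
lemma sum_bound {α β γ : ℝ} (hα : 0 ≤ α) (hβ : 0 ≤ β) (hγ : 0 ≤ γ) {n : ℕ} {c : ℕ → ℝ}
    (hc2 : 0 ≤ c 2) (hc : ∀ k, 2 ≤ k → k ≤ n → 0 ≤ c k ∧ c k ≤ (1 / 6) ^ (k - 2) * c 2)
    {u : ℕ → ℂ} (h0 : u 0 = 0) (h1 : u 1 = 0) (h2 : u 2 = 0) (h3 : ‖u 3‖ ≤ α) (h4 : ‖u 4‖ ≤ β)
    (h5 : ∀ k, ‖u (k + 5)‖ ≤ γ * 3 ^ k) :
    ‖∑ k ∈ Finset.range (n + 1), (c k : ℂ) * u k‖ ≤ c 2 * (α / 6 + β / 36 + γ / 108) := by
  set U : ℕ → ℝ := fun k => if k ≤ 2 then 0 else if k = 3 then α else if k = 4 then β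
    else γ * 3 ^ (k - 5) with hU
  have hU0 : ∀ k, 0 ≤ U k := by
    intro k; simp only [hU]; split_ifs <;> positivity
  have huU : ∀ k, ‖u k‖ ≤ U k := by
    intro k
    rcases k with _ | _ | _ | _ | _ | k
    · simp [hU, h0]
    · simp [hU, h1]
    · simp [hU, h2]
    · simpa [hU] using h3
    · simpa [hU] using h4
    · simpa [hU] using h5 k
  have step1 : ‖∑ k ∈ Finset.range (n + 1), (c k : ℂ) * u k‖
      ≤ ∑ k ∈ Finset.range (n + 1), c 2 * ((1 / 6) ^ (k - 2) * U k) := by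
    refine (norm_sum_le _ _).trans (Finset.sum_le_sum fun k hk => ?_)
    have hk' : k ≤ n := Nat.lt_succ_iff.mp (Finset.mem_range.mp hk)
    rw [norm_mul, Complex.norm_real]
    by_cases hk2 : 2 ≤ k
    · obtain ⟨c0, c1⟩ := hc k hk2 hk'
      rw [Real.norm_of_nonneg c0]
      calc c k * ‖u k‖ ≤ c k * U k := mul_le_mul_of_nonneg_left (huU k) c0
        _ ≤ ((1 / 6) ^ (k - 2) * c 2) * U k := mul_le_mul_of_nonneg_right c1 (hU0 k)
        _ = c 2 * ((1 / 6) ^ (k - 2) * U k) := by ring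
    · have : u k = 0 := by
        have : k = 0 ∨ k = 1 := by omega
        rcases this with rfl | rfl
        · exact h0
        · exact h1
      rw [this]
      simp only [norm_zero, mul_zero]
      exact mul_nonneg hc2 (mul_nonneg (by positivity) (hU0 k))
  refine step1.trans ?_
  rw [← Finset.mul_sum]
  refine mul_le_mul_of_nonneg_left ?_ hc2
  have step2 : ∑ k ∈ Finset.range (n + 1), (1 / 6 : ℝ) ^ (k - 2) * U k
      ≤ ∑ k ∈ Finset.range (5 + (n + 1)), (1 / 6 : ℝ) ^ (k - 2) * U k := by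
    refine Finset.sum_le_sum_of_subset_of_nonneg ?_ fun k _ _ => mul_nonneg (by positivity) (hU0 k)
    exact Finset.range_subset_range.mpr (by omega)
  refine step2.trans ?_
  rw [Finset.sum_range_add]
  have e1 : ∑ x ∈ Finset.range 5, (1 / 6 : ℝ) ^ (x - 2) * U x = α / 6 + β / 36 := by
    simp only [Finset.sum_range_succ, Finset.sum_range_zero, hU]
    norm_num
    ring
  have e2 : ∀ N : ℕ, ∑ x ∈ Finset.range N, (1 / 6 : ℝ) ^ (5 + x - 2) * U (5 + x)
      = γ / 108 * (1 - (1 / 2) ^ N) := by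
    intro N
    induction N with
    | zero => simp
    | succ N ih =>
      rw [Finset.sum_range_succ, ih]
      have a1 : 5 + N - 2 = N + 3 := by omega
      have a2 : U (5 + N) = γ * 3 ^ N := by
        simp only [hU]
        have : ¬ (5 + N ≤ 2) := by omega
        have : 5 + N - 5 = N := by omega
        rw [if_neg (by omega), if_neg (by omega), if_neg (by omega), this]
      rw [a1, a2]
      have a3 : (1 / 6 : ℝ) ^ (N + 3) * (γ * 3 ^ N) = γ / 216 * (1 / 2) ^ N := by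
        rw [pow_add, show (1 / 2 : ℝ) = 1 / 6 * 3 by norm_num, mul_pow]
        ring
      rw [a3, pow_succ]
      ring
  rw [e1, e2]
  have : 0 ≤ γ / 108 * (1 / 2) ^ (n + 1) := by positivity
  linarith

/-- a contraction principle -/
lemma exists_fix {Φ : ℂ → ℂ} {β : ℝ} (hβ0 : 0 ≤ β) (hβ : β < 1) {c : ℂ} {R : ℝ} (hR : 0 ≤ R)
    (hL : ∀ z ∈ closedBall c R, ∀ w ∈ closedBall c R, ‖Φ z - Φ w‖ ≤ β * ‖z - w‖)
    (hc : ‖Φ c - c‖ ≤ (1 - β) * R) : ∃ z ∈ closedBall c R, Φ z = z := by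
  have hcont : ContinuousOn Φ (closedBall c R) := by
    have : LipschitzOnWith (Real.toNNReal β) Φ (closedBall c R) := by
      refine LipschitzOnWith.of_dist_le_mul fun z hz w hw => ?_
      rw [dist_eq_norm, dist_eq_norm, Real.coe_toNNReal _ hβ0]
      exact hL z hz w hw
    exact this.continuousOn
  obtain ⟨z, hz, hmin⟩ := (isCompact_closedBall c R).exists_isMinOn
    ⟨c, mem_closedBall_self hR⟩ ((hcont.sub continuousOn_id).norm)
  have hcc : c ∈ closedBall c R := mem_closedBall_self hR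
  have hΦz : Φ z ∈ closedBall c R := by
    rw [mem_closedBall, dist_eq_norm] at hz ⊢
    have h1 := hL z (by rwa [mem_closedBall, dist_eq_norm]) c hcc
    have h2 : ‖Φ z - c‖ ≤ ‖Φ z - Φ c‖ + ‖Φ c - c‖ := norm_sub_le_norm_sub_add_norm_sub _ _ _
    nlinarith
  have h1 := hmin hΦz
  simp only [Pi.sub_apply, id] at h1
  have h2 := hL (Φ z) hΦz z hz
  refine ⟨z, hz, ?_⟩
  have h3 : ‖Φ z - z‖ ≤ β * ‖Φ z - z‖ := le_trans h1 h2
  have h4 : ‖Φ z - z‖ = 0 := by nlinarith [norm_nonneg (Φ z - z)]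
  exact sub_eq_zero.mp (norm_eq_zero.mp h4)

lemma sC_pos {p : ℝ} (hp : 0 < p) (j : ℕ) : 0 < sC p j := by
  unfold sC
  apply Finset.sum_pos
  · intro i _; positivity
  · exact ⟨0, by simp⟩

lemma sC_le_succ {p : ℝ} (hp : 0 < p) (j : ℕ) : sC p j ≤ p * sC p (j + 1) := by
  unfold sC
  rw [Finset.sum_range_succ _ (j + 1), mul_add, Finset.mul_sum]
  have h1 : ∑ i ∈ Finset.range (j + 1), p ^ i / p ^ (j - i)
      = ∑ i ∈ Finset.range (j + 1), p * (p ^ i / p ^ (j + 1 - i)) := by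
    refine Finset.sum_congr rfl fun i hi => ?_
    have : j + 1 - i = (j - i) + 1 := by have := Finset.mem_range.mp hi; omega
    rw [this, pow_succ]
    field_simp
  rw [h1]
  have : 0 ≤ p * (p ^ (j + 1) / p ^ (j + 1 - (j + 1))) := by positivity
  linarith

lemma sC_weights {p : ℝ} (hp : 0 < p) (hp6 : p ≤ 1 / 6) {n : ℕ} :
    ∀ k, 2 ≤ k → k ≤ n → 0 ≤ sC p (n - k) ∧ sC p (n - k) ≤ (1 / 6) ^ (k - 2) * sC p (n - 2) := by
  intro k hk
  induction k, hk using Nat.le_induction with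
  | base => intro _; exact ⟨(sC_pos hp _).le, by simp⟩
  | succ k hk ih =>
    intro hkn
    refine ⟨(sC_pos hp _).le, ?_⟩
    obtain ⟨-, h2⟩ := ih (by omega)
    have e : n - k = n - (k + 1) + 1 := by omega
    have h3 := sC_le_succ hp (n - (k + 1))
    rw [← e] at h3
    have e2 : k + 1 - 2 = (k - 2) + 1 := by omega
    rw [e2, pow_succ]
    have h4 := sC_pos hp (n - k)
    nlinarith

/-- the value of the n-th coefficient functional on the constants -/
noncomputable def Pn (n : ℕ) (p : ℝ) (m ζ : ℂ) : ℂ :=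
  ∑ k ∈ Finset.range (n + 1), (sC p (n - k) : ℂ) * hcoef m ζ k

lemma Pn_lip {p : ℝ} (hp : 0 < p) (hp6 : p ≤ 1 / 6) {m : ℂ} (hm : ‖m‖ ≤ 1) {n : ℕ} (hn : 2 ≤ n)
    {ζ ξ : ℂ} (hζ : ‖ζ‖ ≤ 1) (hξ : ‖ξ‖ ≤ 1) :
    ‖Pn n p m ζ - Pn n p m ξ + ((1 - ‖m‖ ^ 2 : ℝ) : ℂ) * (sC p (n - 2) : ℂ) * (ζ - ξ)‖
      ≤ 169 / 324 * ((1 - ‖m‖ ^ 2) * sC p (n - 2) * ‖ζ - ξ‖) := by
  have hρ : 0 ≤ 1 - ‖m‖ ^ 2 := by nlinarith [norm_nonneg m]
  obtain ⟨l3, l4, l5⟩ := lip_bound hm hζ hξ (rec_hcoef m ζ) (rec_hcoef m ξ)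
  set u : ℕ → ℂ := fun k => if k = 2 then 0 else hcoef m ζ k - hcoef m ξ k with hu
  have hH := rec_hcoef m ζ
  have hG := rec_hcoef m ξ
  have e : Pn n p m ζ - Pn n p m ξ + ((1 - ‖m‖ ^ 2 : ℝ) : ℂ) * (sC p (n - 2) : ℂ) * (ζ - ξ)
      = ∑ k ∈ Finset.range (n + 1), (sC p (n - k) : ℂ) * u k := by
    have h1 : ∑ k ∈ Finset.range (n + 1), (sC p (n - k) : ℂ) * (hcoef m ζ k - hcoef m ξ k)
        = ∑ k ∈ Finset.range (n + 1), (sC p (n - k) : ℂ) * u k
          + ∑ k ∈ Finset.range (n + 1), if k = 2 then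
            - (((1 - ‖m‖ ^ 2 : ℝ) : ℂ) * (sC p (n - 2) : ℂ) * (ζ - ξ)) else 0 := by
      rw [← Finset.sum_add_distrib]
      refine Finset.sum_congr rfl fun k _ => ?_
      by_cases hk : k = 2
      · subst hk
        simp only [hu, if_true]
        rw [hH.h2, hG.h2, cst_zero, cst_zero]; ring
      · simp only [hu, if_neg hk, add_zero]
    rw [Finset.sum_ite_eq' (Finset.range (n + 1)) 2, if_pos (Finset.mem_range.mpr (by omega))] at h1
    unfold Pn
    rw [← Finset.sum_sub_distrib]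
    simp only [← mul_sub]
    rw [h1]; ring
  rw [e]
  have hs := (sC_pos hp (n - 2)).le
  have sb := sum_bound (α := 2 * ((1 - ‖m‖ ^ 2) * ‖ζ - ξ‖)) (β := 3 * ((1 - ‖m‖ ^ 2) * ‖ζ - ξ‖))
    (γ := 34 / 3 * ((1 - ‖m‖ ^ 2) * ‖ζ - ξ‖)) (by positivity) (by positivity) (by positivity)
    (n := n) (c := fun k => sC p (n - k)) hs (sC_weights hp hp6) (u := u)
    (by simp [hu, hcoef]) (by simp [hu, hcoef]) (by simp [hu]) (by simpa [hu] using l3)
    (by simpa [hu] using l4) (by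
      intro k
      have := l5 k
      simp only [hu]
      rw [if_neg (by omega)]
      calc _ ≤ _ := this
        _ = _ := by ring)
  refine sb.trans (le_of_eq ?_)
  ring

/-- distance to the constant Schur function with the same value at the origin -/
lemma L_diff {p : ℝ} (hp : 0 < p) (hp6 : p ≤ 1 / 6) {m : ℂ} (hm : ‖m‖ ≤ 1) {n : ℕ}
    {v h : ℕ → ℂ} (hv0 : ‖v 0‖ ≤ 1) (hv : ∀ l, ‖v (l + 1)‖ ≤ 1 - ‖v 0‖ ^ 2)
    (H : Rec m v h) :
    ‖∑ k ∈ Finset.range (n + 1), (sC p (n - k) : ℂ) * h k - Pn n p m (v 0)‖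
      ≤ 145 / 648 * ((1 - ‖m‖ ^ 2) * sC p (n - 2) * (1 - ‖v 0‖ ^ 2)) := by
  have hρ : 0 ≤ 1 - ‖m‖ ^ 2 := by nlinarith [norm_nonneg m]
  have hσ : 0 ≤ 1 - ‖v 0‖ ^ 2 := by nlinarith [norm_nonneg (v 0)]
  have hs := sC_pos hp (n - 2)
  have hG := rec_hcoef m (v 0)
  obtain ⟨l3, l4, l5⟩ := diff_bound hm H hv0 hv hG
  have e : ∑ k ∈ Finset.range (n + 1), (sC p (n - k) : ℂ) * h k - Pn n p m (v 0)
      = ∑ k ∈ Finset.range (n + 1), (sC p (n - k) : ℂ) * (h k - hcoef m (v 0) k) := by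
    unfold Pn
    rw [← Finset.sum_sub_distrib]
    simp only [← mul_sub]
  rw [e]
  have sb := sum_bound (α := 2 / 3 * ((1 - ‖m‖ ^ 2) * (1 - ‖v 0‖ ^ 2)))
    (β := 13 / 6 * ((1 - ‖m‖ ^ 2) * (1 - ‖v 0‖ ^ 2)))
    (γ := 17 / 3 * ((1 - ‖m‖ ^ 2) * (1 - ‖v 0‖ ^ 2))) (by positivity) (by positivity)
    (by positivity) (n := n) (c := fun k => sC p (n - k)) hs.le (sC_weights hp hp6)
    (u := fun k => h k - hcoef m (v 0) k) (by simp [H.1, hG.1]) (by simp [H.h1, hG.h1])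
    (by simp [H.h2, hG.h2, cst_zero]) l3 l4 (by
      intro k
      have h1 := l5 k
      have h2 := aC_le k
      have h3 : aC (k + 5) * ((1 - ‖m‖ ^ 2) * (1 - ‖v 0‖ ^ 2))
        ≤ 17 / 3 * 3 ^ k * ((1 - ‖m‖ ^ 2) * (1 - ‖v 0‖ ^ 2)) :=
        mul_le_mul_of_nonneg_right h2 (mul_nonneg hρ hσ)
      calc _ ≤ _ := h1
        _ ≤ _ := h3
        _ = _ := by ring)
  refine sb.trans (le_of_eq ?_)
  ring

/-- the main theorem on sequences -/
theorem pure_main {p : ℝ} (hp : 0 < p) (hp6 : p ≤ 1 / 6) {m : ℂ} (hm : ‖m‖ ≤ 1) {n : ℕ}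
    (hn : 2 ≤ n) {v h : ℕ → ℂ} (hv0 : ‖v 0‖ ≤ 1) (hv : ∀ l, ‖v (l + 1)‖ ≤ 1 - ‖v 0‖ ^ 2)
    (H : Rec m v h) :
    ∃ ζ : ℂ, ‖ζ‖ ≤ 1 ∧ ∑ k ∈ Finset.range (n + 1), (sC p (n - k) : ℂ) * h k = Pn n p m ζ := by
  have hρ : 0 ≤ 1 - ‖m‖ ^ 2 := by nlinarith [norm_nonneg m]
  have hσ : 0 ≤ 1 - ‖v 0‖ ^ 2 := by nlinarith [norm_nonneg (v 0)]
  have hs := sC_pos hp (n - 2)
  have hdiff := L_diff hp hp6 hm (n := n) hv0 hv H
  set L : ℂ := ∑ k ∈ Finset.range (n + 1), (sC p (n - k) : ℂ) * h k with hL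
  by_cases hρ0 : 1 - ‖m‖ ^ 2 = 0
  · refine ⟨v 0, hv0, ?_⟩
    rw [hρ0] at hdiff
    have : ‖L - Pn n p m (v 0)‖ ≤ 0 := by simpa using hdiff
    exact sub_eq_zero.mp (norm_le_zero_iff.mp this)
  have hρ' : 0 < 1 - ‖m‖ ^ 2 := lt_of_le_of_ne hρ (Ne.symm hρ0)
  set A : ℝ := (1 - ‖m‖ ^ 2) * sC p (n - 2) with hA
  have hApos : 0 < A := mul_pos hρ' hs
  have hAc : ((1 - ‖m‖ ^ 2 : ℝ) : ℂ) * (sC p (n - 2) : ℂ) = (A : ℂ) := by rw [hA]; push_cast; ring
  have hA0 : (A : ℂ) ≠ 0 := by exact_mod_cast hApos.ne'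
  set Φ : ℂ → ℂ := fun ζ => ζ + (Pn n p m ζ - L) / A with hΦ
  set R : ℝ := 1 - ‖v 0‖ with hR
  have hR0 : 0 ≤ R := by linarith
  have hin : ∀ z ∈ closedBall (v 0) R, ‖z‖ ≤ 1 := by
    intro z hz
    rw [mem_closedBall, dist_eq_norm] at hz
    have := norm_le_norm_add_norm_sub (v 0) z
    have h2 : ‖z‖ ≤ ‖v 0‖ + ‖z - v 0‖ := by
      have := norm_add_le (v 0) (z - v 0)
      simpa using this
    linarith
  obtain ⟨ζ, hζ, hfix⟩ := exists_fix (Φ := Φ) (β := 169 / 324) (by norm_num) (by norm_num)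
    (c := v 0) (R := R) hR0 (by
      intro z hz w hw
      have h1 := Pn_lip hp hp6 hm hn (hin z hz) (hin w hw)
      rw [hAc] at h1
      have e : Φ z - Φ w = (Pn n p m z - Pn n p m w + (A : ℂ) * (z - w)) / A := by
        simp only [hΦ]; field_simp; ring
      rw [e, norm_div, Complex.norm_real, Real.norm_of_nonneg hApos.le, div_le_iff₀ hApos]
      calc _ ≤ _ := h1
        _ = _ := by rw [hA]; ring) (by
      have e : Φ (v 0) - v 0 = - (L - Pn n p m (v 0)) / A := by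
        simp only [hΦ]; field_simp; ring
      rw [e, norm_div, norm_neg, Complex.norm_real, Real.norm_of_nonneg hApos.le,
        div_le_iff₀ hApos]
      refine hdiff.trans ?_
      have h1 : 1 - ‖v 0‖ ^ 2 ≤ 2 * R := by rw [hR]; nlinarith [norm_nonneg (v 0)]
      have h2 : A * (1 - ‖v 0‖ ^ 2) ≤ A * (2 * R) := mul_le_mul_of_nonneg_left h1 hApos.le
      have h3 : 0 ≤ A * R := mul_nonneg hApos.le hR0
      nlinarith)
  refine ⟨ζ, hin ζ hζ, ?_⟩
  simp only [hΦ] at hfix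
  have h1 : (Pn n p m ζ - L) / A = 0 := by linear_combination hfix
  rw [div_eq_zero_iff] at h1
  rcases h1 with h1 | h1
  · exact (sub_eq_zero.mp h1).symm
  · exact absurd h1 hA0

/-- a unimodular value is attained only by the constant Schur function -/
theorem pure_unique {p : ℝ} (hp : 0 < p) (hp6 : p ≤ 1 / 6) {m : ℂ} (hm : ‖m‖ < 1) {n : ℕ}
    (hn : 2 ≤ n) {v h : ℕ → ℂ} (hv0 : ‖v 0‖ ≤ 1) (hv : ∀ l, ‖v (l + 1)‖ ≤ 1 - ‖v 0‖ ^ 2)
    (H : Rec m v h) {ζ : ℂ} (hζ : ‖ζ‖ = 1)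
    (he : ∑ k ∈ Finset.range (n + 1), (sC p (n - k) : ℂ) * h k = Pn n p m ζ) : v 0 = ζ := by
  have hρ : 0 < 1 - ‖m‖ ^ 2 := by nlinarith [norm_nonneg m]
  have hs := sC_pos hp (n - 2)
  have h1 := L_diff hp hp6 hm.le (n := n) hv0 hv H
  rw [he] at h1
  have h2 := Pn_lip hp hp6 hm.le hn hζ.le hv0
  set A : ℝ := (1 - ‖m‖ ^ 2) * sC p (n - 2) with hA
  have hApos : 0 < A := mul_pos hρ hs
  have hAc : ((1 - ‖m‖ ^ 2 : ℝ) : ℂ) * (sC p (n - 2) : ℂ) = (A : ℂ) := by rw [hA]; push_cast; ring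
  rw [hAc] at h2
  have h3 : ‖(A : ℂ) * (ζ - v 0)‖ ≤ ‖Pn n p m ζ - Pn n p m (v 0) + (A : ℂ) * (ζ - v 0)‖
      + ‖Pn n p m ζ - Pn n p m (v 0)‖ := by
    have := norm_sub_le (Pn n p m ζ - Pn n p m (v 0) + (A : ℂ) * (ζ - v 0))
      (Pn n p m ζ - Pn n p m (v 0))
    simpa using this
  rw [norm_mul, Complex.norm_real, Real.norm_of_nonneg hApos.le] at h3
  have h4 : 1 - ‖v 0‖ ≤ ‖ζ - v 0‖ := by
    have := norm_sub_norm_le ζ (v 0)
    rw [hζ] at this; exact this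
  have h5 : 1 - ‖v 0‖ ^ 2 ≤ 2 * ‖ζ - v 0‖ := by nlinarith [norm_nonneg (v 0)]
  have h6 : A * (1 - ‖v 0‖ ^ 2) ≤ A * (2 * ‖ζ - v 0‖) := mul_le_mul_of_nonneg_left h5 hApos.le
  have h7 : A * ‖ζ - v 0‖ ≤ 0 := by nlinarith
  have h8 : ‖ζ - v 0‖ = 0 := by
    rcases (norm_nonneg (ζ - v 0)).eq_or_lt with h | h
    · exact h.symm
    · exact absurd h7 (not_le.mpr (mul_pos hApos h))
  exact (sub_eq_zero.mp (norm_eq_zero.mp h8)).symm

/-- injectivity -/
theorem Pn_inj {p : ℝ} (hp : 0 < p) (hp6 : p ≤ 1 / 6) {m : ℂ} (hm : ‖m‖ < 1) {n : ℕ}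
    (hn : 2 ≤ n) : Set.InjOn (Pn n p m) (closedBall 0 1) := by
  intro ζ hζ ξ hξ he
  rw [mem_closedBall_zero_iff] at hζ hξ
  have hs := sC_pos hp (n - 2)
  have hρ' : 0 < 1 - ‖m‖ ^ 2 := by nlinarith [norm_nonneg m]
  have h1 := Pn_lip hp hp6 hm.le hn hζ hξ
  rw [he, sub_self, zero_add, norm_mul, norm_mul, norm_rho hm.le, Complex.norm_real,
    Real.norm_of_nonneg hs.le] at h1
  have hA : 0 < (1 - ‖m‖ ^ 2) * sC p (n - 2) := mul_pos hρ' hs
  have h2 : ‖ζ - ξ‖ = 0 := by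
    have h0 := norm_nonneg (ζ - ξ)
    have h3 : (1 - ‖m‖ ^ 2) * sC p (n - 2) * ‖ζ - ξ‖ ≤ 0 := by linarith
    rcases h0.eq_or_lt with h4 | h4
    · exact h4.symm
    · exact absurd h3 (not_le.mpr (mul_pos hA h4))
  exact sub_eq_zero.mp (norm_eq_zero.mp h2)

end Pool.Agent.MP_8daf13

end
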