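import Pool.Agent.Work.MP_8daf13_an.Defs
import Pool.Agent.Work.MP_8daf13_an.Bd.B01

/-! Bundle of small proof modules (one section per former module). -/

section

/-! Definitions for the large index theorem of MP_8daf13_an:
for every p in (0,1) and all n at least n0(p). -/

open Complex Metric Filter Topology
open scoped ComplexConjugate

namespace Pool.Agent.MP_8daf13

/-- Schur functions -/
def Schur (v : ℂ → ℂ) : Prop :=
  DifferentiableOn ℂ v (ball 0 1) ∧ ∀ z ∈ ball (0 : ℂ) 1, ‖v z‖ ≤ 1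

/-- the denominator D_v(z) = 1 - m z + (conj m z - z^2) v(z) -/
noncomputable def Dn (m : ℂ) (v : ℂ → ℂ) (z : ℂ) : ℂ := 1 - m * z + (conj m * z - z ^ 2) * v z

/-- F is the logarithm of the function H attached to v: F(0) = 0, F' = -2 (m + z v) / D_v -/
def IsLog (m : ℂ) (v F : ℂ → ℂ) : Prop :=
  F 0 = 0 ∧ ∀ z ∈ ball (0 : ℂ) 1, HasDerivAt F (-2 * (m + z * v z) / Dn m v z) z

/-- G(0) = 0, G' = z / D_v^2 -/
def IsG (m : ℂ) (v G : ℂ → ℂ) : Prop :=
  G 0 = 0 ∧ ∀ z ∈ ball (0 : ℂ) 1, HasDerivAt G (z / Dn m v z ^ 2) z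

/-- the functional which gives the n-th coefficient, normalised -/
noncomputable def Lam (n : ℕ) (p : ℝ) (F : ℂ → ℂ) : ℂ :=
  ∑ k ∈ Finset.range (n + 1), ((p ^ k - p ^ (2 * n + 2 - k) : ℝ) : ℂ) * tc F k

end Pool.Agent.MP_8daf13

end

section

/-! Item L1 of MP_8daf13_an: elementary bounds and primitives on the disc. -/

open Complex Metric Filter Topology
open scoped ComplexConjugate

namespace Pool.Agent.MP_8daf13.L1

/-- I1 -/
lemma Dn_lower {m : ℂ} (hm : ‖m‖ ≤ 1) {v : ℂ → ℂ} (hv : Schur v) {z : ℂ}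
    (hz : z ∈ ball (0 : ℂ) 1) : (1 - ‖z‖) ^ 2 ≤ ‖Dn m v z‖ ∧ ‖Dn m v z‖ ≤ 4 := by
  have hz1 : ‖z‖ < 1 := by simpa using hz
  have hv1 := hv.2 z hz
  have hzv : ‖z * v z‖ ≤ ‖z‖ := by
    rw [norm_mul]
    exact mul_le_of_le_one_right (norm_nonneg _) hv1
  have e : Dn m v z = (1 + conj m * (z * v z)) - z * (m + z * v z) := by
    unfold Dn
    ring
  have h1 := S4_norm_le hm (hzv.trans hz1.le)
  have h2 : 1 - ‖z‖ ≤ ‖1 + conj m * (z * v z)‖ := by
    have h3 : ‖conj m * (z * v z)‖ ≤ ‖z‖ := by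
      rw [norm_mul, norm_conj]
      exact (mul_le_of_le_one_left (norm_nonneg _) hm).trans hzv
    have h4 : ‖(1 : ℂ)‖ ≤ ‖1 + conj m * (z * v z)‖ + ‖conj m * (z * v z)‖ := by
      have := norm_sub_le (1 + conj m * (z * v z)) (conj m * (z * v z))
      simpa using this
    rw [norm_one] at h4
    linarith
  constructor
  · have h5 : ‖1 + conj m * (z * v z)‖ ≤ ‖Dn m v z‖ + ‖z * (m + z * v z)‖ := by
      have := norm_add_le (Dn m v z) (z * (m + z * v z))
      rwa [e, sub_add_cancel, ← e] at this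
    rw [norm_mul] at h5
    have h6 : ‖z‖ * ‖m + z * v z‖ ≤ ‖z‖ * ‖1 + conj m * (z * v z)‖ :=
      mul_le_mul_of_nonneg_left h1 (norm_nonneg _)
    have h7 : (1 - ‖z‖) * (1 - ‖z‖) ≤ (1 - ‖z‖) * ‖1 + conj m * (z * v z)‖ :=
      mul_le_mul_of_nonneg_left h2 (by linarith)
    nlinarith
  · unfold Dn
    have k1 : ‖m * z‖ ≤ 1 := by
      rw [norm_mul]
      nlinarith [norm_nonneg m, norm_nonneg z]
    have k2 : ‖conj m * z - z ^ 2‖ ≤ 2 := by
      refine (norm_sub_le _ _).trans ?_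
      rw [norm_mul, norm_conj, norm_pow]
      nlinarith [norm_nonneg m, norm_nonneg z]
    have k3 : ‖(conj m * z - z ^ 2) * v z‖ ≤ 2 := by
      rw [norm_mul]
      nlinarith [norm_nonneg (conj m * z - z ^ 2), norm_nonneg (v z)]
    calc ‖1 - m * z + (conj m * z - z ^ 2) * v z‖ ≤
        ‖(1 : ℂ)‖ + ‖m * z‖ + ‖(conj m * z - z ^ 2) * v z‖ :=
          (norm_add_le _ _).trans (add_le_add_left (norm_sub_le _ _) _)
      _ ≤ 4 := by
        rw [norm_one]
        linarith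

lemma Dn_ne {m : ℂ} (hm : ‖m‖ ≤ 1) {v : ℂ → ℂ} (hv : Schur v) {z : ℂ}
    (hz : z ∈ ball (0 : ℂ) 1) : Dn m v z ≠ 0 := by
  have hz1 : ‖z‖ < 1 := by simpa using hz
  have h := (Dn_lower hm hv hz).1
  intro h0
  rw [h0, norm_zero] at h
  nlinarith

lemma Dn_diff {m : ℂ} {v : ℂ → ℂ} (hv : Schur v) : DifferentiableOn ℂ (Dn m v) (ball 0 1) := by
  have h := hv.1
  unfold Dn
  fun_prop

/-- I2 -/
lemma exists_log {m : ℂ} (hm : ‖m‖ ≤ 1) {v : ℂ → ℂ} (hv : Schur v) : ∃ F, IsLog m v F := by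
  have h : DifferentiableOn ℂ (fun z => -2 * (m + z * v z) / Dn m v z) (ball 0 1) := by
    refine DifferentiableOn.div ?_ (Dn_diff hv) fun z hz => Dn_ne hm hv hz
    have h := hv.1
    fun_prop
  exact h.isExactOn_ball.with_val_at 0 0

/-- I2 -/
lemma exists_G {m : ℂ} (hm : ‖m‖ ≤ 1) {v : ℂ → ℂ} (hv : Schur v) : ∃ G, IsG m v G := by
  have h : DifferentiableOn ℂ (fun z => z / Dn m v z ^ 2) (ball 0 1) := by
    refine DifferentiableOn.div differentiableOn_id ((Dn_diff hv).pow 2) fun z hz => ?_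
    exact pow_ne_zero 2 (Dn_ne hm hv hz)
  exact h.isExactOn_ball.with_val_at 0 0

/-- mean value inequality from the origin -/
lemma mvt {f g : ℂ → ℂ} (h0 : f 0 = 0) (hf : ∀ z ∈ ball (0 : ℂ) 1, HasDerivAt f (g z) z) {r C : ℝ}
    (hr : r < 1) (hC : 0 ≤ C) (hb : ∀ z : ℂ, ‖z‖ ≤ r → ‖g z‖ ≤ C) {z : ℂ} (hz : ‖z‖ ≤ r) :
    ‖f z‖ ≤ C := by
  have hr0 : 0 ≤ r := (norm_nonneg z).trans hz
  have h := Convex.norm_image_sub_le_of_norm_hasDerivWithin_le (f := f) (f' := g) (C := C)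
    (s := closedBall (0 : ℂ) r) (x := 0) (y := z)
    (fun x hx => (hf x (mem_ball_zero_iff.2 ((mem_closedBall_zero_iff.1 hx).trans_lt
      hr))).hasDerivWithinAt)
    (fun x hx => hb x (mem_closedBall_zero_iff.1 hx)) (convex_closedBall _ _)
    (mem_closedBall_zero_iff.2 (by simpa using hr0)) (mem_closedBall_zero_iff.2 hz)
  rw [h0, sub_zero, sub_zero] at h
  refine h.trans ?_
  exact mul_le_of_le_one_right hC (hz.trans hr.le)

lemma Dn_lower_r {m : ℂ} (hm : ‖m‖ ≤ 1) {v : ℂ → ℂ} (hv : Schur v) {r : ℝ} (hr : r < 1) {z : ℂ}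
    (hz : ‖z‖ ≤ r) : (1 - r) ^ 2 ≤ ‖Dn m v z‖ := by
  have h := (Dn_lower hm hv (mem_ball_zero_iff.2 (hz.trans_lt hr))).1
  refine le_trans ?_ h
  exact pow_le_pow_left₀ (by linarith) (by linarith) 2

/-- I3 -/
lemma log_bound {m : ℂ} (hm : ‖m‖ ≤ 1) {v F : ℂ → ℂ} (hv : Schur v) (hF : IsLog m v F) {r : ℝ}
    (hr : r < 1) {z : ℂ} (hz : ‖z‖ ≤ r) : ‖F z‖ ≤ 4 / (1 - r) ^ 2 := by
  have hr' : 0 < 1 - r := by linarith
  refine mvt hF.1 hF.2 hr (by positivity) (fun x hx => ?_) hz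
  have h1 := Dn_lower_r hm hv hr hx
  have hx1 : ‖x‖ < 1 := hx.trans_lt hr
  have h2 := hv.2 x (mem_ball_zero_iff.2 hx1)
  have h3 : ‖-2 * (m + x * v x)‖ ≤ 4 := by
    rw [norm_mul, norm_neg]
    have : ‖m + x * v x‖ ≤ 2 := by
      refine (norm_add_le _ _).trans ?_
      rw [norm_mul]
      nlinarith [norm_nonneg x, norm_nonneg (v x)]
    have h4 : ‖(2 : ℂ)‖ = 2 := by norm_num
    rw [h4]
    linarith
  rw [norm_div]
  exact div_le_div₀ (by norm_num) h3 (by positivity) h1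

/-- I3 -/
lemma G_bound {m : ℂ} (hm : ‖m‖ ≤ 1) {v G : ℂ → ℂ} (hv : Schur v) (hG : IsG m v G) {r : ℝ}
    (hr : r < 1) {z : ℂ} (hz : ‖z‖ ≤ r) : ‖G z‖ ≤ 1 / (1 - r) ^ 4 := by
  have hr' : 0 < 1 - r := by linarith
  refine mvt hG.1 hG.2 hr (by positivity) (fun x hx => ?_) hz
  have h1 := Dn_lower_r hm hv hr hx
  have hx1 : ‖x‖ < 1 := hx.trans_lt hr
  rw [norm_div, norm_pow]
  refine div_le_div₀ (by norm_num) hx1.le (by positivity) ?_
  calc (1 - r) ^ 4 = ((1 - r) ^ 2) ^ 2 := by ring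
    _ ≤ ‖Dn m v x‖ ^ 2 := pow_le_pow_left₀ (by positivity) h1 2

end Pool.Agent.MP_8daf13.L1

end

section

/-! Cauchy estimates for the functional Lam. -/

open Complex Metric Filter Topology
open scoped ComplexConjugate
namespace Pool.Agent.MP_8daf13.L10

lemma tc_norm_le {W : ℂ → ℂ} (hW : DifferentiableOn ℂ W (ball 0 1)) {r M : ℝ} (hr0 : 0 < r)
    (hr : r < 1) (hM : ∀ z ∈ closedBall (0 : ℂ) r, ‖W z‖ ≤ M) (k : ℕ) :
    ‖tc W k‖ ≤ M / r ^ k := by
  have hcl : DiffContOnCl ℂ W (ball 0 r) := hW.diffContOnCl_ball (closedBall_subset_ball hr)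
  have h := Complex.norm_iteratedDeriv_le_of_forall_mem_sphere_norm_le k hr0 hcl
    (fun z hz => hM z (sphere_subset_closedBall hz))
  unfold tc
  rw [norm_div, Complex.norm_natCast]
  have hf : (0 : ℝ) < (k.factorial : ℝ) := by exact_mod_cast k.factorial_pos
  rw [div_le_iff₀ hf]
  calc ‖iteratedDeriv k W 0‖ ≤ (k.factorial : ℝ) * M / r ^ k := h
    _ = M / r ^ k * (k.factorial : ℝ) := by ring

lemma hasSum_tc {W : ℂ → ℂ} (hW : DifferentiableOn ℂ W (ball 0 1)) {z : ℂ}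
    (hz : z ∈ ball (0 : ℂ) 1) : HasSum (fun k => z ^ k * tc W k) (W z) := by
  have h := Complex.hasSum_taylorSeries_on_ball hW hz
  have he : (fun n : ℕ => ((n.factorial : ℂ))⁻¹ • (z - 0) ^ n • iteratedDeriv n W 0) =
      fun k => z ^ k * tc W k := by
    funext k
    unfold tc
    simp only [smul_eq_mul, sub_zero]
    ring
  rwa [he] at h

lemma Lam_sub {F K : ℂ → ℂ} (hF : DifferentiableOn ℂ F (ball 0 1))
    (hK : DifferentiableOn ℂ K (ball 0 1)) (n : ℕ) (p : ℝ) :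
    Lam n p F - Lam n p K = Lam n p (fun z => F z - K z) := by
  unfold Lam
  rw [← Finset.sum_sub_distrib]
  refine Finset.sum_congr rfl fun k _ => ?_
  rw [tc_sub (analyticAt_of_ball one_pos hF) (analyticAt_of_ball one_pos hK)]
  ring

lemma main {p r : ℝ} (hp : 0 < p) (hpr : p < r) (hr : r < 1) (n : ℕ) {W : ℂ → ℂ}
    (hW : DifferentiableOn ℂ W (ball 0 1)) {M : ℝ} (hM : ∀ z ∈ closedBall (0 : ℂ) r, ‖W z‖ ≤ M) :
    ‖W p - Lam n p W‖ ≤ (1 / (1 - p / r) + 1 / (1 - p * r)) * (p / r) ^ n * M := by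
  have hr0 : 0 < r := hp.trans hpr
  have hM0 : 0 ≤ M := (norm_nonneg _).trans (hM 0 (mem_closedBall_self hr0.le))
  have hpz : (p : ℂ) ∈ ball (0 : ℂ) 1 := by
    rw [mem_ball_zero_iff, Complex.norm_real, Real.norm_of_nonneg hp.le]
    linarith
  have hs := hasSum_tc hW hpz
  have htc := tc_norm_le hW hr0 hr hM
  set q : ℝ := p / r with hq
  have hq0 : 0 < q := div_pos hp hr0
  have hq1 : q < 1 := (div_lt_one hr0).2 hpr
  have hpr1 : p * r < 1 := by nlinarith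
  have hpr0 : 0 < p * r := mul_pos hp hr0
  -- the tail
  have hbd : ∀ k, ‖(p : ℂ) ^ k * tc W k‖ ≤ M * q ^ k := by
    intro k
    rw [norm_mul, norm_pow, Complex.norm_real, Real.norm_of_nonneg hp.le]
    calc p ^ k * ‖tc W k‖ ≤ p ^ k * (M / r ^ k) := by
          gcongr
          exact htc k
      _ = M * q ^ k := by rw [hq, div_pow]; ring
  have hsplit := (hasSum_nat_add_iff' (n + 1)).2 hs
  have h1 : ‖W p - ∑ k ∈ Finset.range (n + 1), (p : ℂ) ^ k * tc W k‖ ≤ M * q ^ n / (1 - q) := by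
    have hgs : HasSum (fun k : ℕ => M * q ^ (n + 1) * q ^ k) (M * q ^ (n + 1) * (1 - q)⁻¹) :=
      (hasSum_geometric_of_lt_one hq0.le hq1).mul_left _
    have h2 := hsplit.norm_le_of_bounded hgs (fun k => by
      refine (hbd (k + (n + 1))).trans (le_of_eq ?_)
      ring)
    refine h2.trans ?_
    rw [div_eq_mul_inv]
    have h3 : q ^ (n + 1) ≤ q ^ n := pow_le_pow_of_le_one hq0.le hq1.le (Nat.le_succ n)
    have h4 : 0 ≤ (1 - q)⁻¹ := inv_nonneg.2 (by linarith)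
    gcongr
  -- the second part
  have h2 : ‖∑ k ∈ Finset.range (n + 1), ((p ^ (2 * n + 2 - k) : ℝ) : ℂ) * tc W k‖ ≤
      M * q ^ n / (1 - p * r) := by
    calc ‖∑ k ∈ Finset.range (n + 1), ((p ^ (2 * n + 2 - k) : ℝ) : ℂ) * tc W k‖
        ≤ ∑ k ∈ Finset.range (n + 1), ‖((p ^ (2 * n + 2 - k) : ℝ) : ℂ) * tc W k‖ :=
          norm_sum_le _ _
      _ ≤ ∑ k ∈ Finset.range (n + 1), M * q ^ n * (p * r) ^ (n - k) := by
          refine Finset.sum_le_sum fun k hk => ?_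
          have hk' : k ≤ n := Nat.lt_succ_iff.1 (Finset.mem_range.1 hk)
          rw [norm_mul, Complex.norm_real, Real.norm_of_nonneg (by positivity)]
          calc p ^ (2 * n + 2 - k) * ‖tc W k‖ ≤ p ^ (2 * n + 2 - k) * (M / r ^ k) := by
                gcongr
                exact htc k
            _ = M * q ^ n * (p * r) ^ (n - k) * p ^ 2 := by
                obtain ⟨j, rfl⟩ := Nat.exists_eq_add_of_le hk'
                have e1 : 2 * (k + j) + 2 - k = (k + j) + j + 2 := by omega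
                have e2 : k + j - k = j := by omega
                rw [e1, e2, hq, div_pow, mul_pow, pow_add p (k + j + j) 2, pow_add p (k + j) j,
                  pow_add r k j]
                have : r ^ k ≠ 0 := by positivity
                have : r ^ j ≠ 0 := by positivity
                field_simp
            _ ≤ M * q ^ n * (p * r) ^ (n - k) * 1 := by
                have : p ^ 2 ≤ 1 := by nlinarith
                gcongr
            _ = M * q ^ n * (p * r) ^ (n - k) := mul_one _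
      _ = M * q ^ n * ∑ k ∈ Finset.range (n + 1), (p * r) ^ k := by
          rw [← Finset.mul_sum]
          congr 1
          rw [← Finset.sum_range_reflect (fun k => (p * r) ^ k) (n + 1)]
          refine Finset.sum_congr rfl fun k _ => ?_
          congr 1
      _ ≤ M * q ^ n * (1 - p * r)⁻¹ := by
          have : ∑ k ∈ Finset.range (n + 1), (p * r) ^ k ≤ (1 - p * r)⁻¹ :=
            sum_le_hasSum _ (fun _ _ => by positivity) (hasSum_geometric_of_lt_one hpr0.le hpr1)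
          gcongr
      _ = M * q ^ n / (1 - p * r) := by rw [div_eq_mul_inv]
  have h3 : W p - Lam n p W = (W p - ∑ k ∈ Finset.range (n + 1), (p : ℂ) ^ k * tc W k) +
      ∑ k ∈ Finset.range (n + 1), ((p ^ (2 * n + 2 - k) : ℝ) : ℂ) * tc W k := by
    unfold Lam
    have : ∑ k ∈ Finset.range (n + 1), ((p ^ k - p ^ (2 * n + 2 - k) : ℝ) : ℂ) * tc W k =
        ∑ k ∈ Finset.range (n + 1), (p : ℂ) ^ k * tc W k -
          ∑ k ∈ Finset.range (n + 1), ((p ^ (2 * n + 2 - k) : ℝ) : ℂ) * tc W k := by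
      rw [← Finset.sum_sub_distrib]
      refine Finset.sum_congr rfl fun k _ => ?_
      push_cast
      ring
    rw [this]
    ring
  rw [h3]
  refine (norm_add_le _ _).trans ?_
  calc _ ≤ M * q ^ n / (1 - q) + M * q ^ n / (1 - p * r) := add_le_add h1 h2
    _ = (1 / (1 - q) + 1 / (1 - p * r)) * q ^ n * M := by ring

/-- I14 -/
lemma Lam_bound {p r : ℝ} (hp : 0 < p) (hpr : p < r) (hr : r < 1) :
    ∃ C : ℝ, 0 < C ∧ ∀ n : ℕ, ∀ F K : ℂ → ℂ, DifferentiableOn ℂ F (ball 0 1) →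
      DifferentiableOn ℂ K (ball 0 1) → ∀ M : ℝ, (∀ z ∈ closedBall (0 : ℂ) r, ‖F z - K z‖ ≤ M) →
      ‖(F p - Lam n p F) - (K p - Lam n p K)‖ ≤ C * (p / r) ^ n * M := by
  have hr0 : 0 < r := hp.trans hpr
  have hq1 : p / r < 1 := (div_lt_one hr0).2 hpr
  have hpr1 : p * r < 1 := by nlinarith
  refine ⟨1 / (1 - p / r) + 1 / (1 - p * r), ?_, fun n F K hF hK M hM => ?_⟩
  · have : 0 < 1 - p / r := by linarith
    have : 0 < 1 - p * r := by linarith
    positivity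
  · have h := main hp hpr hr n (hF.sub hK) (W := fun z => F z - K z) hM
    rw [← Lam_sub hF hK n p] at h
    have e : (F p - Lam n p F) - (K p - Lam n p K) =
        F p - K p - (Lam n p F - Lam n p K) := by ring
    rw [e]
    exact h

end Pool.Agent.MP_8daf13.L10

end

section

/-! The recursion from the differential equation and the rewriting of the functional Lam. -/

open Complex Metric Filter Topology
open scoped ComplexConjugate
namespace Pool.Agent.MP_8daf13.L11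

/-- I15 -/
lemma rec_of_ode {m : ℂ} {v H : ℂ → ℂ} (hv : AnalyticAt ℂ v 0) (hH : AnalyticAt ℂ H 0)
    (hH0 : H 0 = 1)
    (hode : ∀ᶠ z in 𝓝 (0 : ℂ), Dn m v z * deriv H z = -2 * (m + z * v z) * H z) :
    Rec m (tc v) (tc H) := by
  have hH'a : AnalyticAt ℂ (deriv H) 0 := hH.deriv
  set Y : ℂ → ℂ := fun z => conj m * deriv H z - z * deriv H z + 2 * H z with hY
  have hkey : ∀ᶠ z in 𝓝 (0 : ℂ), deriv H z =
      m * (z * deriv H z) - 2 * m * H z - z * (Y z * v z) := by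
    filter_upwards [hode] with z hz
    simp only [Dn] at hz
    simp only [hY]
    linear_combination hz
  have hzH' : AnalyticAt ℂ (fun z => z * deriv H z) 0 := analyticAt_id.mul hH'a
  have hmH' : AnalyticAt ℂ (fun z => conj m * deriv H z) 0 := analyticAt_const.mul hH'a
  have h2H : AnalyticAt ℂ (fun z => 2 * H z) 0 := analyticAt_const.mul hH
  have hYa : AnalyticAt ℂ Y 0 := (hmH'.sub hzH').add h2H
  have hYv : AnalyticAt ℂ (fun z => Y z * v z) 0 := hYa.mul hv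
  have hzYv : AnalyticAt ℂ (fun z => z * (Y z * v z)) 0 := analyticAt_id.mul hYv
  have hmzH' : AnalyticAt ℂ (fun z => m * (z * deriv H z)) 0 := analyticAt_const.mul hzH'
  have h2mH : AnalyticAt ℂ (fun z => 2 * m * H z) 0 := analyticAt_const.mul hH
  have hzH'c : ∀ k, tc (fun z => z * deriv H z) k = k * tc H k := by
    intro k
    rcases k with _ | k
    · simp [tc_zero]
    · rw [tc_id_mul hH'a, tc_deriv]; push_cast; ring
  have hYc : ∀ k, tc Y k = conj m * ((k : ℂ) + 1) * tc H (k + 1) - ((k : ℂ) - 2) * tc H k := by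
    intro k
    rw [hY, tc_add (f := fun z => conj m * deriv H z - z * deriv H z) (hmH'.sub hzH') h2H,
      tc_sub hmH' hzH', tc_const_mul _ (deriv H), tc_const_mul _ H, hzH'c, tc_deriv]
    ring
  refine ⟨by rw [tc_zero]; exact hH0, fun k => ?_⟩
  have h1 : tc (deriv H) k = tc (fun z => m * (z * deriv H z)
      - 2 * m * H z - z * (Y z * v z)) k := tc_congr hkey k
  rw [tc_deriv, tc_sub (f := fun z => m * (z * deriv H z) - 2 * m * H z) (hmzH'.sub h2mH) hzYv,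
    tc_sub hmzH' h2mH, tc_const_mul m (fun z => z * deriv H z), tc_const_mul (2 * m) H, hzH'c]
    at h1
  have h2 : tc (fun z => z * (Y z * v z)) k = ∑ j ∈ Finset.range k, tc v (k - 1 - j) *
      (conj m * ((j : ℂ) + 1) * tc H (j + 1) - ((j : ℂ) - 2) * tc H j) := by
    rcases k with _ | k
    · simp [tc_zero]
    · rw [tc_id_mul hYv, tc_mul hYa hv]
      refine Finset.sum_congr rfl fun j _ => ?_
      rw [hYc]
      simp only [Nat.add_sub_cancel]
      ring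
  rw [h2] at h1
  rw [h1]; ring

lemma sC_mul {p : ℝ} (hp : 0 < p) (j : ℕ) :
    p ^ j * sC p j * (1 - p ^ 2) = 1 - p ^ (2 * j + 2) := by
  have h : p ^ j * sC p j = ∑ i ∈ Finset.range (j + 1), (p ^ 2) ^ i := by
    unfold sC
    rw [Finset.mul_sum]
    refine Finset.sum_congr rfl fun i hi => ?_
    have hi' : i ≤ j := Nat.lt_succ_iff.1 (Finset.mem_range.1 hi)
    obtain ⟨l, rfl⟩ := Nat.exists_eq_add_of_le hi'
    have e : i + l - i = l := by omega
    rw [e, pow_add, ← pow_mul]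
    have : p ^ l ≠ 0 := by positivity
    field_simp
    ring
  rw [h]
  have h2 := geom_sum_mul (p ^ 2) (j + 1)
  have e : (p ^ 2) ^ (j + 1) = p ^ (2 * j + 2) := by rw [← pow_mul]; ring_nf
  rw [e] at h2
  linarith

/-- I16 -/
lemma Lam_eq_sum {p : ℝ} (hp : 0 < p) (hp1 : p < 1) (n : ℕ) (F : ℂ → ℂ) :
    Lam n p F = (p ^ (n + 1) * (1 / p - p) : ℝ) *
      ∑ k ∈ Finset.range (n + 1), (sC p (n - k) : ℂ) * tc F k := by
  unfold Lam
  rw [Finset.mul_sum]
  refine Finset.sum_congr rfl fun k hk => ?_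
  have hk' : k ≤ n := Nat.lt_succ_iff.1 (Finset.mem_range.1 hk)
  obtain ⟨l, rfl⟩ := Nat.exists_eq_add_of_le hk'
  have e : k + l - k = l := by omega
  have e2 : 2 * (k + l) + 2 - k = k + (2 * l + 2) := by omega
  have h := sC_mul hp l
  have h3 : p ^ k - p ^ (k + (2 * l + 2)) = p ^ (k + l + 1) * (1 / p - p) * sC p l := by
    have hp0 : p ≠ 0 := hp.ne'
    have h4 : p ^ k - p ^ (k + (2 * l + 2)) = p ^ k * (1 - p ^ (2 * l + 2)) := by
      rw [pow_add]; ring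
    rw [h4, ← h]
    field_simp
    ring
  rw [e, e2, h3]
  push_cast
  ring

end Pool.Agent.MP_8daf13.L11

end

section

open Complex Metric Filter Topology
open scoped ComplexConjugate

namespace Pool.Agent.MP_8daf13.L3

/-- I5: first touch lemma -/
lemma first_touch {f : ℂ → ℂ} (hf : DifferentiableOn ℂ f (ball 0 1)) (h0 : 0 < (f 0).re)
    (h : ∀ z ∈ ball (0 : ℂ) 1, z ≠ 0 → (f z).re = 0 → ∀ k : ℝ, 0 ≤ k →
      z * deriv f z ≠ -(k : ℂ)) : ∀ z ∈ ball (0 : ℂ) 1, 0 < (f z).re := by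
  by_contra hcon
  push Not at hcon
  obtain ⟨z1, hz1, hz1re⟩ := hcon
  have hz1n : ‖z1‖ < 1 := mem_ball_zero_iff.mp hz1
  have hsub : closedBall (0 : ℂ) ‖z1‖ ⊆ ball 0 1 := closedBall_subset_ball hz1n
  have hcont : ContinuousOn (fun z => (f z).re) (closedBall (0 : ℂ) ‖z1‖) :=
    Complex.continuous_re.comp_continuousOn (hf.continuousOn.mono hsub)
  have hKc : IsCompact (closedBall (0 : ℂ) ‖z1‖ ∩ (fun z => (f z).re) ⁻¹' Set.Iic 0) :=
    (isCompact_closedBall (0 : ℂ) ‖z1‖).of_isClosed_subset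
      (hcont.preimage_isClosed_of_isClosed isClosed_closedBall isClosed_Iic)
      Set.inter_subset_left
  have hKne : (closedBall (0 : ℂ) ‖z1‖ ∩ (fun z => (f z).re) ⁻¹' Set.Iic 0).Nonempty :=
    ⟨z1, by simp, hz1re⟩
  obtain ⟨z0, hz0K, hz0min⟩ := hKc.exists_isMinOn hKne continuous_norm.continuousOn
  have hz0n : ‖z0‖ ≤ ‖z1‖ := mem_closedBall_zero_iff.mp hz0K.1
  have hz0lt : ‖z0‖ < 1 := lt_of_le_of_lt hz0n hz1n
  have hz0b : z0 ∈ ball (0 : ℂ) 1 := mem_ball_zero_iff.mpr hz0lt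
  have hz0re : (f z0).re ≤ 0 := hz0K.2
  have hz0ne : z0 ≠ 0 := by
    rintro rfl
    exact absurd hz0re (not_le.mpr h0)
  have hz0pos : 0 < ‖z0‖ := norm_pos_iff.mpr hz0ne
  -- positivity inside
  have hin : ∀ z : ℂ, ‖z‖ < ‖z0‖ → 0 < (f z).re := by
    intro z hz
    by_contra hneg
    push Not at hneg
    have hzK : z ∈ closedBall (0 : ℂ) ‖z1‖ ∩ (fun z => (f z).re) ⁻¹' Set.Iic 0 :=
      ⟨mem_closedBall_zero_iff.mpr (hz.le.trans hz0n), hneg⟩
    exact absurd hz (not_lt.mpr (hz0min hzK))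
  have hdiff : ∀ z : ℂ, ‖z‖ < 1 → DifferentiableAt ℂ f z := fun z hz =>
    hf.differentiableAt (isOpen_ball.mem_nhds (mem_ball_zero_iff.mpr hz))
  -- nonnegativity on the circle
  have hon : ∀ z : ℂ, ‖z‖ = ‖z0‖ → 0 ≤ (f z).re := by
    intro z hz
    have hzne : 0 < ‖z‖ := hz ▸ hz0pos
    have hc : ContinuousAt (fun t : ℝ => (f ((t : ℂ) * z)).re) 1 := by
      have h1 : ContinuousAt f (((1 : ℝ) : ℂ) * z) := by
        rw [Complex.ofReal_one, one_mul]
        exact (hdiff z (hz ▸ hz0lt)).continuousAt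
      have h2 : ContinuousAt (fun t : ℝ => (t : ℂ) * z) 1 := by fun_prop
      exact Complex.continuous_re.continuousAt.comp
        (ContinuousAt.comp (f := fun t : ℝ => (t : ℂ) * z) (g := f) h1 h2)
    have ht : Tendsto (fun t : ℝ => (f ((t : ℂ) * z)).re) (𝓝[<] 1) (𝓝 (f z).re) := by
      have h3 := hc.tendsto.mono_left (nhdsWithin_le_nhds (s := Set.Iio (1 : ℝ)))
      simpa using h3
    refine ge_of_tendsto ht ?_
    have h4 : Set.Ioo (0 : ℝ) 1 ∈ 𝓝[<] (1 : ℝ) := Ioo_mem_nhdsLT one_pos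
    filter_upwards [h4] with t ht
    refine (hin _ ?_).le
    rw [norm_mul, Complex.norm_real, Real.norm_of_nonneg ht.1.le, hz]
    nlinarith [ht.2]
  have hz0eq : (f z0).re = 0 := le_antisymm hz0re (hon z0 rfl)
  have hder : HasDerivAt f (deriv f z0) z0 := (hdiff z0 hz0lt).hasDerivAt
  -- angular derivative
  have him : (z0 * deriv f z0).im = 0 := by
    have h1 : HasDerivAt (fun θ : ℝ => z0 * Complex.exp ((θ : ℂ) * I))
        (z0 * (Complex.exp (((0 : ℝ) : ℂ) * I) * (1 * I))) (0 : ℝ) :=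
      ((((hasDerivAt_id (0 : ℝ)).ofReal_comp).mul_const I).cexp).const_mul z0
    have h2 : HasDerivAt (fun θ : ℝ => f (z0 * Complex.exp ((θ : ℂ) * I)))
        (deriv f z0 * (z0 * (Complex.exp (((0 : ℝ) : ℂ) * I) * (1 * I)))) (0 : ℝ) := by
      have h3 : HasDerivAt f (deriv f z0) (z0 * Complex.exp (((0 : ℝ) : ℂ) * I)) := by
        simpa using hder
      exact h3.comp (0 : ℝ) h1
    have h4 : HasDerivAt (fun θ : ℝ => (f (z0 * Complex.exp ((θ : ℂ) * I))).re)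
        (deriv f z0 * (z0 * (Complex.exp (((0 : ℝ) : ℂ) * I) * (1 * I)))).re (0 : ℝ) :=
      (Complex.reCLM.hasFDerivAt.comp_hasDerivAt (0 : ℝ) h2)
    have h5 : IsLocalMin (fun θ : ℝ => (f (z0 * Complex.exp ((θ : ℂ) * I))).re) 0 := by
      refine Filter.Eventually.of_forall fun θ => ?_
      show (f (z0 * Complex.exp (((0 : ℝ) : ℂ) * I))).re ≤ (f (z0 * Complex.exp ((θ : ℂ) * I))).re
      have h6 : (f (z0 * Complex.exp (((0 : ℝ) : ℂ) * I))).re = 0 := by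
        simpa using hz0eq
      rw [h6]
      refine hon _ ?_
      rw [norm_mul, Complex.norm_exp_ofReal_mul_I, mul_one]
    have h7 := h5.hasDerivAt_eq_zero h4
    have h8 : deriv f z0 * (z0 * (Complex.exp (((0 : ℝ) : ℂ) * I) * (1 * I))) =
        (z0 * deriv f z0) * I := by
      simp
      ring
    rw [h8, Complex.mul_I_re] at h7
    linarith
  -- radial derivative
  have hre : (z0 * deriv f z0).re ≤ 0 := by
    have h1 : HasDerivAt (fun t : ℝ => (t : ℂ) * z0) (1 * z0) (1 : ℝ) :=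
      ((hasDerivAt_id (1 : ℝ)).ofReal_comp).mul_const z0
    have h2 : HasDerivAt (fun t : ℝ => f ((t : ℂ) * z0)) (deriv f z0 * (1 * z0)) (1 : ℝ) := by
      have h3 : HasDerivAt f (deriv f z0) (((1 : ℝ) : ℂ) * z0) := by
        simpa using hder
      exact h3.comp (1 : ℝ) h1
    have h4 : HasDerivAt (fun t : ℝ => (f ((t : ℂ) * z0)).re) (deriv f z0 * (1 * z0)).re (1 : ℝ) :=
      (Complex.reCLM.hasFDerivAt.comp_hasDerivAt (1 : ℝ) h2)
    have h5 := (hasDerivWithinAt_iff_tendsto_slope' (s := Set.Iio (1 : ℝ))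
      (by simp)).mp h4.hasDerivWithinAt
    have h6 : (deriv f z0 * (1 * z0)).re ≤ 0 := by
      refine le_of_tendsto h5 ?_
      have h7 : Set.Ioo (0 : ℝ) 1 ∈ 𝓝[<] (1 : ℝ) := Ioo_mem_nhdsLT one_pos
      filter_upwards [h7] with t ht
      have h8 : (f (((1 : ℝ) : ℂ) * z0)).re = 0 := by simpa using hz0eq
      have h9 : 0 ≤ (f ((t : ℂ) * z0)).re := by
        refine (hin _ ?_).le
        rw [norm_mul, Complex.norm_real, Real.norm_of_nonneg ht.1.le]
        nlinarith [ht.2]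
      rw [slope_def_field, h8, sub_zero]
      exact div_nonpos_of_nonneg_of_nonpos h9 (by linarith [ht.2])
    have h10 : deriv f z0 * (1 * z0) = z0 * deriv f z0 := by ring
    rwa [h10] at h6
  refine h z0 hz0b hz0ne hz0eq (-(z0 * deriv f z0).re) (by linarith) ?_
  apply Complex.ext
  · simp
  · simp only [Complex.neg_im, Complex.ofReal_im, neg_zero]
    exact him

end Pool.Agent.MP_8daf13.L3

end

section

/-! Harnack's inequality and its consequence for Schur functions. -/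

open Complex Metric Filter Topology
open scoped ComplexConjugate

namespace Pool.Agent.MP_8daf13.L6

/-- The estimates with a positive real part. -/
lemma harnack_aux {f : ℂ → ℂ} (hf : DifferentiableOn ℂ f (ball 0 1))
    (hre : ∀ z ∈ ball (0 : ℂ) 1, 0 < (f z).re) {z : ℂ} (hz : z ∈ ball (0 : ℂ) 1) :
    (1 - ‖z‖) * ‖f z - f 0‖ ≤ 2 * ‖z‖ * (f 0).re ∧
      (1 - ‖z‖) * (f 0).re ≤ (1 + ‖z‖) * (f z).re := by
  have h0 : (0 : ℂ) ∈ ball (0 : ℂ) 1 := mem_ball_self one_pos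
  set c := f 0 with hc
  have hcre : 0 < c.re := hre 0 h0
  have hden : ∀ x ∈ ball (0 : ℂ) 1, f x + conj c ≠ 0 := by
    intro x hx h
    have h1 := congrArg Complex.re h
    simp only [add_re, conj_re, zero_re] at h1
    linarith [hre x hx]
  have hlt : ∀ x ∈ ball (0 : ℂ) 1, ‖f x - c‖ < ‖f x + conj c‖ := by
    intro x hx
    have h1 := hre x hx
    refine lt_of_pow_lt_pow_left₀ 2 (norm_nonneg _) ?_
    rw [← Complex.normSq_eq_norm_sq, ← Complex.normSq_eq_norm_sq, Complex.normSq_apply,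
      Complex.normSq_apply]
    simp only [sub_re, sub_im, add_re, add_im, conj_re, conj_im]
    nlinarith [mul_pos h1 hcre]
  have hw : ‖(f z - c) / (f z + conj c)‖ ≤ ‖z‖ := by
    have hd : DifferentiableOn ℂ (fun x => (f x - c) / (f x + conj c)) (ball 0 1) :=
      (hf.sub_const c).div (hf.add_const _) hden
    have hm : Set.MapsTo (fun x => (f x - c) / (f x + conj c)) (ball 0 1) (closedBall 0 1) := by
      intro x hx
      rw [mem_closedBall_zero_iff, norm_div, div_le_one (norm_pos_iff.2 (hden x hx))]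
      exact (hlt x hx).le
    have hz' : ‖z‖ < 1 := mem_ball_zero_iff.1 hz
    have := Complex.norm_le_norm_of_mapsTo_ball hd hm (by simp [← hc]) hz'
    exact this
  have hpos : 0 < ‖f z + conj c‖ := norm_pos_iff.2 (hden z hz)
  have hle : ‖f z - c‖ ≤ ‖z‖ * ‖f z + conj c‖ := by
    rwa [norm_div, div_le_iff₀ hpos] at hw
  have hz0 : 0 ≤ ‖z‖ := norm_nonneg z
  have hz1 : ‖z‖ < 1 := mem_ball_zero_iff.1 hz
  constructor
  · have h1 : f z + conj c = (f z - c) + ((2 * c.re : ℝ) : ℂ) := by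
      apply Complex.ext
      · simp; ring
      · simp; ring
    have h2 : ‖f z + conj c‖ ≤ ‖f z - c‖ + 2 * c.re := by
      rw [h1]
      refine (norm_add_le _ _).trans ?_
      rw [Complex.norm_real, Real.norm_of_nonneg (by positivity)]
    nlinarith [mul_le_mul_of_nonneg_left h2 hz0]
  · have h1 := hre z hz
    have h2 : ‖f z - c‖ ^ 2 ≤ (‖z‖ * ‖f z + conj c‖) ^ 2 :=
      pow_le_pow_left₀ (norm_nonneg _) hle 2
    have e1 : ‖f z - c‖ ^ 2 = ((f z).re - c.re) ^ 2 + ((f z).im - c.im) ^ 2 := by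
      rw [← Complex.normSq_eq_norm_sq, Complex.normSq_apply]
      simp only [sub_re, sub_im]
      ring
    have e2 : ‖f z + conj c‖ ^ 2 = ((f z).re + c.re) ^ 2 + ((f z).im - c.im) ^ 2 := by
      rw [← Complex.normSq_eq_norm_sq, Complex.normSq_apply]
      simp only [add_re, add_im, conj_re, conj_im]
      ring
    rw [mul_pow, e1, e2] at h2
    have h3 : (c.re - (f z).re) ^ 2 ≤ (‖z‖ * ((f z).re + c.re)) ^ 2 := by
      have h4 : ‖z‖ ^ 2 ≤ 1 := by nlinarith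
      nlinarith [mul_nonneg (sub_nonneg.2 h4) (sq_nonneg ((f z).im - c.im))]
    have h5 : c.re - (f z).re ≤ ‖z‖ * ((f z).re + c.re) :=
      (le_abs_self _).trans (abs_le_of_sq_le_sq h3 (by positivity))
    nlinarith

lemma harnack {f : ℂ → ℂ} (hf : DifferentiableOn ℂ f (ball 0 1))
    (hre : ∀ z ∈ ball (0 : ℂ) 1, 0 ≤ (f z).re) {z : ℂ} (hz : z ∈ ball (0 : ℂ) 1) :
    ‖f z - f 0‖ ≤ 2 * ‖z‖ / (1 - ‖z‖) * (f 0).re ∧
      (1 - ‖z‖) / (1 + ‖z‖) * (f 0).re ≤ (f z).re := by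
  have hz0 : 0 ≤ ‖z‖ := norm_nonneg z
  have hz1 : ‖z‖ < 1 := mem_ball_zero_iff.1 hz
  have key : ∀ d : ℝ, 0 < d → (1 - ‖z‖) * ‖f z - f 0‖ ≤ 2 * ‖z‖ * ((f 0).re + d) ∧
      (1 - ‖z‖) * ((f 0).re + d) ≤ (1 + ‖z‖) * ((f z).re + d) := by
    intro d hd
    have h := harnack_aux (f := fun x => f x + (d : ℂ)) (hf.add_const _)
      (fun x hx => by simp only [add_re, ofReal_re]; linarith [hre x hx]) hz
    simpa using h
  constructor
  · rw [div_mul_eq_mul_div, le_div_iff₀ (by linarith)]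
    refine le_of_forall_pos_le_add fun e he => ?_
    have h := (key (e / 2) (by positivity)).1
    nlinarith
  · rw [div_mul_eq_mul_div, div_le_iff₀ (by linarith)]
    refine le_of_forall_pos_le_add fun e he => ?_
    have h := (key (e / 2) (by positivity)).2
    nlinarith

lemma schur_close {v : ℂ → ℂ} (hv : Schur v) {z : ℂ} (hz : z ∈ ball (0 : ℂ) 1) :
    ‖v z - v 0‖ ≤ 2 / (1 - ‖z‖) * (1 - ‖v 0‖) := by
  obtain ⟨hd, hb⟩ := hv
  have hz0 : 0 ≤ ‖z‖ := norm_nonneg z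
  have hz1 : ‖z‖ < 1 := mem_ball_zero_iff.1 hz
  obtain ⟨e, he, hev⟩ : ∃ e : ℂ, ‖e‖ = 1 ∧ e * v 0 = (‖v 0‖ : ℂ) := by
    by_cases h0 : v 0 = 0
    · exact ⟨1, by simp, by simp [h0]⟩
    · have hn : (‖v 0‖ : ℂ) ≠ 0 := by
        exact_mod_cast (norm_ne_zero_iff.2 h0)
      refine ⟨conj (v 0) / (‖v 0‖ : ℂ), ?_, ?_⟩
      · rw [norm_div, Complex.norm_conj, Complex.norm_real, norm_norm, div_self]
        exact norm_ne_zero_iff.2 h0
      · rw [div_mul_eq_mul_div, mul_comm (conj (v 0)), Complex.mul_conj, div_eq_iff hn,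
          Complex.normSq_eq_norm_sq]
        push_cast
        ring
  have h := (harnack (f := fun x => 1 - e * v x) ((hd.const_mul e).const_sub 1) ?_ hz).1
  · have h1 : (1 - e * v z) - (1 - e * v 0) = -(e * (v z - v 0)) := by ring
    have h2 : (1 - e * v 0).re = 1 - ‖v 0‖ := by
      rw [hev]; simp
    rw [h1, h2, norm_neg, norm_mul, he, one_mul] at h
    refine h.trans ?_
    have h3 : ‖v 0‖ ≤ 1 := hb 0 (mem_ball_self one_pos)
    refine mul_le_mul_of_nonneg_right ?_ (by linarith)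
    exact div_le_div_of_nonneg_right (by linarith) (by linarith)
  · intro x hx
    have h1 : ‖e * v x‖ ≤ 1 := by rw [norm_mul, he, one_mul]; exact hb x hx
    have h2 := (Complex.abs_re_le_norm (e * v x)).trans h1
    have h3 := (abs_le.1 h2).2
    simp only [sub_re, one_re]
    linarith

end Pool.Agent.MP_8daf13.L6

end

section

open Complex Metric Filter Topology
open scoped ComplexConjugate
namespace Pool.Agent.MP_8daf13.L2

open L1

lemma mvt {f f' : ℂ → ℂ} {r C : ℝ} (hr : r < 1)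
    (h : ∀ w : ℂ, ‖w‖ ≤ r → HasDerivAt f (f' w) w) (hb : ∀ w : ℂ, ‖w‖ ≤ r → ‖f' w‖ ≤ C)
    {z : ℂ} (hz : ‖z‖ ≤ r) : ‖f z - f 0‖ ≤ C := by
  have hr0 : 0 ≤ r := (norm_nonneg z).trans hz
  have h0 : (0 : ℂ) ∈ closedBall (0 : ℂ) r := by simpa using hr0
  have hz' : z ∈ closedBall (0 : ℂ) r := by simpa using hz
  have h1 := (convex_closedBall (0 : ℂ) r).norm_image_sub_le_of_norm_hasDerivWithin_le
    (f := f) (f' := f') (C := C)
    (fun x hx => (h x (by simpa using hx)).hasDerivWithinAt)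
    (fun x hx => hb x (by simpa using hx)) h0 hz'
  have hC : 0 ≤ C := (norm_nonneg _).trans (hb z hz)
  calc ‖f z - f 0‖ ≤ C * ‖z - 0‖ := h1
    _ ≤ C * 1 := by
        refine mul_le_mul_of_nonneg_left ?_ hC
        rw [sub_zero]
        linarith
    _ = C := mul_one C

lemma mem_of_le {w : ℂ} {r : ℝ} (hr : r < 1) (hw : ‖w‖ ≤ r) : w ∈ ball (0 : ℂ) 1 := by
  rw [mem_ball_zero_iff]
  linarith

lemma Dn_ge {m : ℂ} (hm : ‖m‖ ≤ 1) {v : ℂ → ℂ} (hv : Schur v) {w : ℂ} {r : ℝ} (hr : r < 1)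
    (hw : ‖w‖ ≤ r) : (1 - r) ^ 2 ≤ ‖Dn m v w‖ := by
  refine le_trans ?_ (Dn_lower hm hv (mem_of_le hr hw)).1
  have h1 : 0 ≤ 1 - r := by linarith
  gcongr

lemma Dn_ne {m : ℂ} (hm : ‖m‖ ≤ 1) {v : ℂ → ℂ} (hv : Schur v) {z : ℂ}
    (hz : z ∈ ball (0 : ℂ) 1) : Dn m v z ≠ 0 := by
  have h1 := (Dn_lower hm hv hz).1
  have h2 : ‖z‖ < 1 := by simpa using hz
  have h3 : 0 < (1 - ‖z‖) ^ 2 := by
    have : 0 < 1 - ‖z‖ := by linarith
    positivity
  exact norm_pos_iff.1 (lt_of_lt_of_le h3 h1)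

lemma rho_eq (m : ℂ) : ((1 - ‖m‖ ^ 2 : ℝ) : ℂ) = 1 - m * conj m := by
  rw [Complex.mul_conj, Complex.normSq_eq_norm_sq]
  push_cast
  ring

lemma rho_nonneg {m : ℂ} (hm : ‖m‖ ≤ 1) : 0 ≤ 1 - ‖m‖ ^ 2 := by
  have := norm_nonneg m
  nlinarith

lemma schur_const {ζ : ℂ} (hζ : ‖ζ‖ ≤ 1) : Schur (fun _ => ζ) :=
  ⟨differentiableOn_const _, fun _ _ => hζ⟩

/-- I4 -/
lemma log_diff_deriv {m : ℂ} (hm : ‖m‖ ≤ 1) {v u F K : ℂ → ℂ} (hv : Schur v) (hu : Schur u)
    (hF : IsLog m v F) (hK : IsLog m u K) {z : ℂ} (hz : z ∈ ball (0 : ℂ) 1) :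
    HasDerivAt (fun z => F z - K z)
      (2 * (1 - ‖m‖ ^ 2 : ℝ) * z * (u z - v z) / (Dn m v z * Dn m u z)) z := by
  have h1 : HasDerivAt (fun z => F z - K z)
      (-2 * (m + z * v z) / Dn m v z - -2 * (m + z * u z) / Dn m u z) z :=
    (hF.2 z hz).sub (hK.2 z hz)
  refine h1.congr_deriv ?_
  have h2 := Dn_ne hm hv hz
  have h3 := Dn_ne hm hu hz
  rw [div_sub_div _ _ h2 h3]
  congr 1
  rw [rho_eq]
  simp only [Dn]
  ring

/-- I4 -/
lemma log_diff {m : ℂ} (hm : ‖m‖ ≤ 1) {v u F K : ℂ → ℂ} (hv : Schur v) (hu : Schur u)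
    (hF : IsLog m v F) (hK : IsLog m u K) {r M : ℝ} (hr : r < 1)
    (hM : ∀ z ∈ closedBall (0 : ℂ) r, ‖v z - u z‖ ≤ M) {z : ℂ} (hz : ‖z‖ ≤ r) :
    ‖F z - K z‖ ≤ 2 * (1 - ‖m‖ ^ 2) * M / (1 - r) ^ 4 := by
  have hρ := rho_nonneg hm
  have h1r : 0 < 1 - r := by linarith
  have h1 := mvt (f := fun z => F z - K z) (C := 2 * (1 - ‖m‖ ^ 2) * M / (1 - r) ^ 4) hr
    (fun w hw => log_diff_deriv hm hv hu hF hK (mem_of_le hr hw)) (fun w hw => ?_) hz
  · simpa [hF.1, hK.1] using h1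
  · have hM' : ‖u w - v w‖ ≤ M := by
      rw [norm_sub_rev]
      exact hM w (by simpa using hw)
    have hM0 : 0 ≤ M := (norm_nonneg _).trans hM'
    have hw1 : ‖w‖ ≤ 1 := by linarith
    rw [norm_div, norm_mul, norm_mul, norm_mul, norm_mul, Complex.norm_real,
      Real.norm_of_nonneg hρ, Complex.norm_ofNat]
    have hnum : 2 * (1 - ‖m‖ ^ 2) * ‖w‖ * ‖u w - v w‖ ≤ 2 * (1 - ‖m‖ ^ 2) * M := by
      calc 2 * (1 - ‖m‖ ^ 2) * ‖w‖ * ‖u w - v w‖ ≤ 2 * (1 - ‖m‖ ^ 2) * 1 * M := by gcongr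
        _ = _ := by ring
    have hden : (1 - r) ^ 4 ≤ ‖Dn m v w‖ * ‖Dn m u w‖ := by
      calc (1 - r) ^ 4 = (1 - r) ^ 2 * (1 - r) ^ 2 := by ring
        _ ≤ _ := mul_le_mul (Dn_ge hm hv hr hw) (Dn_ge hm hu hr hw) (by positivity)
            (norm_nonneg _)
    exact div_le_div₀ (by positivity) hnum (by positivity) hden

lemma Dn_const_sub (m ζ ξ z : ℂ) :
    Dn m (fun _ => ζ) z - Dn m (fun _ => ξ) z = (conj m * z - z ^ 2) * (ζ - ξ) := by
  simp only [Dn]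
  ring

lemma Dn_const_sub_norm {m : ℂ} (hm : ‖m‖ ≤ 1) (ζ ξ : ℂ) {z : ℂ} (hz : ‖z‖ ≤ 1) :
    ‖Dn m (fun _ => ζ) z - Dn m (fun _ => ξ) z‖ ≤ 2 * ‖ζ - ξ‖ := by
  rw [Dn_const_sub, norm_mul]
  refine mul_le_mul_of_nonneg_right ?_ (norm_nonneg _)
  calc ‖conj m * z - z ^ 2‖ ≤ ‖conj m * z‖ + ‖z ^ 2‖ := norm_sub_le _ _
    _ = ‖m‖ * ‖z‖ + ‖z‖ ^ 2 := by rw [norm_mul, norm_pow, RCLike.norm_conj]
    _ ≤ 1 * 1 + 1 ^ 2 := by
        have := norm_nonneg m
        have := norm_nonneg z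
        gcongr
    _ = 2 := by norm_num

/-- I12a -/
lemma log_const_taylor {m : ℂ} (hm : ‖m‖ ≤ 1) {ζ ξ : ℂ} (hζ : ‖ζ‖ ≤ 1) (hξ : ‖ξ‖ ≤ 1)
    {F K G : ℂ → ℂ} (hF : IsLog m (fun _ => ζ) F) (hK : IsLog m (fun _ => ξ) K)
    (hG : IsG m (fun _ => ξ) G) {r : ℝ} (hr : r < 1) {z : ℂ} (hz : ‖z‖ ≤ r) :
    ‖F z - K z + 2 * (1 - ‖m‖ ^ 2 : ℝ) * (ζ - ξ) * G z‖
      ≤ 4 / (1 - r) ^ 6 * (1 - ‖m‖ ^ 2) * ‖ζ - ξ‖ ^ 2 := by
  have hρ := rho_nonneg hm
  have h1r : 0 < 1 - r := by linarith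
  have hsζ := schur_const hζ
  have hsξ := schur_const hξ
  have h1 := mvt (f := fun z => F z - K z + 2 * (1 - ‖m‖ ^ 2 : ℝ) * (ζ - ξ) * G z)
    (f' := fun w => 2 * (1 - ‖m‖ ^ 2 : ℝ) * (ζ - ξ) * w *
      (Dn m (fun _ => ζ) w - Dn m (fun _ => ξ) w) /
      (Dn m (fun _ => ζ) w * Dn m (fun _ => ξ) w ^ 2))
    (C := 4 / (1 - r) ^ 6 * (1 - ‖m‖ ^ 2) * ‖ζ - ξ‖ ^ 2) hr (fun w hw => ?_)
    (fun w hw => ?_) hz
  · simpa [hF.1, hK.1, hG.1] using h1
  · have hwb := mem_of_le hr hw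
    have h2 := (log_diff_deriv hm hsζ hsξ hF hK hwb).fun_add
      ((hG.2 w hwb).const_mul (2 * (1 - ‖m‖ ^ 2 : ℝ) * (ζ - ξ)))
    refine h2.congr_deriv ?_
    have h3 := Dn_ne hm hsζ hwb
    have h4 := Dn_ne hm hsξ hwb
    field_simp
    ring
  · have hw1 : ‖w‖ ≤ 1 := by linarith
    have hD := Dn_const_sub_norm hm ζ ξ hw1
    rw [norm_div, norm_mul, norm_mul, norm_mul, norm_mul, norm_mul, norm_pow, Complex.norm_real,
      Real.norm_of_nonneg hρ, Complex.norm_ofNat]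
    have hnum : 2 * (1 - ‖m‖ ^ 2) * ‖ζ - ξ‖ * ‖w‖ *
        ‖Dn m (fun _ => ζ) w - Dn m (fun _ => ξ) w‖ ≤ 4 * (1 - ‖m‖ ^ 2) * ‖ζ - ξ‖ ^ 2 := by
      calc 2 * (1 - ‖m‖ ^ 2) * ‖ζ - ξ‖ * ‖w‖ *
            ‖Dn m (fun _ => ζ) w - Dn m (fun _ => ξ) w‖
          ≤ 2 * (1 - ‖m‖ ^ 2) * ‖ζ - ξ‖ * 1 * (2 * ‖ζ - ξ‖) := by gcongr
        _ = _ := by ring
    have hden : (1 - r) ^ 6 ≤ ‖Dn m (fun _ => ζ) w‖ * ‖Dn m (fun _ => ξ) w‖ ^ 2 := by
      calc (1 - r) ^ 6 = (1 - r) ^ 2 * ((1 - r) ^ 2) ^ 2 := by ring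
        _ ≤ _ := mul_le_mul (Dn_ge hm hsζ hr hw)
            (pow_le_pow_left₀ (by positivity) (Dn_ge hm hsξ hr hw) 2) (by positivity)
            (norm_nonneg _)
    calc _ ≤ 4 * (1 - ‖m‖ ^ 2) * ‖ζ - ξ‖ ^ 2 / (1 - r) ^ 6 :=
          div_le_div₀ (by positivity) hnum (by positivity) hden
      _ = _ := by ring

/-- I12b -/
lemma G_const_lip {m : ℂ} (hm : ‖m‖ ≤ 1) {ζ ξ : ℂ} (hζ : ‖ζ‖ ≤ 1) (hξ : ‖ξ‖ ≤ 1)
    {G K : ℂ → ℂ} (hG : IsG m (fun _ => ζ) G) (hK : IsG m (fun _ => ξ) K)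
    {r : ℝ} (hr : r < 1) {z : ℂ} (hz : ‖z‖ ≤ r) :
    ‖G z - K z‖ ≤ 16 / (1 - r) ^ 8 * ‖ζ - ξ‖ := by
  have h1r : 0 < 1 - r := by linarith
  have hsζ := schur_const hζ
  have hsξ := schur_const hξ
  have h1 := mvt (f := fun z => G z - K z)
    (f' := fun w => w * ((Dn m (fun _ => ξ) w - Dn m (fun _ => ζ) w) *
      (Dn m (fun _ => ξ) w + Dn m (fun _ => ζ) w)) /
      (Dn m (fun _ => ζ) w ^ 2 * Dn m (fun _ => ξ) w ^ 2))
    (C := 16 / (1 - r) ^ 8 * ‖ζ - ξ‖) hr (fun w hw => ?_)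
    (fun w hw => ?_) hz
  · simpa [hG.1, hK.1] using h1
  · have hwb := mem_of_le hr hw
    have h2 := (hG.2 w hwb).fun_sub (hK.2 w hwb)
    refine h2.congr_deriv ?_
    have h3 := Dn_ne hm hsζ hwb
    have h4 := Dn_ne hm hsξ hwb
    field_simp
    ring
  · have hwb := mem_of_le hr hw
    have hw1 : ‖w‖ ≤ 1 := by linarith
    have hD := Dn_const_sub_norm hm ξ ζ hw1
    have hD4 := (Dn_lower hm hsζ hwb).2
    have hD4' := (Dn_lower hm hsξ hwb).2
    have hS : ‖Dn m (fun _ => ξ) w + Dn m (fun _ => ζ) w‖ ≤ 8 :=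
      (norm_add_le _ _).trans (by linarith)
    rw [norm_div, norm_mul, norm_mul, norm_mul, norm_pow, norm_pow]
    have hnum : ‖w‖ * (‖Dn m (fun _ => ξ) w - Dn m (fun _ => ζ) w‖ *
        ‖Dn m (fun _ => ξ) w + Dn m (fun _ => ζ) w‖) ≤ 16 * ‖ζ - ξ‖ := by
      calc ‖w‖ * (‖Dn m (fun _ => ξ) w - Dn m (fun _ => ζ) w‖ *
            ‖Dn m (fun _ => ξ) w + Dn m (fun _ => ζ) w‖)
          ≤ 1 * ((2 * ‖ξ - ζ‖) * 8) := by gcongr
        _ = 16 * ‖ζ - ξ‖ := by rw [norm_sub_rev]; ring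
    have hden : (1 - r) ^ 8 ≤ ‖Dn m (fun _ => ζ) w‖ ^ 2 * ‖Dn m (fun _ => ξ) w‖ ^ 2 := by
      calc (1 - r) ^ 8 = ((1 - r) ^ 2) ^ 2 * ((1 - r) ^ 2) ^ 2 := by ring
        _ ≤ _ := mul_le_mul (pow_le_pow_left₀ (by positivity) (Dn_ge hm hsζ hr hw) 2)
            (pow_le_pow_left₀ (by positivity) (Dn_ge hm hsξ hr hw) 2) (by positivity)
            (by positivity)
    calc _ ≤ 16 * ‖ζ - ξ‖ / (1 - r) ^ 8 :=
          div_le_div₀ (by positivity) hnum (by positivity) hden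
      _ = _ := by ring

end Pool.Agent.MP_8daf13.L2

end

section

open Complex Metric Filter Topology
open scoped ComplexConjugate
namespace Pool.Agent.MP_8daf13.L4

open L1 L3

lemma q_re_identity (m z ζ : ℂ) :
    ((1 + ζ * z ^ 2) * conj (1 - m * z + (conj m * z - z ^ 2) * ζ)).re =
      1 - normSq ζ * normSq z ^ 2 - (1 - normSq ζ * normSq z) * (m * z).re +
        (1 - normSq z) * (conj m * ζ * z).re := by
  obtain ⟨m1, m2⟩ := m
  obtain ⟨z1, z2⟩ := z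
  obtain ⟨u1, u2⟩ := ζ
  simp [pow_two, normSq_apply]
  ring

lemma q_re_pos {m z ζ : ℂ} (hm : ‖m‖ ≤ 1) (hz : ‖z‖ < 1) (hζ : ‖ζ‖ ≤ 1) :
    0 < ((1 + ζ * z ^ 2) * conj (1 - m * z + (conj m * z - z ^ 2) * ζ)).re := by
  rw [q_re_identity, normSq_eq_norm_sq, normSq_eq_norm_sq]
  set r := ‖z‖ with hr
  set x := ‖ζ‖ with hx
  have hr0 : 0 ≤ r := norm_nonneg _
  have hx0 : 0 ≤ x := norm_nonneg _
  have h1 : (m * z).re ≤ r := by
    refine (re_le_norm _).trans ?_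
    rw [norm_mul]
    nlinarith [norm_nonneg m]
  have h2 : -(x * r) ≤ (conj m * ζ * z).re := by
    have h3 := abs_re_le_norm (conj m * ζ * z)
    rw [norm_mul, norm_mul, RCLike.norm_conj] at h3
    have h4 : ‖m‖ * ‖ζ‖ * ‖z‖ ≤ x * r := by
      have : ‖m‖ * (‖ζ‖ * ‖z‖) ≤ 1 * (‖ζ‖ * ‖z‖) :=
        mul_le_mul_of_nonneg_right hm (mul_nonneg hx0 hr0)
      calc ‖m‖ * ‖ζ‖ * ‖z‖ = ‖m‖ * (‖ζ‖ * ‖z‖) := by ring
        _ ≤ 1 * (‖ζ‖ * ‖z‖) := this
        _ = x * r := by rw [one_mul]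
    have := neg_abs_le (conj m * ζ * z).re
    linarith
  have hxr : x * r < 1 := by nlinarith
  have hxr0 : 0 ≤ x * r := mul_nonneg hx0 hr0
  have h5 : 0 ≤ 1 - x ^ 2 * r ^ 2 := by nlinarith
  have h6 : 0 ≤ 1 - r ^ 2 := by nlinarith
  have h7 : 0 < (1 - r) * (1 - x * r) * (1 - x * r ^ 2) := by
    have h8 : x * r ^ 2 < 1 := by nlinarith
    have h9 : 0 < 1 - r := by linarith
    have h10 : 0 < 1 - x * r := by linarith
    have h11 : 0 < 1 - x * r ^ 2 := by linarith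
    positivity
  have h12 := mul_le_mul_of_nonneg_left h1 h5
  have h13 := mul_le_mul_of_nonneg_left h2 h6
  nlinarith

lemma schur_const {ζ : ℂ} (hζ : ‖ζ‖ ≤ 1) : Schur (fun _ => ζ) :=
  ⟨differentiableOn_const _, fun _ _ => hζ⟩

/-- I6 -/
lemma exists_q {m ζ : ℂ} (hm : ‖m‖ ≤ 1) (hζ : ‖ζ‖ ≤ 1) {G : ℂ → ℂ}
    (hG : IsG m (fun _ => ζ) G) :
    ∃ q : ℂ → ℂ, DifferentiableOn ℂ q (ball 0 1) ∧ q 0 = 1 / 2 ∧
      (∀ z ∈ ball (0 : ℂ) 1, 0 < (q z).re) ∧
      ∀ z ∈ ball (0 : ℂ) 1, G z * Dn m (fun _ => ζ) z ^ 2 = q z * z ^ 2 := by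
  obtain ⟨hG0, hGd⟩ := hG
  have hball : ball (0 : ℂ) 1 ∈ 𝓝 (0 : ℂ) := isOpen_ball.mem_nhds (mem_ball_self one_pos)
  have h0 : (0 : ℂ) ∈ ball (0 : ℂ) 1 := mem_ball_self one_pos
  set D : ℂ → ℂ := Dn m (fun _ => ζ) with hD
  have hDne : ∀ z ∈ ball (0 : ℂ) 1, D z ≠ 0 := by
    intro z hz h
    have h1 := (Dn_lower hm (schur_const hζ) hz).1
    rw [mem_ball_zero_iff] at hz
    have h2 : ‖Dn m (fun _ => ζ) z‖ = 0 := by
      rw [norm_eq_zero]; exact h
    rw [h2] at h1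
    have : 0 < (1 - ‖z‖) ^ 2 := by
      have : 0 < 1 - ‖z‖ := by linarith
      positivity
    linarith
  have hDd : ∀ z, HasDerivAt D (-m + (conj m - 2 * z) * ζ) z := by
    intro z
    have h1 : HasDerivAt (fun z : ℂ => 1 - m * z + (conj m * z - z ^ 2) * ζ)
        (-m + (conj m - 2 * z) * ζ) z := by
      have h2 := ((hasDerivAt_id z).const_mul m).const_sub 1
      have h3 := (((hasDerivAt_id z).const_mul (conj m)).sub (hasDerivAt_pow 2 z)).mul_const ζ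
      have h4 := h2.add h3
      refine (h4.congr_deriv ?_)
      simp
    exact h1
  have hDdiff : DifferentiableOn ℂ D (ball 0 1) :=
    fun z _ => (hDd z).differentiableAt.differentiableWithinAt
  have hGdiff : DifferentiableOn ℂ G (ball 0 1) :=
    fun z hz => (hGd z hz).differentiableAt.differentiableWithinAt
  set g1 : ℂ → ℂ := dslope G 0 with hg1
  have hg1d : DifferentiableOn ℂ g1 (ball 0 1) :=
    (Complex.differentiableOn_dslope hball).2 hGdiff
  have hg10 : g1 0 = 0 := by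
    rw [hg1, dslope_same, (hGd 0 h0).deriv, zero_div]
  set g2 : ℂ → ℂ := dslope g1 0 with hg2
  have hg2d : DifferentiableOn ℂ g2 (ball 0 1) :=
    (Complex.differentiableOn_dslope hball).2 hg1d
  have hGg : ∀ z, G z = z ^ 2 * g2 z := by
    intro z
    by_cases hz : z = 0
    · subst hz
      rw [hG0]; simp
    · rw [hg2, dslope_of_ne _ hz, hg1, slope_def_field, ← hg1, hg10, hg1, dslope_of_ne _ hz,
        slope_def_field, hG0]
      field_simp
      simp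
      ring
  -- the differential equation of g2
  have hg2at : ∀ z ∈ ball (0 : ℂ) 1, HasDerivAt g2 (deriv g2 z) z := fun z hz =>
    (hg2d.differentiableAt (isOpen_ball.mem_nhds hz)).hasDerivAt
  have hode : ∀ z ∈ ball (0 : ℂ) 1, z ≠ 0 → 2 * g2 z + z * deriv g2 z = 1 / D z ^ 2 := by
    intro z hz hz0
    have h1 : HasDerivAt (fun w => w ^ 2 * g2 w) (2 * z * g2 z + z ^ 2 * deriv g2 z) z := by
      refine ((hasDerivAt_pow 2 z).mul (hg2at z hz)).congr_deriv ?_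
      simp
    have h2 : G = fun w => w ^ 2 * g2 w := funext hGg
    have h3 := hGd z hz
    rw [h2] at h3
    have h4 := h1.unique h3
    have h5 : z * (2 * g2 z + z * deriv g2 z) = z * (1 / D z ^ 2) := by
      rw [mul_one_div, ← h4]
      ring
    exact mul_left_cancel₀ hz0 h5
  have hcont : ContinuousAt (fun z => 2 * g2 z + z * deriv g2 z - 1 / D z ^ 2) 0 := by
    have h1 : ContinuousAt g2 0 := (hg2at 0 h0).continuousAt
    have h2 : ContinuousAt (deriv g2) 0 := by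
      have h3 : AnalyticAt ℂ g2 0 := hg2d.analyticAt hball
      exact h3.deriv.continuousAt
    have h4 : ContinuousAt D 0 := (hDd 0).continuousAt
    exact ((continuousAt_const.mul h1).add (continuousAt_id.mul h2)).sub
      (continuousAt_const.div (h4.pow 2) (pow_ne_zero 2 (hDne 0 h0)))
  have hD0 : D 0 = 1 := by simp [hD, Dn]
  have hg20 : g2 0 = 1 / 2 := by
    have h1 : Tendsto (fun z => 2 * g2 z + z * deriv g2 z - 1 / D z ^ 2) (𝓝[≠] 0)
        (𝓝 (2 * g2 0 + 0 * deriv g2 0 - 1 / D 0 ^ 2)) :=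
      hcont.tendsto.mono_left nhdsWithin_le_nhds
    have h2 : Tendsto (fun z => 2 * g2 z + z * deriv g2 z - 1 / D z ^ 2) (𝓝[≠] 0) (𝓝 0) := by
      refine (tendsto_const_nhds (x := (0 : ℂ))).congr' ?_
      have h3 : ∀ᶠ z in 𝓝[≠] (0 : ℂ), z ∈ ball (0 : ℂ) 1 := nhdsWithin_le_nhds hball
      filter_upwards [h3, self_mem_nhdsWithin] with z hz hz0
      rw [hode z hz hz0, sub_self]
    have h4 := tendsto_nhds_unique h1 h2
    rw [hD0] at h4
    have h5 : 2 * g2 0 = 1 := by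
      have : 2 * g2 0 + 0 * deriv g2 0 - 1 / 1 ^ 2 = 2 * g2 0 - 1 := by ring
      rw [this] at h4
      linear_combination h4
    rw [eq_div_iff two_ne_zero]
    linear_combination h5
  have hode' : ∀ z ∈ ball (0 : ℂ) 1, 2 * g2 z + z * deriv g2 z = 1 / D z ^ 2 := by
    intro z hz
    by_cases hz0 : z = 0
    · subst hz0
      rw [hg20, hD0]
      norm_num
    · exact hode z hz hz0
  set q : ℂ → ℂ := fun z => g2 z * D z ^ 2 with hq
  have hqd : DifferentiableOn ℂ q (ball 0 1) := hg2d.mul (hDdiff.pow 2)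
  refine ⟨q, hqd, by simp [hq, hg20, hD0], ?_, fun z _ => ?_⟩
  · refine first_touch hqd ?_ ?_
    · simp [hq, hg20, hD0]
    · intro z hz hz0 hre k hk hk'
      have hDz := hDne z hz
      have h1 : HasDerivAt q (deriv g2 z * D z ^ 2 +
          g2 z * (2 * D z * (-m + (conj m - 2 * z) * ζ))) z := by
        refine ((hg2at z hz).mul ((hDd z).pow 2)).congr_deriv ?_
        simp
      rw [h1.deriv] at hk'
      have h2 := hode' z hz
      have hDdef : D z = 1 - m * z + (conj m * z - z ^ 2) * ζ := rfl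
      -- q E = 1 + k
      have h3 : q z * (2 * (1 + ζ * z ^ 2)) = (1 + (k : ℂ)) * D z := by
        have h4 : z * deriv g2 z = 1 / D z ^ 2 - 2 * g2 z := by linear_combination h2
        have h5 : z * deriv g2 z * D z ^ 2 = 1 - 2 * g2 z * D z ^ 2 := by
          rw [h4]
          field_simp
        have h6 : z * (deriv g2 z * D z ^ 2 +
            g2 z * (2 * D z * (-m + (conj m - 2 * z) * ζ))) =
            1 - 2 * g2 z * D z * (1 + ζ * z ^ 2) := by
          have h7 : z * (deriv g2 z * D z ^ 2 + g2 z * (2 * D z * (-m + (conj m - 2 * z) * ζ))) =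
              z * deriv g2 z * D z ^ 2 + 2 * g2 z * D z * (z * (-m + (conj m - 2 * z) * ζ)) := by
            ring
          rw [h7, h5]
          have h8 : z * (-m + (conj m - 2 * z) * ζ) = D z - (1 + ζ * z ^ 2) := by
            rw [hDdef]; ring
          rw [h8]
          ring
        rw [h6] at hk'
        have h9 : 2 * g2 z * D z * (1 + ζ * z ^ 2) = 1 + (k : ℂ) := by linear_combination -hk'
        simp only [hq]
        linear_combination D z * h9
      have hpos := q_re_pos hm (mem_ball_zero_iff.1 hz) hζ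
      rw [← hDdef] at hpos
      -- multiply by conj D
      have h10 : q z * ((1 + ζ * z ^ 2) * conj (D z)) = (((1 + k) / 2 * normSq (D z) : ℝ) : ℂ) := by
        have h11 : D z * conj (D z) = (normSq (D z) : ℂ) := mul_conj (D z)
        push_cast
        rw [← h11]
        linear_combination (1 / 2 * conj (D z)) * h3
      have him := congrArg Complex.im h10
      have hree := congrArg Complex.re h10
      rw [ofReal_im, mul_im, hre, zero_mul, zero_add] at him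
      have hqi : (q z).im = 0 := by
        rcases mul_eq_zero.1 him with h | h
        · exact h
        · exact absurd h hpos.ne'
      rw [ofReal_re, mul_re, hre, hqi, zero_mul, zero_mul, sub_zero] at hree
      have hn : 0 < normSq (D z) := normSq_pos.2 hDz
      have : 0 < (1 + k) / 2 * normSq (D z) := by positivity
      linarith
  · rw [hGg z]
    simp only [hq]
    ring

end Pool.Agent.MP_8daf13.L4

end

section

open Complex Metric Filter Topology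
open scoped ComplexConjugate
namespace Pool.Agent.MP_8daf13.L5

open L1 L3

/-- I7 -/
lemma exists_a {m ζ : ℂ} (hm : ‖m‖ ≤ 1) (hζ : ‖ζ‖ ≤ 1) {G : ℂ → ℂ}
    (hG : IsG m (fun _ => ζ) G) {q : ℂ → ℂ} (hq : DifferentiableOn ℂ q (ball 0 1))
    (hq0 : q 0 = 1 / 2) (hqre : ∀ z ∈ ball (0 : ℂ) 1, 0 < (q z).re)
    (hqG : ∀ z ∈ ball (0 : ℂ) 1, G z * Dn m (fun _ => ζ) z ^ 2 = q z * z ^ 2)
    {U E : ℂ → ℂ} (hU : DifferentiableOn ℂ U (ball 0 1)) (hUre : ∀ z ∈ ball (0 : ℂ) 1, 0 ≤ (U z).re)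
    (hE0 : E 0 = 0)
    (hE : ∀ z ∈ ball (0 : ℂ) 1, HasDerivAt E (U z * (z / Dn m (fun _ => ζ) z ^ 2)) z) :
    ∃ a : ℂ → ℂ, DifferentiableOn ℂ a (ball 0 1) ∧ a 0 = U 0 ∧
      (∀ z ∈ ball (0 : ℂ) 1, 0 ≤ (a z).re) ∧ ∀ z ∈ ball (0 : ℂ) 1, E z = a z * G z := by
  have h0b : (0 : ℂ) ∈ ball (0 : ℂ) 1 := by simp
  have hnhds : ball (0 : ℂ) 1 ∈ 𝓝 (0 : ℂ) := isOpen_ball.mem_nhds h0b
  have hS : Schur (fun _ => ζ) := ⟨differentiableOn_const _, fun _ _ => hζ⟩
  set D : ℂ → ℂ := Dn m (fun _ => ζ) with hD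
  have hDne : ∀ z ∈ ball (0 : ℂ) 1, D z ≠ 0 := by
    intro z hz h0
    have h1 := (Dn_lower hm hS hz).1
    rw [← hD, h0, norm_zero] at h1
    have h2 : ‖z‖ < 1 := by simpa using hz
    have h3 : 0 < (1 - ‖z‖) ^ 2 := by
      have : 0 < 1 - ‖z‖ := by linarith
      positivity
    linarith
  have hDdiff : Differentiable ℂ D := by
    have : D = fun z => 1 - m * z + (conj m * z - z ^ 2) * ζ := rfl
    rw [this]
    fun_prop
  have hD0 : D 0 = 1 := by simp [hD, Dn]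
  have hqne : ∀ z ∈ ball (0 : ℂ) 1, q z ≠ 0 := by
    intro z hz h0
    have := hqre z hz
    rw [h0] at this
    simp at this
  -- division of `E` by `z ^ 2`
  have hEd : DifferentiableOn ℂ E (ball 0 1) :=
    fun z hz => (hE z hz).differentiableAt.differentiableWithinAt
  set e1 : ℂ → ℂ := dslope E 0 with he1
  set e2 : ℂ → ℂ := dslope e1 0 with he2
  have he1d : DifferentiableOn ℂ e1 (ball 0 1) := (Complex.differentiableOn_dslope hnhds).mpr hEd
  have he2d : DifferentiableOn ℂ e2 (ball 0 1) := (Complex.differentiableOn_dslope hnhds).mpr he1d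
  have he10 : e1 0 = 0 := by
    rw [he1, dslope_same, (hE 0 h0b).deriv]
    simp
  have hEe1 : ∀ z, E z = z * e1 z := by
    intro z
    have h1 := sub_smul_dslope E 0 z
    rw [hE0, sub_zero, sub_zero, smul_eq_mul] at h1
    exact h1.symm
  have he1e2 : ∀ z, e1 z = z * e2 z := by
    intro z
    have h1 := sub_smul_dslope e1 0 z
    rw [he10, sub_zero, sub_zero, smul_eq_mul] at h1
    exact h1.symm
  have hEe2 : ∀ z, E z = z ^ 2 * e2 z := by
    intro z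
    rw [hEe1, he1e2]
    ring
  have he2at : ∀ z ∈ ball (0 : ℂ) 1, DifferentiableAt ℂ e2 z := fun z hz =>
    he2d.differentiableAt (isOpen_ball.mem_nhds hz)
  -- the value of `e2` at `0`
  have hpunct : ∀ z ∈ ball (0 : ℂ) 1, z ≠ 0 → 2 * e2 z + z * deriv e2 z = U z / D z ^ 2 := by
    intro z hz hz0
    have h1 : HasDerivAt (fun z => z ^ 2 * e2 z) (2 * z * e2 z + z ^ 2 * deriv e2 z) z := by
      have h2 := (hasDerivAt_pow 2 z).mul (he2at z hz).hasDerivAt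
      refine h2.congr_deriv ?_
      simp
    have h2 : HasDerivAt E (2 * z * e2 z + z ^ 2 * deriv e2 z) z := by
      have h3 : E = fun z => z ^ 2 * e2 z := funext hEe2
      rw [h3]
      exact h1
    have h3 := h2.unique (hE z hz)
    have h4 : z * (2 * e2 z + z * deriv e2 z) = z * (U z / D z ^ 2) := by
      calc z * (2 * e2 z + z * deriv e2 z) = 2 * z * e2 z + z ^ 2 * deriv e2 z := by ring
        _ = U z * (z / D z ^ 2) := h3
        _ = z * (U z / D z ^ 2) := by ring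
    exact mul_left_cancel₀ hz0 h4
  have he20 : 2 * e2 0 = U 0 := by
    have hde2 : DifferentiableOn ℂ (deriv e2) (ball 0 1) := he2d.deriv isOpen_ball
    have hc1 : ContinuousAt (fun z => 2 * e2 z + z * deriv e2 z) 0 := by
      have h1 := (he2at 0 h0b).continuousAt
      have h2 := (hde2.differentiableAt hnhds).continuousAt
      exact (continuousAt_const.mul h1).add (continuousAt_id.mul h2)
    have hc2 : ContinuousAt (fun z => U z / D z ^ 2) 0 := by
      have h1 := (hU.differentiableAt hnhds).continuousAt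
      have h2 : ContinuousAt D 0 := hDdiff.continuous.continuousAt
      exact h1.div (h2.pow 2) (by rw [hD0]; norm_num)
    have ht1 : Tendsto (fun z => 2 * e2 z + z * deriv e2 z) (𝓝[≠] (0 : ℂ))
        (𝓝 (2 * e2 0 + 0 * deriv e2 0)) := hc1.tendsto.mono_left nhdsWithin_le_nhds
    have ht2 : Tendsto (fun z => U z / D z ^ 2) (𝓝[≠] (0 : ℂ)) (𝓝 (U 0 / D 0 ^ 2)) :=
      hc2.tendsto.mono_left nhdsWithin_le_nhds
    have hev : ∀ᶠ z in 𝓝[≠] (0 : ℂ), 2 * e2 z + z * deriv e2 z = U z / D z ^ 2 := by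
      filter_upwards [nhdsWithin_le_nhds hnhds, self_mem_nhdsWithin] with z hz hz0
      exact hpunct z hz hz0
    have h3 := tendsto_nhds_unique (ht1.congr' hev) ht2
    rw [hD0] at h3
    simpa using h3
  -- the quotient
  set a : ℂ → ℂ := fun z => e2 z * D z ^ 2 / q z with ha
  have had : DifferentiableOn ℂ a (ball 0 1) :=
    (he2d.mul (hDdiff.differentiableOn.pow 2)).div hq hqne
  have ha0 : a 0 = U 0 := by
    simp only [ha]
    rw [hD0, hq0, ← he20]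
    ring
  have haG : ∀ z ∈ ball (0 : ℂ) 1, E z = a z * G z := by
    intro z hz
    have h1 := hqG z hz
    have h2 := hqne z hz
    simp only [ha]
    rw [hEe2, div_mul_eq_mul_div, eq_div_iff h2]
    calc z ^ 2 * e2 z * q z = e2 z * (q z * z ^ 2) := by ring
      _ = e2 z * (G z * D z ^ 2) := by rw [h1]
      _ = e2 z * D z ^ 2 * G z := by ring
  refine ⟨a, had, ha0, ?_, haG⟩
  -- the differential equation
  have hode : ∀ z ∈ ball (0 : ℂ) 1, z ≠ 0 → a z + q z * (z * deriv a z) = U z := by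
    intro z hz hz0
    have hda : HasDerivAt a (deriv a z) z :=
      (had.differentiableAt (isOpen_ball.mem_nhds hz)).hasDerivAt
    have h1 : HasDerivAt (fun w => a w * G w) (deriv a z * G z + a z * (z / D z ^ 2)) z :=
      hda.mul (hG.2 z hz)
    have h2 : E =ᶠ[𝓝 z] fun w => a w * G w := by
      filter_upwards [isOpen_ball.mem_nhds hz] with w hw
      exact haG w hw
    have h3 := (h1.congr_of_eventuallyEq h2).unique (hE z hz)
    have h4 := hDne z hz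
    have h5 := hqG z hz
    have h6 : deriv a z * (G z * D z ^ 2) + a z * z = U z * z := by
      have h7 : (deriv a z * G z + a z * (z / D z ^ 2)) * D z ^ 2 =
          U z * (z / D z ^ 2) * D z ^ 2 := by
        rw [h3]
      field_simp at h7
      linear_combination h7
    rw [h5] at h6
    have h8 : z * (a z + q z * (z * deriv a z)) = z * U z := by linear_combination h6
    exact mul_left_cancel₀ hz0 h8
  intro z hz
  by_contra hneg
  push Not at hneg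
  -- the touching argument
  set δ : ℝ := -(a z).re with hδ
  have hδ0 : 0 < δ := by rw [hδ]; linarith
  have hft := first_touch (f := fun w => a w + (δ : ℂ)) (had.add (differentiableOn_const _))
    (by
      simp only [add_re, ofReal_re, ha0]
      have := hUre 0 h0b
      linarith)
    (by
      intro w hw hw0 hre k hk hcontra
      have h1 : deriv (fun w => a w + (δ : ℂ)) w = deriv a w := deriv_add_const _
      rw [h1] at hcontra
      have h2 := hode w hw hw0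
      rw [hcontra] at h2
      have h3 := hUre w hw
      rw [← h2] at h3
      simp only [add_re, ofReal_re] at hre
      have h4 := hqre w hw
      simp only [add_re, mul_re, neg_re, neg_im, ofReal_re, ofReal_im, neg_zero, mul_zero,
        sub_zero] at h3
      nlinarith [mul_nonneg hk h4.le])
  have := hft z hz
  simp only [add_re, ofReal_re, hδ] at this
  linarith

end Pool.Agent.MP_8daf13.L5

end

section

open Complex Metric Filter Topology
open scoped ComplexConjugate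

namespace Pool.Agent.MP_8daf13.L7

open L1 L2 L4 L5 L6

lemma p_mem {p : ℝ} (hp : 0 < p) (hp1 : p < 1) : (p : ℂ) ∈ ball (0 : ℂ) 1 := by
  rw [mem_ball_zero_iff, Complex.norm_real, Real.norm_of_nonneg hp.le]
  exact hp1

lemma p_norm {p : ℝ} (hp : 0 < p) : ‖(p : ℂ)‖ = p := by
  rw [Complex.norm_real, Real.norm_of_nonneg hp.le]

lemma schur_const {ζ : ℂ} (hζ : ‖ζ‖ ≤ 1) : Schur (fun _ => ζ) :=
  ⟨differentiableOn_const ζ, fun _ _ => hζ⟩

/-- the denominator does not vanish -/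
lemma Dn_ne {m : ℂ} (hm : ‖m‖ ≤ 1) {v : ℂ → ℂ} (hv : Schur v) {z : ℂ}
    (hz : z ∈ ball (0 : ℂ) 1) : Dn m v z ≠ 0 := by
  have h := (Dn_lower hm hv hz).1
  have hz' : ‖z‖ < 1 := mem_ball_zero_iff.1 hz
  have h1 : 0 < (1 - ‖z‖) ^ 2 := by
    have : 0 < 1 - ‖z‖ := by linarith
    positivity
  intro h0
  rw [h0, norm_zero] at h
  linarith

/-- I6b -/
lemma G_lower {p : ℝ} (hp : 0 < p) (hp1 : p < 1) {m ζ : ℂ} (hm : ‖m‖ ≤ 1) (hζ : ‖ζ‖ ≤ 1)
    {G : ℂ → ℂ} (hG : IsG m (fun _ => ζ) G) : (1 - p) * p ^ 2 / 64 ≤ ‖G p‖ := by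
  obtain ⟨q, hq, hq0, hqre, hqG⟩ := exists_q hm hζ hG
  have hpb := p_mem hp hp1
  have hh := (harnack hq (fun z hz => (hqre z hz).le) hpb).2
  rw [p_norm hp, hq0] at hh
  have h12 : ((1 / 2 : ℂ)).re = 1 / 2 := by norm_num
  rw [h12] at hh
  have hD := (Dn_lower hm (schur_const hζ) hpb).2
  have hD0 : 0 ≤ ‖Dn m (fun _ => ζ) (p : ℂ)‖ := norm_nonneg _
  have he := congrArg norm (hqG _ hpb)
  rw [norm_mul, norm_mul, norm_pow, norm_pow, p_norm hp] at he
  have hre : (q p).re ≤ ‖q p‖ := Complex.re_le_norm _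
  have h2 : (1 - p) / 4 ≤ (1 - p) / (1 + p) * (1 / 2) := by
    rw [div_mul_eq_mul_div, div_le_div_iff₀ (by norm_num) (by linarith)]
    nlinarith
  have h3 : (1 - p) / 4 ≤ ‖q p‖ := by linarith
  have h4 : ‖Dn m (fun _ => ζ) (p : ℂ)‖ ^ 2 ≤ 16 := by nlinarith
  have h5 : ‖q p‖ * p ^ 2 ≤ ‖G p‖ * 16 := by
    rw [← he]
    exact mul_le_mul_of_nonneg_left h4 (norm_nonneg _)
  have h6 : (1 - p) / 4 * p ^ 2 ≤ ‖q p‖ * p ^ 2 :=
    mul_le_mul_of_nonneg_right h3 (by positivity)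
  linarith

/-- the algebraic inequality -/
lemma re_ineq (a b s : ℂ) (hab : ‖b‖ ≤ ‖a‖) (hs : ‖s‖ ≤ 1) :
    0 ≤ ((1 - s) * (a + b) * conj (a + b * s)).re := by
  have e : ((1 - s) * (a + b) * conj (a + b * s)).re
      = (a.re ^ 2 + a.im ^ 2) * (1 - s.re) + (b.re ^ 2 + b.im ^ 2) * (s.re - s.re ^ 2 - s.im ^ 2)
        + (a.re * b.re + a.im * b.im) * (1 - s.re ^ 2 - s.im ^ 2) := by
    simp only [Complex.mul_re, Complex.mul_im, Complex.add_re, Complex.add_im, Complex.sub_re,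
      Complex.sub_im, Complex.one_re, Complex.one_im, Complex.conj_re, Complex.conj_im]
    ring
  have ha2 : a.re ^ 2 + a.im ^ 2 = ‖a‖ ^ 2 := by
    rw [Complex.sq_norm, Complex.normSq_apply]; ring
  have hb2 : b.re ^ 2 + b.im ^ 2 = ‖b‖ ^ 2 := by
    rw [Complex.sq_norm, Complex.normSq_apply]; ring
  have hs2 : s.re ^ 2 + s.im ^ 2 = ‖s‖ ^ 2 := by
    rw [Complex.sq_norm, Complex.normSq_apply]; ring
  have hc : -(‖a‖ * ‖b‖) ≤ a.re * b.re + a.im * b.im := by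
    have h1 : (a.re * b.re + a.im * b.im) ^ 2 ≤ (‖a‖ * ‖b‖) ^ 2 := by
      rw [mul_pow, ← ha2, ← hb2]
      nlinarith [sq_nonneg (a.re * b.im - a.im * b.re)]
    have h2 := abs_le_of_sq_le_sq h1 (by positivity)
    exact (abs_le.1 h2).1
  rw [e, ha2, hb2]
  have hu0 : 0 ≤ 1 - s.re ^ 2 - s.im ^ 2 := by
    have : ‖s‖ ^ 2 ≤ 1 := by nlinarith [norm_nonneg s]
    linarith
  have hut : 1 - s.re ^ 2 - s.im ^ 2 ≤ 2 * (1 - s.re) := by
    nlinarith [sq_nonneg (1 - s.re), sq_nonneg s.im]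
  have ht0 : 0 ≤ 1 - s.re := by linarith
  set u := 1 - s.re ^ 2 - s.im ^ 2 with hu
  set t := 1 - s.re with ht
  have e2 : s.re - s.re ^ 2 - s.im ^ 2 = u - t := by rw [hu, ht]; ring
  rw [e2]
  have h3 : -(‖a‖ * ‖b‖) * u ≤ (a.re * b.re + a.im * b.im) * u :=
    mul_le_mul_of_nonneg_right hc hu0
  have h4 : (‖a‖ - ‖b‖) * ‖b‖ * u ≤ (‖a‖ - ‖b‖) * ‖b‖ * (2 * t) :=
    mul_le_mul_of_nonneg_left hut (mul_nonneg (by linarith) (norm_nonneg _))
  have h5 : 0 ≤ (‖a‖ - ‖b‖) ^ 2 * t := mul_nonneg (sq_nonneg _) ht0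
  nlinarith

/-- comparison of the two coefficients of the denominator -/
lemma coef_le {m : ℂ} (hm : ‖m‖ ≤ 1) {z : ℂ} (hz : z ∈ ball (0 : ℂ) 1) :
    ‖conj m * z - z ^ 2‖ ≤ ‖1 - m * z‖ := by
  by_contra hlt
  push Not at hlt
  have hb : 0 < ‖conj m * z - z ^ 2‖ := lt_of_le_of_lt (norm_nonneg _) hlt
  have hb0 : conj m * z - z ^ 2 ≠ 0 := norm_pos_iff.1 hb
  have hc : ‖-(1 - m * z) / (conj m * z - z ^ 2)‖ ≤ 1 := by
    rw [norm_div, norm_neg, div_le_one hb]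
    exact hlt.le
  have h := Dn_ne hm (schur_const hc) hz
  apply h
  simp only [Dn]
  rw [mul_div_cancel₀ _ hb0]
  ring

lemma Dn_eq (m : ℂ) (v : ℂ → ℂ) (z : ℂ) : Dn m v z = 1 - m * z + (conj m * z - z ^ 2) * v z := rfl

lemma re_U {m ξ : ℂ} (hm : ‖m‖ ≤ 1) (hξ0 : ξ ≠ 0) (hξ : ‖ξ‖ ≤ 1) {v : ℂ → ℂ} (hv : Schur v)
    {z : ℂ} (hz : z ∈ ball (0 : ℂ) 1) (hvξ : ‖v z‖ ≤ ‖ξ‖) :
    0 ≤ ((1 - v z / ξ) * Dn m (fun _ => ξ) z / Dn m v z).re := by
  have e1 : Dn m (fun _ => ξ) z = (1 - m * z) + (conj m * z - z ^ 2) * ξ := rfl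
  have e2 : Dn m v z = (1 - m * z) + (conj m * z - z ^ 2) * ξ * (v z / ξ) := by
    rw [Dn_eq]
    field_simp
  have hs : ‖v z / ξ‖ ≤ 1 := by
    rw [norm_div]
    exact div_le_one_of_le₀ hvξ (norm_nonneg _)
  have hab : ‖(conj m * z - z ^ 2) * ξ‖ ≤ ‖1 - m * z‖ := by
    rw [norm_mul]
    refine (mul_le_mul_of_nonneg_left hξ (norm_nonneg _)).trans ?_
    rw [mul_one]
    exact coef_le hm hz
  have h := re_ineq (1 - m * z) ((conj m * z - z ^ 2) * ξ) (v z / ξ) hab hs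
  rw [← e2, ← e1] at h
  have hne := Dn_ne hm hv hz
  have e3 : (1 - v z / ξ) * Dn m (fun _ => ξ) z / Dn m v z
      = ((1 - v z / ξ) * Dn m (fun _ => ξ) z * conj (Dn m v z))
        / ((Complex.normSq (Dn m v z) : ℝ) : ℂ) := by
    rw [← Complex.mul_conj]
    have hne' : conj (Dn m v z) ≠ 0 := by
      intro h0
      exact hne ((map_eq_zero _).1 h0)
    field_simp
  rw [e3, Complex.div_ofReal_re]
  exact div_nonneg h (Complex.normSq_nonneg _)

/-- I9, general form -/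
lemma half_plane_gen {p : ℝ} (hp : 0 < p) (hp1 : p < 1) {m ξ : ℂ} (hm : ‖m‖ ≤ 1) (hξ0 : ξ ≠ 0)
    (hξ : ‖ξ‖ ≤ 1) {v F K G : ℂ → ℂ} (hv : Schur v) (hvξ : ∀ z ∈ ball (0 : ℂ) 1, ‖v z‖ ≤ ‖ξ‖)
    (hF : IsLog m v F) (hK : IsLog m (fun _ => ξ) K) (hG : IsG m (fun _ => ξ) G) :
    ∃ a : ℂ, F p - K p = 2 * (1 - ‖m‖ ^ 2 : ℝ) * ξ * G p * a ∧
      (1 - p) / (1 + p) * (1 - (v 0 / ξ).re) ≤ a.re ∧
      ‖a - (1 - v 0 / ξ)‖ ≤ 2 * p / (1 - p) * (1 - (v 0 / ξ).re) := by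
  have hpb := p_mem hp hp1
  have h0b : (0 : ℂ) ∈ ball (0 : ℂ) 1 := by simp
  have hξ1 : ‖ξ‖ ≤ 1 := hξ
  have hu := schur_const hξ1
  have hs0 : (v 0 / ξ).re ≤ 1 := by
    refine (Complex.re_le_norm _).trans ?_
    rw [norm_div]
    exact div_le_one_of_le₀ (hvξ 0 h0b) (norm_nonneg _)
  by_cases hρ : 1 - ‖m‖ ^ 2 = 0
  · refine ⟨1 - v 0 / ξ, ?_, ?_, ?_⟩
    · have hd : ∀ z ∈ ball (0 : ℂ) 1, HasDerivAt (fun z => F z - K z) 0 z := by
        intro z hz
        have h := log_diff_deriv hm hv hu hF hK hz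
        rw [hρ] at h
        convert h using 1
        simp
      have hc := (convex_ball (0 : ℂ) 1).norm_image_sub_le_of_norm_hasDerivWithin_le
        (f := fun z => F z - K z) (f' := fun _ => 0) (C := 0)
        (fun z hz => (hd z hz).hasDerivWithinAt) (fun z _ => by simp) h0b hpb
      simp only [hF.1, hK.1, sub_zero, zero_mul] at hc
      have hc' : F p - K p = 0 := norm_le_zero_iff.1 hc
      rw [hc', hρ]
      simp
    · rw [Complex.sub_re, Complex.one_re]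
      have h1 : (1 - p) / (1 + p) ≤ 1 := by
        rw [div_le_one (by linarith)]; linarith
      have h2 : 0 ≤ 1 - (v 0 / ξ).re := by linarith
      nlinarith
    · rw [sub_self, norm_zero]
      apply mul_nonneg
      · apply div_nonneg <;> linarith
      · linarith
  · have hρc : ((1 - ‖m‖ ^ 2 : ℝ) : ℂ) ≠ 0 := by exact_mod_cast hρ
    obtain ⟨q, hq, hq0, hqre, hqG⟩ := exists_q hm hξ1 hG
    set U : ℂ → ℂ := fun z => (1 - v z / ξ) * Dn m (fun _ => ξ) z / Dn m v z with hUdef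
    set E : ℂ → ℂ := fun z => (F z - K z) / (2 * (1 - ‖m‖ ^ 2 : ℝ) * ξ) with hEdef
    have hDd : ∀ w : ℂ → ℂ, DifferentiableOn ℂ w (ball 0 1) →
        DifferentiableOn ℂ (fun z => Dn m w z) (ball 0 1) := by
      intro w hw
      unfold Dn
      exact ((differentiableOn_const 1).sub ((differentiableOn_const m).mul
        differentiableOn_id)).add ((((differentiableOn_const _).mul differentiableOn_id).sub
        (differentiableOn_id.pow 2)).mul hw)
    have hUd : DifferentiableOn ℂ U (ball 0 1) := by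
      rw [hUdef]
      refine DifferentiableOn.div ?_ (hDd v hv.1) (fun z hz => Dn_ne hm hv hz)
      exact ((differentiableOn_const 1).sub (hv.1.div_const ξ)).mul
        (hDd _ (differentiableOn_const ξ))
    have hE0 : E 0 = 0 := by
      simp only [hEdef, hF.1, hK.1, sub_zero, zero_div]
    have hE : ∀ z ∈ ball (0 : ℂ) 1,
        HasDerivAt E (U z * (z / Dn m (fun _ => ξ) z ^ 2)) z := by
      intro z hz
      have h := (log_diff_deriv hm hv hu hF hK hz).div_const (2 * (1 - ‖m‖ ^ 2 : ℝ) * ξ)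
      have hv0 := Dn_ne hm hv hz
      have hu0 := Dn_ne hm hu hz
      have e : U z * (z / Dn m (fun _ => ξ) z ^ 2)
          = 2 * ((1 - ‖m‖ ^ 2 : ℝ) : ℂ) * z * (ξ - v z) / (Dn m v z * Dn m (fun _ => ξ) z)
            / (2 * (1 - ‖m‖ ^ 2 : ℝ) * ξ) := by
        simp only [hUdef]
        field_simp
      rw [e]
      exact h
    obtain ⟨a, ha, ha0, hare, haG⟩ := exists_a hm hξ1 hG hq hq0 hqre hqG hUd
      (fun z hz => re_U hm hξ0 hξ hv hz (hvξ z hz)) hE0 hE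
    have hU0 : U 0 = 1 - v 0 / ξ := by
      simp [hUdef, Dn]
    have hh := harnack ha hare hpb
    rw [p_norm hp, ha0, hU0, Complex.sub_re, Complex.one_re] at hh
    refine ⟨a p, ?_, hh.2, hh.1⟩
    have h := haG p hpb
    simp only [hEdef] at h
    have h2 : (2 * ((1 - ‖m‖ ^ 2 : ℝ) : ℂ) * ξ) ≠ 0 :=
      mul_ne_zero (mul_ne_zero two_ne_zero hρc) hξ0
    rw [div_eq_iff h2] at h
    rw [h]
    ring

/-- I9 -/
lemma half_plane {p : ℝ} (hp : 0 < p) (hp1 : p < 1) {m ξ : ℂ} (hm : ‖m‖ ≤ 1) (hξ : ‖ξ‖ = 1)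
    {v F K G : ℂ → ℂ} (hv : Schur v) (hF : IsLog m v F) (hK : IsLog m (fun _ => ξ) K)
    (hG : IsG m (fun _ => ξ) G) :
    ∃ a : ℂ, F p - K p = 2 * (1 - ‖m‖ ^ 2 : ℝ) * ξ * G p * a ∧
      (1 - p) / (1 + p) * (1 - (conj ξ * v 0).re) ≤ a.re ∧
      ‖a - (1 - conj ξ * v 0)‖ ≤ 2 * p / (1 - p) * (1 - (conj ξ * v 0).re) := by
  have hξ0 : ξ ≠ 0 := by
    intro h
    rw [h, norm_zero] at hξ
    norm_num at hξ
  have hξξ : ξ * conj ξ = 1 := by
    rw [Complex.mul_conj, Complex.normSq_eq_norm_sq, hξ]; norm_num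
  have e : conj ξ * v 0 = v 0 / ξ := by
    rw [eq_div_iff hξ0]
    linear_combination v 0 * hξξ
  rw [e]
  exact half_plane_gen hp hp1 hm hξ0 hξ.le hv (fun z hz => by rw [hξ]; exact hv.2 z hz) hF hK hG

end Pool.Agent.MP_8daf13.L7

end

section

open Complex Metric Filter Topology
open scoped ComplexConjugate

namespace Pool.Agent.MP_8daf13.L9

open L1 L2

lemma exp_norm_le {a : ℂ} {B : ℝ} (ha : ‖a‖ ≤ B) : ‖exp a‖ ≤ Real.exp B := by
  rw [Complex.norm_exp]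
  exact Real.exp_le_exp.mpr ((Complex.re_le_norm a).trans ha)

lemma exp_one {w : ℂ} : ‖exp w - 1‖ ≤ ‖w‖ * Real.exp ‖w‖ := by
  have := Complex.norm_exp_sub_sum_le_norm_mul_exp w 1
  simpa using this

lemma exp_two {w : ℂ} : ‖exp w - 1 - w‖ ≤ ‖w‖ ^ 2 * Real.exp ‖w‖ := by
  have := Complex.norm_exp_sub_sum_le_norm_mul_exp w 2
  rw [Finset.sum_range_succ, Finset.sum_range_one] at this
  simpa [sub_sub] using this

lemma norm_sub_two {a b : ℂ} {B : ℝ} (ha : ‖a‖ ≤ B) (hb : ‖b‖ ≤ B) : ‖a - b‖ ≤ 2 * B := by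
  have := norm_sub_le a b
  linarith

lemma exp_diff {a b : ℂ} {B : ℝ} (ha : ‖a‖ ≤ B) (hb : ‖b‖ ≤ B) :
    ‖exp a - exp b‖ ≤ Real.exp (3 * B) * ‖a - b‖ := by
  have h1 : exp a - exp b = exp b * (exp (a - b) - 1) := by
    rw [mul_sub, ← Complex.exp_add, mul_one]
    congr 2
    ring
  rw [h1, norm_mul]
  calc ‖exp b‖ * ‖exp (a - b) - 1‖ ≤ Real.exp B * (‖a - b‖ * Real.exp ‖a - b‖) := by
        gcongr
        · exact exp_norm_le hb
        · exact exp_one
    _ ≤ Real.exp B * (‖a - b‖ * Real.exp (2 * B)) := by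
        gcongr
        exact norm_sub_two ha hb
    _ = Real.exp (3 * B) * ‖a - b‖ := by
        rw [show 3 * B = B + 2 * B by ring, Real.exp_add]
        ring

lemma exp_taylor {a b : ℂ} {B : ℝ} (ha : ‖a‖ ≤ B) (hb : ‖b‖ ≤ B) :
    ‖exp a - exp b - (a - b) * exp b‖ ≤ Real.exp (3 * B) * ‖a - b‖ ^ 2 := by
  have h1 : exp a - exp b - (a - b) * exp b = exp b * (exp (a - b) - 1 - (a - b)) := by
    have : exp b * exp (a - b) = exp a := by
      rw [← Complex.exp_add]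
      congr 1
      ring
    rw [← this]
    ring
  rw [h1, norm_mul]
  calc ‖exp b‖ * ‖exp (a - b) - 1 - (a - b)‖ ≤
        Real.exp B * (‖a - b‖ ^ 2 * Real.exp ‖a - b‖) := by
        gcongr
        · exact exp_norm_le hb
        · exact exp_two
    _ ≤ Real.exp B * (‖a - b‖ ^ 2 * Real.exp (2 * B)) := by
        gcongr
        exact norm_sub_two ha hb
    _ = Real.exp (3 * B) * ‖a - b‖ ^ 2 := by
        rw [show 3 * B = B + 2 * B by ring, Real.exp_add]
        ring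

lemma schur_const {ζ : ℂ} (hζ : ‖ζ‖ ≤ 1) : Schur (fun _ => ζ) :=
  ⟨differentiableOn_const ζ, fun _ _ => hζ⟩

/-- I12 -/
lemma H_estimates {r : ℝ} (hr0 : 0 < r) (hr : r < 1) :
    ∃ C : ℝ, 0 < C ∧ ∀ m : ℂ, ‖m‖ ≤ 1 →
      (∀ v u F K : ℂ → ℂ, Schur v → Schur u → IsLog m v F → IsLog m u K → ∀ M : ℝ,
        (∀ z ∈ closedBall (0 : ℂ) r, ‖v z - u z‖ ≤ M) → ∀ z : ℂ, ‖z‖ ≤ r →
        ‖exp (F z) - exp (K z)‖ ≤ C * (1 - ‖m‖ ^ 2) * M) ∧
      (∀ ζ ξ : ℂ, ‖ζ‖ ≤ 1 → ‖ξ‖ ≤ 1 → ∀ F K G : ℂ → ℂ, IsLog m (fun _ => ζ) F →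
        IsLog m (fun _ => ξ) K → IsG m (fun _ => ξ) G → ∀ z : ℂ, ‖z‖ ≤ r →
        ‖exp (F z) - exp (K z) + 2 * (1 - ‖m‖ ^ 2 : ℝ) * (ζ - ξ) * G z * exp (K z)‖
          ≤ C * (1 - ‖m‖ ^ 2) * ‖ζ - ξ‖ ^ 2) ∧
      (∀ ζ ξ : ℂ, ‖ζ‖ ≤ 1 → ‖ξ‖ ≤ 1 → ∀ F K G L : ℂ → ℂ, IsLog m (fun _ => ζ) F →
        IsLog m (fun _ => ξ) K → IsG m (fun _ => ζ) G → IsG m (fun _ => ξ) L →
        ∀ z : ℂ, ‖z‖ ≤ r → ‖G z * exp (F z) - L z * exp (K z)‖ ≤ C * ‖ζ - ξ‖) ∧
      (∀ v F : ℂ → ℂ, Schur v → IsLog m v F → ∀ z : ℂ, ‖z‖ ≤ r → 1 / C ≤ ‖exp (F z)‖) := by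
  have hr1 : 0 < 1 - r := by linarith
  obtain ⟨B, hB⟩ : ∃ B : ℝ, B = 4 / (1 - r) ^ 2 := ⟨_, rfl⟩
  obtain ⟨C1, hC1⟩ : ∃ C1 : ℝ, C1 = 2 * Real.exp (3 * B) / (1 - r) ^ 4 := ⟨_, rfl⟩
  obtain ⟨C2, hC2⟩ : ∃ C2 : ℝ, C2 = 4 * Real.exp (3 * B) / (1 - r) ^ 8 +
    4 * Real.exp B / (1 - r) ^ 6 := ⟨_, rfl⟩
  obtain ⟨C3, hC3⟩ : ∃ C3 : ℝ, C3 = 16 * Real.exp B / (1 - r) ^ 8 +
    2 * Real.exp (3 * B) / (1 - r) ^ 8 := ⟨_, rfl⟩
  have p1 : 0 < C1 := by rw [hC1]; positivity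
  have p2 : 0 < C2 := by rw [hC2]; positivity
  have p3 : 0 < C3 := by rw [hC3]; positivity
  have p4 : 0 < Real.exp B := Real.exp_pos _
  refine ⟨C1 + C2 + C3 + Real.exp B, by positivity, fun m hm => ?_⟩
  have hs0 : 0 ≤ 1 - ‖m‖ ^ 2 := by
    have := norm_nonneg m
    nlinarith
  have hs1 : 1 - ‖m‖ ^ 2 ≤ 1 := by
    have := sq_nonneg ‖m‖
    linarith
  obtain ⟨s, hs⟩ : ∃ s : ℝ, s = 1 - ‖m‖ ^ 2 := ⟨_, rfl⟩
  rw [← hs] at hs0 hs1 ⊢
  have hbd : ∀ v F : ℂ → ℂ, Schur v → IsLog m v F → ∀ z : ℂ, ‖z‖ ≤ r → ‖F z‖ ≤ B := by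
    intro v F hv hF z hz
    rw [hB]
    exact log_bound hm hv hF hr hz
  refine ⟨?_, ?_, ?_, ?_⟩
  · intro v u F K hv hu hF hK M hM z hz
    have hM0 : 0 ≤ M := (norm_nonneg _).trans (hM 0 (by simp [hr0.le]))
    have h1 := log_diff hm hv hu hF hK hr hM hz
    rw [← hs] at h1
    calc ‖exp (F z) - exp (K z)‖ ≤ Real.exp (3 * B) * ‖F z - K z‖ :=
          exp_diff (hbd v F hv hF z hz) (hbd u K hu hK z hz)
      _ ≤ Real.exp (3 * B) * (2 * s * M / (1 - r) ^ 4) := by gcongr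
      _ = C1 * s * M := by rw [hC1]; ring
      _ ≤ (C1 + C2 + C3 + Real.exp B) * s * M := by
          gcongr
          linarith
  · intro ζ ξ hζ hξ F K G hF hK hG z hz
    have h1 := log_diff hm (schur_const hζ) (schur_const hξ) hF hK hr
      (M := ‖ζ - ξ‖) (fun _ _ => le_rfl) hz
    have h2 := log_const_taylor hm hζ hξ hF hK hG hr hz
    rw [← hs] at h1 h2
    have hFz := hbd _ F (schur_const hζ) hF z hz
    have hKz := hbd _ K (schur_const hξ) hK z hz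
    have h3 := exp_taylor hFz hKz
    have e1 : exp (F z) - exp (K z) + 2 * (s : ℂ) * (ζ - ξ) * G z * exp (K z) =
        (exp (F z) - exp (K z) - (F z - K z) * exp (K z)) +
          (F z - K z + 2 * (s : ℂ) * (ζ - ξ) * G z) * exp (K z) := by ring
    rw [e1]
    calc ‖(exp (F z) - exp (K z) - (F z - K z) * exp (K z)) +
          (F z - K z + 2 * (s : ℂ) * (ζ - ξ) * G z) * exp (K z)‖
        ≤ ‖exp (F z) - exp (K z) - (F z - K z) * exp (K z)‖ +
          ‖F z - K z + 2 * (s : ℂ) * (ζ - ξ) * G z‖ * ‖exp (K z)‖ := by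
          refine (norm_add_le _ _).trans ?_
          rw [norm_mul (F z - K z + 2 * (s : ℂ) * (ζ - ξ) * G z)]
      _ ≤ Real.exp (3 * B) * (2 * s * ‖ζ - ξ‖ / (1 - r) ^ 4) ^ 2 +
          (4 / (1 - r) ^ 6 * s * ‖ζ - ξ‖ ^ 2) * Real.exp B := by
          gcongr
          · exact h3.trans (by gcongr)
          · exact exp_norm_le hKz
      _ = (4 * Real.exp (3 * B) / (1 - r) ^ 8 * s + 4 * Real.exp B / (1 - r) ^ 6) *
            s * ‖ζ - ξ‖ ^ 2 := by
          field_simp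
          ring
      _ ≤ (4 * Real.exp (3 * B) / (1 - r) ^ 8 * 1 + 4 * Real.exp B / (1 - r) ^ 6) *
            s * ‖ζ - ξ‖ ^ 2 := by gcongr
      _ = C2 * s * ‖ζ - ξ‖ ^ 2 := by rw [hC2, mul_one]
      _ ≤ (C1 + C2 + C3 + Real.exp B) * s * ‖ζ - ξ‖ ^ 2 := by
          gcongr
          linarith
  · intro ζ ξ hζ hξ F K G L hF hK hG hL z hz
    have h1 := log_diff hm (schur_const hζ) (schur_const hξ) hF hK hr
      (M := ‖ζ - ξ‖) (fun _ _ => le_rfl) hz
    rw [← hs] at h1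
    have h2 := G_const_lip hm hζ hξ hG hL hr hz
    have h3 := G_bound hm (schur_const hξ) hL hr hz
    have hFz := hbd _ F (schur_const hζ) hF z hz
    have hKz := hbd _ K (schur_const hξ) hK z hz
    have h4 := exp_diff hFz hKz
    have e1 : G z * exp (F z) - L z * exp (K z) =
        (G z - L z) * exp (F z) + L z * (exp (F z) - exp (K z)) := by ring
    rw [e1]
    calc ‖(G z - L z) * exp (F z) + L z * (exp (F z) - exp (K z))‖
        ≤ ‖G z - L z‖ * ‖exp (F z)‖ + ‖L z‖ * ‖exp (F z) - exp (K z)‖ := by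
          refine (norm_add_le _ _).trans ?_
          rw [norm_mul, norm_mul]
      _ ≤ (16 / (1 - r) ^ 8 * ‖ζ - ξ‖) * Real.exp B +
          1 / (1 - r) ^ 4 * (Real.exp (3 * B) * (2 * s * ‖ζ - ξ‖ / (1 - r) ^ 4)) := by
          gcongr
          · exact exp_norm_le hFz
          · exact h4.trans (by gcongr)
      _ = (16 * Real.exp B / (1 - r) ^ 8 + 2 * Real.exp (3 * B) / (1 - r) ^ 8 * s) *
            ‖ζ - ξ‖ := by
          field_simp
      _ ≤ (16 * Real.exp B / (1 - r) ^ 8 + 2 * Real.exp (3 * B) / (1 - r) ^ 8 * 1) *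
            ‖ζ - ξ‖ := by gcongr
      _ = C3 * ‖ζ - ξ‖ := by rw [hC3, mul_one]
      _ ≤ (C1 + C2 + C3 + Real.exp B) * ‖ζ - ξ‖ := by
          gcongr
          linarith
  · intro v F hv hF z hz
    have hFz := hbd v F hv hF z hz
    rw [Complex.norm_exp]
    have h1 : -B ≤ (F z).re := by
      have := (abs_le.mp (Complex.abs_re_le_norm (F z))).1
      linarith
    calc 1 / (C1 + C2 + C3 + Real.exp B) ≤ 1 / Real.exp B := by
          apply one_div_le_one_div_of_le p4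
          linarith
      _ = Real.exp (-B) := by rw [Real.exp_neg, one_div]
      _ ≤ Real.exp (F z).re := Real.exp_le_exp.mpr h1

end Pool.Agent.MP_8daf13.L9

end

section

/-! Jack lemma and the bound |1 - exp(F/2)| <= |z| (MP_8daf13_an). -/

open Complex Metric Filter Topology
open scoped ComplexConjugate

namespace Pool.Agent.MP_8daf13.LJack

open L1

/-- a form of the lemma of Jack -/
lemma jack {f : ℂ → ℂ} {z₀ : ℂ} (hf : DifferentiableAt ℂ f z₀)
    (h : ∀ z, ‖z‖ ≤ ‖z₀‖ → 0 ≤ (f z).re) (h0 : (f z₀).re = 0) :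
    ∃ k : ℝ, 0 ≤ k ∧ z₀ * deriv f z₀ = -(k : ℂ) := by
  have hd := hf.hasDerivAt
  -- tangential
  have h1 : HasDerivAt (fun t : ℝ => (f (z₀ * exp ((t : ℂ) * I))).re) (z₀ * I * deriv f z₀).re 0 := by
    have a1 : HasDerivAt (fun s : ℂ => f (z₀ * exp (s * I))) (z₀ * I * deriv f z₀) ((0 : ℝ) : ℂ) := by
      have b1 : HasDerivAt (fun s : ℂ => z₀ * exp (s * I)) (z₀ * I) ((0 : ℝ) : ℂ) := by
        have := (((hasDerivAt_id ((0 : ℝ) : ℂ)).mul_const I).cexp).const_mul z₀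
        simpa using this
      have b2 : HasDerivAt f (deriv f z₀) ((fun s : ℂ => z₀ * exp (s * I)) ((0 : ℝ) : ℂ)) := by
        simpa using hd
      have := b2.comp ((0 : ℝ) : ℂ) b1
      rw [mul_comm] at this
      exact this
    exact a1.real_of_complex
  have h2 : IsLocalMin (fun t : ℝ => (f (z₀ * exp ((t : ℂ) * I))).re) 0 := by
    refine Filter.Eventually.of_forall fun t => ?_
    have e : (f (z₀ * exp (((0 : ℝ) : ℂ) * I))).re = 0 := by simpa using h0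
    show (f (z₀ * exp (((0 : ℝ) : ℂ) * I))).re ≤ (f (z₀ * exp ((t : ℂ) * I))).re
    rw [e]
    apply h
    rw [norm_mul, Complex.norm_exp_ofReal_mul_I, mul_one]
  have h3 := h2.hasDerivAt_eq_zero h1
  -- radial
  have h4 : HasDerivAt (fun t : ℝ => (f (z₀ * (t : ℂ))).re) (z₀ * deriv f z₀).re 1 := by
    have a1 : HasDerivAt (fun s : ℂ => f (z₀ * s)) (z₀ * deriv f z₀) ((1 : ℝ) : ℂ) := by
      have b1 : HasDerivAt (fun s : ℂ => z₀ * s) z₀ ((1 : ℝ) : ℂ) := by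
        have := (hasDerivAt_id ((1 : ℝ) : ℂ)).const_mul z₀
        simpa using this
      have b2 : HasDerivAt f (deriv f z₀) ((fun s : ℂ => z₀ * s) ((1 : ℝ) : ℂ)) := by
        simpa using hd
      have := b2.comp ((1 : ℝ) : ℂ) b1
      rw [mul_comm] at this
      exact this
    exact a1.real_of_complex
  have h5 : (z₀ * deriv f z₀).re ≤ 0 := by
    by_contra hcon
    push Not at hcon
    have h6 := h4.tendsto_slope
    have h7 : ∀ᶠ t in 𝓝[≠] (1 : ℝ), 0 < slope (fun t : ℝ => (f (z₀ * (t : ℂ))).re) 1 t :=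
      h6.eventually (lt_mem_nhds hcon)
    have h8 : ∀ᶠ t in 𝓝[<] (1 : ℝ), 0 < slope (fun t : ℝ => (f (z₀ * (t : ℂ))).re) 1 t :=
      h7.filter_mono (nhdsWithin_mono _ (fun x hx => ne_of_lt hx))
    have h9 : ∀ᶠ t in 𝓝[<] (1 : ℝ), t ∈ Set.Ioo (0 : ℝ) 1 := Ioo_mem_nhdsLT one_pos
    obtain ⟨t, ht1, ht2⟩ := (h8.and h9).exists
    rw [slope_def_field] at ht1
    have e : (f (z₀ * ((1 : ℝ) : ℂ))).re = 0 := by simpa using h0
    rw [e, sub_zero] at ht1
    have h10 : 0 ≤ (f (z₀ * (t : ℂ))).re := by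
      apply h
      rw [norm_mul, Complex.norm_real, Real.norm_of_nonneg ht2.1.le]
      nlinarith [norm_nonneg z₀, ht2.2]
    have h11 : t - 1 < 0 := by linarith [ht2.2]
    have := div_nonpos_of_nonneg_of_nonpos h10 h11.le
    linarith
  refine ⟨-(z₀ * deriv f z₀).re, by linarith, ?_⟩
  have h12 : (z₀ * deriv f z₀).im = 0 := by
    have : z₀ * I * deriv f z₀ = I * (z₀ * deriv f z₀) := by ring
    rw [this, Complex.mul_re, Complex.I_re, Complex.I_im] at h3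
    linarith
  apply Complex.ext
  · simp
  · simp [h12]

/-- the square root of H is 1 - z w1 with a Schur function w1 -/
lemma half_bound {m : ℂ} (hm : ‖m‖ ≤ 1) {v F : ℂ → ℂ} (hv : Schur v) (hF : IsLog m v F) {z : ℂ}
    (hz : z ∈ ball (0 : ℂ) 1) : ‖1 - exp (F z / 2)‖ ≤ ‖z‖ := by
  -- h = exp (F / 2)
  set h : ℂ → ℂ := fun z => exp (F z / 2) with hh
  have hhd : ∀ z ∈ ball (0 : ℂ) 1, HasDerivAt h (-(m + z * v z) / Dn m v z * h z) z := by
    intro z hz
    have := ((hF.2 z hz).div_const 2).cexp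
    refine this.congr_deriv ?_
    show exp (F z / 2) * (-2 * (m + z * v z) / Dn m v z / 2)
      = -(m + z * v z) / Dn m v z * exp (F z / 2)
    ring
  have hD : ∀ z ∈ ball (0 : ℂ) 1, Dn m v z ≠ 0 := by
    intro z hz
    have h1 := (Dn_lower hm hv hz).1
    have h2 : 0 < (1 - ‖z‖) ^ 2 := by
      have : 0 < 1 - ‖z‖ := by linarith [mem_ball_zero_iff.mp hz]
      positivity
    exact norm_pos_iff.mp (lt_of_lt_of_le h2 h1)
  have h00 : h 0 = 1 := by simp [hh, hF.1]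
  -- the function ω₁
  set w : ℂ → ℂ := dslope (fun z => 1 - h z) 0 with hw
  have hdiff : DifferentiableOn ℂ (fun z => 1 - h z) (ball 0 1) := fun z hz =>
    ((hhd z hz).differentiableAt.const_sub 1).differentiableWithinAt
  have hwd : DifferentiableOn ℂ w (ball 0 1) := by
    rw [hw, Complex.differentiableOn_dslope (isOpen_ball.mem_nhds (mem_ball_self one_pos))]
    exact hdiff
  have hwz : ∀ z, 1 - h z = z * w z := by
    intro z
    have := sub_smul_dslope (fun z => 1 - h z) 0 z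
    simp only [sub_zero, smul_eq_mul, h00, sub_self] at this
    exact this.symm
  -- equation
  have heq : ∀ z ∈ ball (0 : ℂ) 1, z ≠ 0 →
      (1 + conj m * z * v z) * (w z + z * deriv w z)
        = (m + z * v z) * (1 + z * (z * deriv w z)) := by
    intro z hz hz0
    have h1 : HasDerivAt (fun z => 1 - h z) (w z + z * deriv w z) z := by
      have h2 := (hasDerivAt_id' z).mul (hwd.differentiableAt (isOpen_ball.mem_nhds hz)).hasDerivAt
      have h3 : (fun z => 1 - h z) = (fun z => z) * w := funext hwz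
      rw [h3]
      refine h2.congr_deriv ?_
      rw [one_mul]
    have h4 := (hhd z hz).const_sub 1
    have h5 := h1.unique h4
    have h6 : h z = 1 - z * w z := by rw [← hwz]; ring
    rw [h6] at h5
    have h7 := hD z hz
    have h8 : (w z + z * deriv w z) * Dn m v z = (m + z * v z) * (1 - z * w z) := by
      rw [h5]; field_simp
    unfold Dn at h8
    linear_combination h8
  -- the maximum point
  have main : ∀ r : ℝ, 0 < r → r < 1 → ∀ z ∈ closedBall (0 : ℂ) r, ‖w z‖ ≤ 1 := by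
    intro r hr0 hr
    have hsub : closedBall (0 : ℂ) r ⊆ ball 0 1 := closedBall_subset_ball hr
    obtain ⟨z₀, hz₀, hmax⟩ := (isCompact_sphere (0 : ℂ) r).exists_isMaxOn
      ⟨(r : ℂ), by simp [abs_of_pos hr0]⟩
      ((hwd.continuousOn.mono (sphere_subset_closedBall.trans hsub)).norm)
    have hz₀r : ‖z₀‖ = r := by simpa using hz₀
    have hz₀1 : z₀ ∈ ball (0 : ℂ) 1 := by rw [mem_ball_zero_iff, hz₀r]; exact hr
    have hz₀0 : z₀ ≠ 0 := by rintro rfl; simp at hz₀r; linarith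
    have hall : ∀ z ∈ closedBall (0 : ℂ) r, ‖w z‖ ≤ ‖w z₀‖ := by
      intro z hz
      refine Complex.norm_le_of_forall_mem_frontier_norm_le (U := ball (0 : ℂ) r) isBounded_ball
        ?_ (C := ‖w z₀‖) ?_ ?_
      · constructor
        · exact hwd.mono (ball_subset_closedBall.trans hsub)
        · rw [closure_ball _ hr0.ne']
          exact hwd.continuousOn.mono hsub
      · intro y hy
        rw [frontier_ball _ hr0.ne'] at hy
        exact hmax hy
      · rw [closure_ball _ hr0.ne']; exact hz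
    suffices hM : ‖w z₀‖ ≤ 1 from fun z hz => (hall z hz).trans hM
    by_contra hcon
    push Not at hcon
    set M : ℝ := ‖w z₀‖ with hMdef
    have hM0 : (0 : ℝ) < M := by linarith
    have hMne : (M : ℂ) ≠ 0 := by exact_mod_cast hM0.ne'
    -- apply jack to f = M - conj (w z₀) / M * w
    set lam : ℂ := conj (w z₀) / M with hlam
    have hlamn : ‖lam‖ = 1 := by
      rw [hlam, norm_div, RCLike.norm_conj, Complex.norm_real, Real.norm_of_nonneg hM0.le]
      exact div_self hM0.ne'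
    have hlw : lam * w z₀ = M := by
      rw [hlam, div_mul_eq_mul_div, mul_comm (conj (w z₀)), Complex.mul_conj, Complex.normSq_eq_norm_sq]
      rw [div_eq_iff hMne]
      push_cast
      ring
    obtain ⟨k, hk, hkd⟩ := jack (f := fun z => (M : ℂ) - lam * w z) (z₀ := z₀)
      (((hwd.differentiableAt (isOpen_ball.mem_nhds hz₀1)).const_mul lam).const_sub _)
      (fun z hz => by
        have h1 : ‖lam * w z‖ ≤ M := by
          rw [norm_mul, hlamn, one_mul]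
          exact hall z (by simpa [hz₀r] using hz)
        have h2 := Complex.re_le_norm (lam * w z)
        rw [Complex.sub_re, Complex.ofReal_re]
        linarith) (by
        show ((M : ℂ) - lam * w z₀).re = 0
        rw [hlw]; simp)
    have hder : deriv (fun z => (M : ℂ) - lam * w z) z₀ = -(lam * deriv w z₀) := by
      rw [deriv_const_sub, deriv_const_mul _ (hwd.differentiableAt (isOpen_ball.mem_nhds hz₀1))]
    rw [hder] at hkd
    have hk2 : lam * (z₀ * deriv w z₀) = k := by linear_combination -hkd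
    -- multiply the equation by lam
    have h1 := heq z₀ hz₀1 hz₀0
    have h2 : (1 + conj m * z₀ * v z₀) * ((M : ℂ) + k) = (m + z₀ * v z₀) * (lam + z₀ * k) := by
      rw [← hlw, ← hk2]
      linear_combination lam * h1
    have hv1 := hv.2 z₀ hz₀1
    have hzv : ‖z₀ * v z₀‖ < 1 := by
      rw [norm_mul, hz₀r]; nlinarith [norm_nonneg (v z₀)]
    -- |m + zv| ≤ |1 + conj m z v|
    have h3 : ‖m + z₀ * v z₀‖ ≤ ‖1 + conj m * z₀ * v z₀‖ := by
      have a1 : ‖m + z₀ * v z₀‖ ^ 2 ≤ ‖1 + conj m * z₀ * v z₀‖ ^ 2 := by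
        rw [← Complex.normSq_eq_norm_sq, ← Complex.normSq_eq_norm_sq]
        have a2 : normSq (1 + conj m * z₀ * v z₀) - normSq (m + z₀ * v z₀)
            = (1 - normSq m) * (1 - normSq (z₀ * v z₀)) := by
          have a3 : conj m * z₀ * v z₀ = conj m * (z₀ * v z₀) := by ring
          rw [a3]
          generalize z₀ * v z₀ = u
          simp only [Complex.normSq_apply, Complex.add_re, Complex.add_im, Complex.mul_re,
            Complex.mul_im, Complex.conj_re, Complex.conj_im, Complex.one_re, Complex.one_im]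
          ring
        have a4 : 0 ≤ 1 - normSq m := by
          rw [Complex.normSq_eq_norm_sq]; nlinarith [norm_nonneg m]
        have a5 : 0 ≤ 1 - normSq (z₀ * v z₀) := by
          rw [Complex.normSq_eq_norm_sq]; nlinarith [norm_nonneg (z₀ * v z₀)]
        nlinarith [mul_nonneg a4 a5]
      exact le_of_sq_le_sq a1 (norm_nonneg _)
    have h4 : 0 < ‖1 + conj m * z₀ * v z₀‖ := by
      have a1 : ‖conj m * z₀ * v z₀‖ < 1 := by
        rw [mul_assoc, norm_mul, RCLike.norm_conj]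
        nlinarith [norm_nonneg m, norm_nonneg (z₀ * v z₀)]
      have a2 : ‖(1 : ℂ)‖ ≤ ‖1 + conj m * z₀ * v z₀‖ + ‖conj m * z₀ * v z₀‖ := by
        calc ‖(1 : ℂ)‖ = ‖(1 + conj m * z₀ * v z₀) - conj m * z₀ * v z₀‖ := by congr 1; ring
          _ ≤ _ := norm_sub_le _ _
      rw [norm_one] at a2
      linarith
    have h5 : ‖1 + conj m * z₀ * v z₀‖ * (M + k) ≤ ‖1 + conj m * z₀ * v z₀‖ * (1 + r * k) := by
      calc ‖1 + conj m * z₀ * v z₀‖ * (M + k) = ‖(1 + conj m * z₀ * v z₀) * ((M : ℂ) + k)‖ := by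
            rw [norm_mul]
            congr 1
            rw [← Complex.ofReal_add, Complex.norm_real, Real.norm_of_nonneg (by linarith)]
        _ = ‖m + z₀ * v z₀‖ * ‖lam + z₀ * k‖ := by rw [h2, norm_mul]
        _ ≤ ‖1 + conj m * z₀ * v z₀‖ * (1 + r * k) := by
            apply mul_le_mul h3 _ (norm_nonneg _) (norm_nonneg _)
            calc ‖lam + z₀ * k‖ ≤ ‖lam‖ + ‖z₀ * k‖ := norm_add_le _ _
              _ = _ := by
                rw [hlamn, norm_mul, hz₀r, Complex.norm_real, Real.norm_of_nonneg hk]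
    have h6 : M + k ≤ 1 + r * k := le_of_mul_le_mul_left h5 h4
    nlinarith
  have hz1 := mem_ball_zero_iff.mp hz
  have h1 : ‖w z‖ ≤ 1 := main ((1 + ‖z‖) / 2) (by linarith [norm_nonneg z]) (by linarith) z
    (by rw [mem_closedBall_zero_iff]; linarith)
  rw [hwz, norm_mul]
  nlinarith [norm_nonneg z]

end Pool.Agent.MP_8daf13.LJack

end

section

open Complex Metric Filter Topology
open scoped ComplexConjugate

namespace Pool.Agent.MP_8daf13.L8

open L1 L6 L7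

lemma schur_const {ξ : ℂ} (hξ : ‖ξ‖ ≤ 1) : Schur (fun _ => ξ) :=
  ⟨differentiableOn_const _, fun _ _ => hξ⟩

lemma exists_dir {ζ : ℂ} : ∃ ξ : ℂ, ‖ξ‖ = 1 ∧ ζ = (‖ζ‖ : ℂ) * ξ := by
  by_cases h : ζ = 0
  · exact ⟨1, by simp, by simp [h]⟩
  · have h' : (‖ζ‖ : ℂ) ≠ 0 := by
      exact_mod_cast (norm_ne_zero_iff.2 h)
    refine ⟨ζ / (‖ζ‖ : ℂ), ?_, ?_⟩
    · rw [norm_div, Complex.norm_real, norm_norm, div_self (norm_ne_zero_iff.2 h)]
    · field_simp

/-- I11 -/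
lemma closeness {p r : ℝ} (hp : 0 < p) (hpr : p ≤ r) (hr : r < 1) :
    ∃ C : ℝ, 0 < C ∧ ∀ m : ℂ, ‖m‖ < 1 → ∀ v F : ℂ → ℂ, Schur v → IsLog m v F →
      ∀ ζ : ℂ, ‖ζ‖ ≤ 1 → ∀ K : ℂ → ℂ, IsLog m (fun _ => ζ) K → F p = K p →
      ∀ z ∈ closedBall (0 : ℂ) r, ‖v z - ζ‖ ≤ C * (1 - ‖ζ‖) := by
  have hp1 : p < 1 := lt_of_le_of_lt hpr hr
  have h1p : 0 < 1 - p := by linarith
  have h1r : 0 < 1 - r := by linarith
  set A : ℝ := (1 + p) / (1 - p) with hA
  have hA0 : 0 < A := by positivity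
  set C1 : ℝ := A + 2 * p / (1 - p) * A ^ 2 with hC1
  have hC10 : 0 < C1 := by positivity
  refine ⟨2 / (1 - r) * C1 + C1 + 1, by positivity, ?_⟩
  intro m hm v F hv hF ζ hζ K hK hFK z hz
  obtain ⟨ξ, hξ, hζξ⟩ := exists_dir (ζ := ζ)
  have hm' : ‖m‖ ≤ 1 := hm.le
  have hξ' : ‖ξ‖ ≤ 1 := hξ.le
  obtain ⟨K1, hK1⟩ := exists_log hm' (schur_const hξ')
  obtain ⟨G, hG⟩ := exists_G hm' (schur_const hξ')
  obtain ⟨a, ha, ha1, ha2⟩ := half_plane hp hp1 hm' hξ hv hF hK1 hG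
  obtain ⟨b, hb, -, hb2⟩ := half_plane hp hp1 hm' hξ (schur_const hζ) hK hK1 hG
  have hGp : G p ≠ 0 := by
    have := G_lower hp hp1 hm' hξ' hG
    have h2 : 0 < (1 - p) * p ^ 2 / 64 := by positivity
    exact norm_pos_iff.1 (lt_of_lt_of_le h2 this)
  have hρ : 0 < 1 - ‖m‖ ^ 2 := by nlinarith [norm_nonneg m]
  have hab : a = b := by
    have h1 : 2 * ((1 - ‖m‖ ^ 2 : ℝ) : ℂ) * ξ * G p * a =
        2 * ((1 - ‖m‖ ^ 2 : ℝ) : ℂ) * ξ * G p * b := by
      rw [← ha, ← hb, hFK]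
    have hne : 2 * ((1 - ‖m‖ ^ 2 : ℝ) : ℂ) * ξ * G p ≠ 0 := by
      have hξ0 : ξ ≠ 0 := by
        intro h0
        rw [h0, norm_zero] at hξ
        norm_num at hξ
      have hρ' : ((1 - ‖m‖ ^ 2 : ℝ) : ℂ) ≠ 0 := by exact_mod_cast hρ.ne'
      exact mul_ne_zero (mul_ne_zero (mul_ne_zero two_ne_zero hρ') hξ0) hGp
    exact mul_left_cancel₀ hne h1
  have hcξ : conj ξ * ξ = 1 := by
    rw [← Complex.normSq_eq_conj_mul_self, Complex.normSq_eq_norm_sq, hξ]
    simp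
  set t : ℝ := 1 - ‖ζ‖ with ht
  have ht0 : 0 ≤ t := by linarith
  have hcζ : conj ξ * ζ = (‖ζ‖ : ℂ) := by
    conv_lhs => rw [hζξ]
    calc conj ξ * ((‖ζ‖ : ℂ) * ξ) = (‖ζ‖ : ℂ) * (conj ξ * ξ) := by ring
      _ = _ := by rw [hcξ, mul_one]
  rw [hcζ] at hb2
  have hbt : ‖b‖ ≤ A * t := by
    have e1 : (1 : ℂ) - (‖ζ‖ : ℂ) = ((t : ℝ) : ℂ) := by rw [ht]; push_cast; ring
    have e2 : 1 - ((‖ζ‖ : ℂ)).re = t := by rw [Complex.ofReal_re]
    rw [e1, e2] at hb2
    have h1 : ‖b‖ ≤ ‖b - (t : ℂ)‖ + ‖(t : ℂ)‖ := by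
      calc ‖b‖ = ‖(b - (t : ℂ)) + (t : ℂ)‖ := by rw [sub_add_cancel]
        _ ≤ _ := norm_add_le _ _
    have h2 : ‖(t : ℂ)‖ = t := by rw [Complex.norm_real, Real.norm_of_nonneg ht0]
    rw [h2] at h1
    have h3 : 2 * p / (1 - p) * t + t = A * t := by
      rw [hA]; field_simp; ring
    linarith
  set y : ℝ := 1 - (conj ξ * v 0).re with hy
  have hv0 : ‖v 0‖ ≤ 1 := hv.2 0 (mem_ball_self one_pos)
  have hnv : ‖conj ξ * v 0‖ = ‖v 0‖ := by
    rw [norm_mul, Complex.norm_conj, hξ, one_mul]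
  have hy0 : 0 ≤ y := by
    have := (Complex.re_le_norm (conj ξ * v 0))
    rw [hnv] at this
    linarith
  have hyt : y ≤ A ^ 2 * t := by
    have h1 : (1 - p) / (1 + p) * y ≤ A * t := by
      refine ha1.trans ((Complex.re_le_norm a).trans ?_)
      rw [hab]; exact hbt
    have h2 : A * ((1 - p) / (1 + p) * y) = y := by
      rw [hA]; field_simp
    calc y = A * ((1 - p) / (1 + p) * y) := h2.symm
      _ ≤ A * (A * t) := mul_le_mul_of_nonneg_left h1 hA0.le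
      _ = _ := by ring
  have hclose : ‖1 - conj ξ * v 0‖ ≤ C1 * t := by
    have h1 : ‖1 - conj ξ * v 0‖ ≤ ‖a‖ + ‖a - (1 - conj ξ * v 0)‖ := by
      calc ‖1 - conj ξ * v 0‖ = ‖a - (a - (1 - conj ξ * v 0))‖ := by congr 1; ring
        _ ≤ _ := norm_sub_le _ _
    have h2 : ‖a‖ ≤ A * t := by rw [hab]; exact hbt
    have h3 : 2 * p / (1 - p) * y ≤ 2 * p / (1 - p) * (A ^ 2 * t) :=
      mul_le_mul_of_nonneg_left hyt (by positivity)
    have h4 : C1 * t = A * t + 2 * p / (1 - p) * (A ^ 2 * t) := by rw [hC1]; ring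
    linarith
  have hv0' : 1 - ‖v 0‖ ≤ C1 * t := by
    refine le_trans ?_ hclose
    have := norm_sub_norm_le (1 : ℂ) (conj ξ * v 0)
    rw [norm_one, hnv] at this
    exact this
  have hv0ξ : ‖v 0 - ξ‖ ≤ C1 * t := by
    have e : ‖v 0 - ξ‖ = ‖1 - conj ξ * v 0‖ := by
      have : 1 - conj ξ * v 0 = -(conj ξ * (v 0 - ξ)) := by
        rw [mul_sub, hcξ]; ring
      rw [this, norm_neg, norm_mul, Complex.norm_conj, hξ, one_mul]
    rw [e]; exact hclose
  have hξζ : ‖ξ - ζ‖ ≤ t := by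
    have e : ξ - ζ = ((t : ℝ) : ℂ) * ξ := by
      conv_lhs => rw [hζξ]
      rw [ht]; push_cast; ring
    rw [e, norm_mul, Complex.norm_real, Real.norm_of_nonneg ht0, hξ, mul_one]
  have hz' : ‖z‖ ≤ r := by simpa using hz
  have hzb : z ∈ ball (0 : ℂ) 1 := by
    rw [mem_ball_zero_iff]; linarith
  have hs := schur_close hv hzb
  have hs' : ‖v z - v 0‖ ≤ 2 / (1 - r) * (C1 * t) := by
    refine hs.trans ?_
    have h1 : 2 / (1 - ‖z‖) ≤ 2 / (1 - r) := by
      apply div_le_div_of_nonneg_left (by norm_num) h1r (by linarith)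
    exact mul_le_mul h1 hv0' (by linarith) (by positivity)
  calc ‖v z - ζ‖ = ‖(v z - v 0) + (v 0 - ξ) + (ξ - ζ)‖ := by congr 1; ring
    _ ≤ ‖v z - v 0‖ + ‖v 0 - ξ‖ + ‖ξ - ζ‖ := norm_add₃_le
    _ ≤ 2 / (1 - r) * (C1 * t) + C1 * t + t := by linarith
    _ = (2 / (1 - r) * C1 + C1 + 1) * t := by ring

end Pool.Agent.MP_8daf13.L8

end

section

/-! The value at p of every log is the value of the log of a constant (MP_8daf13_an). -/

open Complex Metric Filter Topology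
open scoped ComplexConjugate

namespace Pool.Agent.MP_8daf13.LConst

open L1 L2 L6 L7

lemma schur_const {ζ : ℂ} (hζ : ‖ζ‖ ≤ 1) : Schur (fun _ => ζ) :=
  ⟨differentiableOn_const _, fun _ _ => hζ⟩

lemma exists_const {p : ℝ} (hp : 0 < p) (hp1 : p < 1) {m : ℂ} (hm : ‖m‖ < 1) {v F : ℂ → ℂ}
    (hv : Schur v) (hF : IsLog m v F) :
    ∃ ζ : ℂ, ‖ζ‖ ≤ 1 ∧ ∃ K : ℂ → ℂ, IsLog m (fun _ => ζ) K ∧ F p = K p := by
  by_contra hcon
  push Not at hcon
  have hL : ∀ ζ : ℂ, ‖ζ‖ ≤ 1 → ∃ K, IsLog m (fun _ => ζ) K := fun ζ hζ =>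
    exists_log hm.le (schur_const hζ)
  have hGG : ∀ ζ : ℂ, ‖ζ‖ ≤ 1 → ∃ K, IsG m (fun _ => ζ) K := fun ζ hζ =>
    exists_G hm.le (schur_const hζ)
  choose! K hK using hL
  choose! G hG using hGG
  have hpn : ‖(p : ℂ)‖ ≤ p := by
    rw [Complex.norm_real, Real.norm_of_nonneg hp.le]
  set ρ : ℝ := 1 - ‖m‖ ^ 2 with hρ
  have hρ0 : 0 < ρ := by nlinarith [norm_nonneg m]
  have h1p : 0 < 1 - p := by linarith
  -- v 0 is in the open disc
  have hv0 : ‖v 0‖ < 1 := by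
    rcases lt_or_eq_of_le (hv.2 0 (by simp)) with h | h
    · exact h
    · exfalso
      refine hcon (v 0) h.le (K (v 0)) (hK _ h.le) ?_
      have h1 := log_diff hm.le hv (schur_const h.le) hF (hK _ h.le) hp1 (M := 0) (fun z hz => by
        have hz' : z ∈ ball (0 : ℂ) 1 := by
          rw [mem_ball_zero_iff]
          exact lt_of_le_of_lt (by simpa using hz) hp1
        have := schur_close hv hz'
        rw [h] at this
        simpa using this) hpn
      rw [mul_zero, zero_div] at h1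
      exact sub_eq_zero.mp (norm_le_zero_iff.mp h1)
  set L : ℂ → ℂ := fun ζ => K ζ p - F p with hLdef
  have hLne : ∀ ζ ∈ closedBall (0 : ℂ) 1, L ζ ≠ 0 := by
    intro ζ hζ h
    have hζ' : ‖ζ‖ ≤ 1 := by simpa using hζ
    exact hcon ζ hζ' (K ζ) (hK ζ hζ') (sub_eq_zero.mp h).symm
  -- continuity
  have hKcont : ContinuousOn (fun ζ => K ζ p) (closedBall 0 1) := by
    have : LipschitzOnWith (Real.toNNReal (2 * ρ / (1 - p) ^ 4)) (fun ζ => K ζ p)
        (closedBall 0 1) := by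
      refine LipschitzOnWith.of_dist_le_mul fun z hz w hw => ?_
      rw [dist_eq_norm, dist_eq_norm, Real.coe_toNNReal _ (by positivity)]
      have hz' : ‖z‖ ≤ 1 := by simpa using hz
      have hw' : ‖w‖ ≤ 1 := by simpa using hw
      refine (log_diff hm.le (schur_const hz') (schur_const hw') (hK z hz') (hK w hw') hp1
        (M := ‖z - w‖) (fun _ _ => le_rfl) hpn).trans (le_of_eq ?_)
      ring
    exact this.continuousOn
  have hGcont : ContinuousOn (fun ζ => G ζ p) (closedBall 0 1) := by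
    have : LipschitzOnWith (Real.toNNReal (16 / (1 - p) ^ 8)) (fun ζ => G ζ p)
        (closedBall 0 1) := by
      refine LipschitzOnWith.of_dist_le_mul fun z hz w hw => ?_
      rw [dist_eq_norm, dist_eq_norm, Real.coe_toNNReal _ (by positivity)]
      have hz' : ‖z‖ ≤ 1 := by simpa using hz
      have hw' : ‖w‖ ≤ 1 := by simpa using hw
      exact G_const_lip hm.le hz' hw' (hG z hz') (hG w hw') hp1 hpn
    exact this.continuousOn
  -- derivative
  have hder : ∀ ξ ∈ ball (0 : ℂ) 1, HasDerivAt (fun ζ => K ζ p) (-2 * (ρ : ℂ) * G ξ p) ξ := by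
    intro ξ hξ
    have hξ' : ‖ξ‖ ≤ 1 := (mem_ball_zero_iff.mp hξ).le
    rw [hasDerivAt_iff_isLittleO]
    have hO : (fun ζ => K ζ p - K ξ p - (ζ - ξ) • (-2 * (ρ : ℂ) * G ξ p))
        =O[𝓝 ξ] fun ζ => ‖ζ - ξ‖ ^ 2 := by
      refine Asymptotics.IsBigO.of_bound (4 / (1 - p) ^ 6 * ρ) ?_
      filter_upwards [isOpen_ball.mem_nhds hξ] with ζ hζ
      have hζ' : ‖ζ‖ ≤ 1 := (mem_ball_zero_iff.mp hζ).le
      have h1 := log_const_taylor hm.le hζ' hξ' (hK ζ hζ') (hK ξ hξ') (hG ξ hξ') hp1 hpn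
      have e : K ζ p - K ξ p - (ζ - ξ) • (-2 * (ρ : ℂ) * G ξ p)
          = K ζ p - K ξ p + 2 * (ρ : ℂ) * (ζ - ξ) * G ξ p := by
        rw [smul_eq_mul]; ring
      rw [e]
      refine h1.trans (le_of_eq ?_)
      rw [norm_pow, norm_norm]
    refine hO.trans_isLittleO ?_
    have h2 : (fun ζ : ℂ => ‖ζ - ξ‖ ^ 2) =o[𝓝 ξ] fun ζ => ‖ζ - ξ‖ := by
      have h3 : (fun ζ : ℂ => ‖ζ - ξ‖) =o[𝓝 ξ] (fun _ => (1 : ℝ)) := by
        rw [Asymptotics.isLittleO_one_iff]
        have : Tendsto (fun ζ : ℂ => ‖ζ - ξ‖) (𝓝 ξ) (𝓝 ‖ξ - ξ‖) :=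
          ((continuous_id.sub continuous_const).norm).tendsto ξ
        simpa using this
      have h4 := h3.mul_isBigO (Asymptotics.isBigO_refl (fun ζ : ℂ => ‖ζ - ξ‖) (𝓝 ξ))
      simpa [sq] using h4
    exact h2.norm_right.trans_isBigO (Asymptotics.isBigO_of_le _ (fun ζ => by simp))
  set g : ℂ → ℂ := fun ζ => -2 * (ρ : ℂ) * ζ * G ζ p / L ζ with hg
  have hLcont : ContinuousOn L (closedBall 0 1) := hKcont.sub continuousOn_const
  have hgcont : ContinuousOn g (closedBall 0 1) :=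
    (((continuousOn_const.mul continuousOn_id).mul hGcont).div hLcont hLne)
  have hKdiff : DifferentiableOn ℂ (fun ζ => K ζ p) (ball 0 1) := fun ζ hζ =>
    (hder ζ hζ).differentiableAt.differentiableWithinAt
  have hgdiff : DifferentiableOn ℂ g (ball 0 1) := by
    have h1 : DifferentiableOn ℂ (fun ζ => ζ * deriv (fun ζ => K ζ p) ζ / L ζ) (ball 0 1) := by
      refine (differentiableOn_id.mul (hKdiff.deriv isOpen_ball)).div
        (hKdiff.sub (differentiableOn_const _)) fun ζ hζ => hLne ζ (ball_subset_closedBall hζ)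
    refine h1.congr fun ζ hζ => ?_
    simp only [hg]
    rw [(hder ζ hζ).deriv]
    ring
  have hcl : closure (ball (0 : ℂ) 1) = closedBall 0 1 := closure_ball _ one_ne_zero
  have hfr : frontier (ball (0 : ℂ) 1) = sphere 0 1 := frontier_ball _ one_ne_zero
  set h : ℂ → ℂ := fun ζ => exp (-g ζ) with hh
  have hd : DiffContOnCl ℂ h (ball 0 1) :=
    ⟨hgdiff.neg.cexp, by rw [hcl]; exact hgcont.neg.cexp⟩
  have hsph : ∀ ζ ∈ sphere (0 : ℂ) 1, ‖h ζ‖ < 1 := by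
    intro ζ hζ
    have hζ1 : ‖ζ‖ = 1 := by simpa using hζ
    obtain ⟨a, ha1, ha2, -⟩ := half_plane hp hp1 hm.le hζ1 hv hF (hK ζ hζ1.le) (hG ζ hζ1.le)
    have hG0 : G ζ p ≠ 0 := by
      have h3 := G_lower hp hp1 hm.le hζ1.le (hG ζ hζ1.le)
      have h4 : 0 < (1 - p) * p ^ 2 / 64 := by positivity
      exact norm_pos_iff.mp (lt_of_lt_of_le h4 h3)
    have hre : (conj ζ * v 0).re < 1 := by
      calc (conj ζ * v 0).re ≤ ‖conj ζ * v 0‖ := Complex.re_le_norm _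
        _ = ‖v 0‖ := by rw [norm_mul, RCLike.norm_conj, hζ1, one_mul]
        _ < 1 := hv0
    have hare : 0 < a.re := by
      refine lt_of_lt_of_le ?_ ha2
      have : 0 < 1 - (conj ζ * v 0).re := by linarith
      positivity
    have hane : a ≠ 0 := by
      rintro rfl; simp at hare
    have hζ0 : ζ ≠ 0 := by
      rintro rfl; simp at hζ1
    have hga : g ζ = a⁻¹ := by
      simp only [hg, hLdef]
      have e : K ζ p - F p = -(2 * (ρ : ℂ) * ζ * G ζ p * a) := by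
        rw [← ha1]; ring
      rw [e]
      have hρc : (ρ : ℂ) ≠ 0 := by exact_mod_cast hρ0.ne'
      field_simp
    simp only [hh]
    rw [Complex.norm_exp, hga]
    rw [Real.exp_lt_one_iff]
    rw [Complex.neg_re, Complex.inv_re]
    have : 0 < a.re / normSq a := div_pos hare (Complex.normSq_pos.mpr hane)
    linarith
  obtain ⟨ζm, hζm, hmax⟩ := (isCompact_sphere (0 : ℂ) 1).exists_isMaxOn
    ⟨1, by simp⟩ ((hgcont.mono sphere_subset_closedBall).neg.cexp.norm)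
  have h5 := Complex.norm_le_of_forall_mem_frontier_norm_le (isBounded_ball) hd
    (C := ‖h ζm‖) (fun z hz => by
      rw [hfr] at hz
      exact hmax hz) (z := 0) (by rw [hcl]; simp)
  have h6 := hsph ζm hζm
  have h7 : h 0 = 1 := by simp [hh, hg]
  rw [h7, norm_one] at h5
  linarith

end Pool.Agent.MP_8daf13.LConst

end

section

/-! Lower bounds for the differences of the values at p (MP_8daf13_an). -/

open Complex Metric Filter Topology
open scoped ComplexConjugate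

namespace Pool.Agent.MP_8daf13.LInj

open L1 L7 LJack


lemma schur_const {ζ : ℂ} (hζ : ‖ζ‖ ≤ 1) : Schur (fun _ => ζ) :=
  ⟨differentiableOn_const _, fun _ _ => hζ⟩

/-- F/2 is the principal logarithm of exp(F/2) -/
lemma half_eq_log {m : ℂ} (hm : ‖m‖ ≤ 1) {v F : ℂ → ℂ} (hv : Schur v) (hF : IsLog m v F) {z : ℂ}
    (hz : z ∈ ball (0 : ℂ) 1) : F z / 2 = log (exp (F z / 2)) := by
  have hre : ∀ z ∈ ball (0 : ℂ) 1, 0 < (exp (F z / 2)).re := by
    intro z hz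
    have h1 := half_bound hm hv hF hz
    have h2 := mem_ball_zero_iff.mp hz
    have h3 := Complex.re_le_norm (1 - exp (F z / 2))
    rw [Complex.sub_re, Complex.one_re] at h3
    linarith
  have hslit : ∀ z ∈ ball (0 : ℂ) 1, exp (F z / 2) ∈ slitPlane := fun z hz => Or.inl (hre z hz)
  have hd : ∀ z ∈ ball (0 : ℂ) 1,
      HasDerivAt (fun z => F z / 2 - log (exp (F z / 2))) 0 z := by
    intro z hz
    have h1 := (hF.2 z hz).div_const 2
    have h2 := h1.cexp.clog (hslit z hz)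
    refine (h1.sub h2).congr_deriv ?_
    field_simp
    ring
  have hc : ∀ z ∈ ball (0 : ℂ) 1, F z / 2 - log (exp (F z / 2))
      = F 0 / 2 - log (exp (F 0 / 2)) := by
    intro z hz
    have h0 : (0 : ℂ) ∈ ball (0 : ℂ) 1 := mem_ball_self one_pos
    have := (convex_ball (0 : ℂ) 1).norm_image_sub_le_of_norm_hasDerivWithin_le
      (f := fun z => F z / 2 - log (exp (F z / 2))) (f' := fun _ => 0) (C := 0)
      (fun x hx => (hd x hx).hasDerivWithinAt) (fun x _ => by simp) h0 hz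
    rw [zero_mul] at this
    exact sub_eq_zero.mp (norm_le_zero_iff.mp this)
  have h1 := hc z hz
  rw [hF.1] at h1
  simp only [zero_div, exp_zero, log_one, sub_zero] at h1
  exact sub_eq_zero.mp h1

lemma im_bound {p : ℝ} (hp : 0 < p) (hp1 : p < 1) :
    ∃ δ : ℝ, 0 < δ ∧ ∀ m : ℂ, ‖m‖ ≤ 1 → ∀ v F : ℂ → ℂ, Schur v → IsLog m v F →
      |(F p).im| ≤ Real.pi - δ := by
  have hcont : ContinuousOn (fun w : ℂ => |arg w|) (closedBall 1 p) := by
    intro w hw
    have : w ∈ slitPlane := by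
      left
      rw [mem_closedBall, dist_eq_norm] at hw
      have h3 := Complex.re_le_norm (1 - w)
      rw [norm_sub_rev, Complex.sub_re, Complex.one_re] at h3
      linarith
    exact (continuousAt_arg this).abs.continuousWithinAt
  obtain ⟨w₀, hw₀, hmax⟩ := (isCompact_closedBall (1 : ℂ) p).exists_isMaxOn
    ⟨1, mem_closedBall_self hp.le⟩ hcont
  have hre : 0 < w₀.re := by
    rw [mem_closedBall, dist_eq_norm] at hw₀
    have h3 := Complex.re_le_norm (1 - w₀)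
    rw [norm_sub_rev, Complex.sub_re, Complex.one_re] at h3
    linarith
  have harg : |arg w₀| < Real.pi / 2 := by
    rw [Complex.abs_arg_lt_pi_div_two_iff]
    exact Or.inl hre
  refine ⟨Real.pi - 2 * |arg w₀|, by linarith, fun m hm v F hv hF => ?_⟩
  have hpb : (p : ℂ) ∈ ball (0 : ℂ) 1 := by
    rw [mem_ball_zero_iff, Complex.norm_real, Real.norm_of_nonneg hp.le]; exact hp1
  have h1 := half_eq_log hm hv hF hpb
  have h2 := half_bound hm hv hF hpb
  rw [Complex.norm_real, Real.norm_of_nonneg hp.le] at h2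
  have h3 : exp (F p / 2) ∈ closedBall (1 : ℂ) p := by
    rw [mem_closedBall, dist_eq_norm, norm_sub_rev]; exact h2
  have h4 := hmax h3
  have h5 : (F p).im = 2 * arg (exp (F p / 2)) := by
    have : (F p / 2).im = (log (exp (F p / 2))).im := by rw [← h1]
    rw [Complex.log_im] at this
    have h6 : (F p / 2).im = (F p).im / 2 := by
      rw [Complex.div_ofNat_im]
    rw [h6] at this
    linarith
  rw [h5, abs_mul, abs_of_pos (by norm_num : (0 : ℝ) < 2)]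
  simp only at h4
  linarith [show |arg (exp (F p / 2))| ≤ |arg w₀| from h4]

lemma exp_lower {B δ : ℝ} (hδ : 0 < δ) :
    ∃ c : ℝ, 0 < c ∧ ∀ w : ℂ, ‖w‖ ≤ B → |w.im| ≤ 2 * Real.pi - δ → c * ‖w‖ ≤ ‖exp w - 1‖ := by
  set φ : ℂ → ℂ := dslope exp 0 with hφ
  have hφc : Continuous φ := by
    rw [continuous_iff_continuousAt]
    intro z
    rcases eq_or_ne z 0 with rfl | hz
    · exact continuousAt_dslope_same.mpr (Complex.hasDerivAt_exp 0).differentiableAt
    · exact (continuousAt_dslope_of_ne hz).mpr Complex.continuous_exp.continuousAt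
  have hφz : ∀ z, exp z - 1 = z * φ z := by
    intro z
    have := sub_smul_dslope exp 0 z
    simp only [sub_zero, smul_eq_mul, exp_zero] at this
    exact this.symm
  set S : Set ℂ := closedBall 0 B ∩ {w : ℂ | |w.im| ≤ 2 * Real.pi - δ} with hS
  have hScomp : IsCompact S := (isCompact_closedBall _ _).inter_right
    (isClosed_le (Complex.continuous_im.abs) continuous_const)
  have hne : ∀ w ∈ S, φ w ≠ 0 := by
    intro w hw h
    have h1 : exp w = 1 := by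
      have := hφz w
      rw [h, mul_zero] at this
      exact sub_eq_zero.mp this
    obtain ⟨n, hn⟩ := Complex.exp_eq_one_iff.mp h1
    have h2 : w.im = n * (2 * Real.pi) := by
      rw [hn]
      simp
    have h3 : |w.im| ≤ 2 * Real.pi - δ := hw.2
    rw [h2, abs_mul, abs_of_pos Real.two_pi_pos] at h3
    have h4 : |(n : ℝ)| < 1 := by
      by_contra hcon
      push Not at hcon
      nlinarith [Real.two_pi_pos]
    have h5 : n = 0 := by
      rw [← Int.cast_abs] at h4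
      have : |n| < 1 := by exact_mod_cast h4
      exact Int.abs_lt_one_iff.mp this
    rw [h5] at hn
    simp at hn
    rw [hn] at h
    have h6 : φ 0 = 1 := by
      rw [hφ, dslope_same, Complex.deriv_exp, exp_zero]
    rw [h6] at h
    exact one_ne_zero h
  rcases S.eq_empty_or_nonempty with hSe | hSn
  · refine ⟨1, one_pos, fun w h1 h2 => ?_⟩
    have : w ∈ S := ⟨by simpa using h1, h2⟩
    rw [hSe] at this
    exact absurd this (Set.notMem_empty _)
  · obtain ⟨w₀, hw₀, hmin⟩ := hScomp.exists_isMinOn hSn hφc.norm.continuousOn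
    refine ⟨‖φ w₀‖, norm_pos_iff.mpr (hne w₀ hw₀), fun w h1 h2 => ?_⟩
    rw [hφz, norm_mul, mul_comm]
    exact mul_le_mul_of_nonneg_left (hmin (show w ∈ S from ⟨by simpa using h1, h2⟩))
      (norm_nonneg _)

lemma log_lower {p : ℝ} (hp : 0 < p) (hp1 : p < 1) :
    ∃ c : ℝ, 0 < c ∧ ∀ m : ℂ, ‖m‖ ≤ 1 → ∀ ζ ξ : ℂ, ‖ζ‖ ≤ 1 → ‖ξ‖ ≤ 1 → ∀ F K : ℂ → ℂ,
      IsLog m (fun _ => ζ) F → IsLog m (fun _ => ξ) K →
      c * (1 - ‖m‖ ^ 2) * ‖ζ - ξ‖ ≤ ‖F p - K p‖ := by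
  have h1p : 0 < 1 - p := by linarith
  set g : ℝ := (1 - p) * p ^ 2 / 64 with hg
  have hg0 : 0 < g := by positivity
  set C : ℝ := 1 + 2 * p / (1 - p) * ((1 + p) / (1 - p)) with hC
  have hC0 : 0 < C := by positivity
  have key : ∀ m : ℂ, ‖m‖ ≤ 1 → ∀ ζ ξ : ℂ, ‖ζ‖ ≤ 1 → ‖ξ‖ ≤ 1 → ‖ζ‖ ≤ ‖ξ‖ → ∀ F K : ℂ → ℂ,
      IsLog m (fun _ => ζ) F → IsLog m (fun _ => ξ) K →
      2 * g / C * (1 - ‖m‖ ^ 2) * ‖ζ - ξ‖ ≤ ‖F p - K p‖ := by
    intro m hm ζ ξ hζ hξ hle F K hF hK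
    have hρ : 0 ≤ 1 - ‖m‖ ^ 2 := by nlinarith [norm_nonneg m]
    rcases eq_or_ne ξ 0 with rfl | hξ0
    · have : ζ = 0 := by simpa using hle
      subst this
      simp
    · obtain ⟨G, hG⟩ := exists_G hm (schur_const hξ)
      obtain ⟨a, h1, h2, h3⟩ := half_plane_gen hp hp1 hm hξ0 hξ (schur_const hζ)
        (fun _ _ => hle) hF hK hG
      have h4 := G_lower hp hp1 hm hξ hG
      have h5 : (1 - (ζ / ξ).re) ≤ (1 + p) / (1 - p) * ‖a‖ := by
        have a1 : a.re ≤ ‖a‖ := Complex.re_le_norm a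
        have a2 := h2.trans a1
        rw [div_mul_eq_mul_div, div_le_iff₀ (by positivity)] at a2
        rw [div_mul_eq_mul_div, le_div_iff₀ h1p]
        linarith
      have h6 : ‖1 - ζ / ξ‖ ≤ C * ‖a‖ := by
        have a1 : ‖1 - ζ / ξ‖ ≤ ‖a‖ + ‖a - (1 - ζ / ξ)‖ := by
          calc ‖1 - ζ / ξ‖ = ‖a - (a - (1 - ζ / ξ))‖ := by congr 1; ring
            _ ≤ _ := norm_sub_le _ _
        have a2 : 2 * p / (1 - p) * (1 - (ζ / ξ).re)
            ≤ 2 * p / (1 - p) * ((1 + p) / (1 - p) * ‖a‖) :=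
          mul_le_mul_of_nonneg_left h5 (by positivity)
        rw [hC]
        linarith
      have h7 : ‖ζ - ξ‖ = ‖ξ‖ * ‖1 - ζ / ξ‖ := by
        rw [← norm_mul, norm_sub_rev]
        congr 1
        field_simp
      rw [h1, norm_mul, norm_mul, norm_mul, norm_mul, Complex.norm_real,
        Real.norm_of_nonneg hρ]
      have h8 : ‖(2 : ℂ)‖ = 2 := by simp
      rw [h8, h7]
      have h9 : 2 * g / C * (1 - ‖m‖ ^ 2) * (‖ξ‖ * ‖1 - ζ / ξ‖)
          ≤ 2 * g / C * (1 - ‖m‖ ^ 2) * (‖ξ‖ * (C * ‖a‖)) := by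
        refine mul_le_mul_of_nonneg_left (mul_le_mul_of_nonneg_left h6 (norm_nonneg _)) ?_
        positivity
      have h10 : 2 * g / C * (1 - ‖m‖ ^ 2) * (‖ξ‖ * (C * ‖a‖))
          = 2 * (1 - ‖m‖ ^ 2) * ‖ξ‖ * g * ‖a‖ := by
        field_simp
      have h11 : 2 * (1 - ‖m‖ ^ 2) * ‖ξ‖ * g * ‖a‖ ≤ 2 * (1 - ‖m‖ ^ 2) * ‖ξ‖ * ‖G p‖ * ‖a‖ := by
        refine mul_le_mul_of_nonneg_right (mul_le_mul_of_nonneg_left h4 ?_) (norm_nonneg _)
        positivity
      linarith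
  refine ⟨2 * g / C, by positivity, fun m hm ζ ξ hζ hξ F K hF hK => ?_⟩
  rcases le_total ‖ζ‖ ‖ξ‖ with h | h
  · exact key m hm ζ ξ hζ hξ h F K hF hK
  · have := key m hm ξ ζ hξ hζ h K F hK hF
    rwa [norm_sub_rev ξ ζ, norm_sub_rev (K p) (F p)] at this

lemma H_lower {p : ℝ} (hp : 0 < p) (hp1 : p < 1) :
    ∃ c : ℝ, 0 < c ∧ ∀ m : ℂ, ‖m‖ ≤ 1 → ∀ ζ ξ : ℂ, ‖ζ‖ ≤ 1 → ‖ξ‖ ≤ 1 → ∀ F K : ℂ → ℂ,
      IsLog m (fun _ => ζ) F → IsLog m (fun _ => ξ) K →
      c * (1 - ‖m‖ ^ 2) * ‖ζ - ξ‖ ≤ ‖exp (F p) - exp (K p)‖ := by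
  obtain ⟨δ, hδ, him⟩ := im_bound hp hp1
  obtain ⟨c₁, hc₁, hl⟩ := log_lower hp hp1
  set B : ℝ := 4 / (1 - p) ^ 2 with hB
  obtain ⟨c₂, hc₂, he⟩ := exp_lower (B := B + B) (δ := 2 * δ) (by positivity)
  have hpn : ‖(p : ℂ)‖ ≤ p := by
    rw [Complex.norm_real, Real.norm_of_nonneg hp.le]
  refine ⟨Real.exp (-B) * (c₂ * c₁), by positivity, fun m hm ζ ξ hζ hξ F K hF hK => ?_⟩
  have b1 := log_bound hm (schur_const hζ) hF hp1 hpn
  have b2 := log_bound hm (schur_const hξ) hK hp1 hpn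
  have i1 := him m hm _ _ (schur_const hζ) hF
  have i2 := him m hm _ _ (schur_const hξ) hK
  have h1 : ‖F p - K p‖ ≤ B + B := (norm_sub_le _ _).trans (add_le_add b1 b2)
  have h2 : |(F p - K p).im| ≤ 2 * Real.pi - 2 * δ := by
    rw [Complex.sub_im]
    have := abs_sub (F p).im (K p).im
    linarith
  have h3 := he _ h1 h2
  have h4 := hl m hm ζ ξ hζ hξ F K hF hK
  have h5 : exp (F p) - exp (K p) = exp (K p) * (exp (F p - K p) - 1) := by
    rw [mul_sub, ← Complex.exp_add, mul_one]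
    congr 2
    ring
  have h6 : Real.exp (-B) ≤ ‖exp (K p)‖ := by
    rw [Complex.norm_exp]
    apply Real.exp_le_exp.mpr
    have := Complex.abs_re_le_norm (K p)
    have := neg_abs_le (K p).re
    linarith
  rw [h5, norm_mul]
  have h7 : c₂ * (c₁ * (1 - ‖m‖ ^ 2) * ‖ζ - ξ‖) ≤ ‖exp (F p - K p) - 1‖ :=
    (mul_le_mul_of_nonneg_left h4 hc₂.le).trans h3
  calc Real.exp (-B) * (c₂ * c₁) * (1 - ‖m‖ ^ 2) * ‖ζ - ξ‖
      = Real.exp (-B) * (c₂ * (c₁ * (1 - ‖m‖ ^ 2) * ‖ζ - ξ‖)) := by ring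
    _ ≤ Real.exp (-B) * ‖exp (F p - K p) - 1‖ := mul_le_mul_of_nonneg_left h7 (Real.exp_pos _).le
    _ ≤ _ := mul_le_mul_of_nonneg_right h6 (norm_nonneg _)

end Pool.Agent.MP_8daf13.LInj

end

section

/-! The fixed point argument for the large index theorem of MP_8daf13_an. -/

open Complex Metric Filter Topology
open scoped ComplexConjugate

namespace Pool.Agent.MP_8daf13.LCore

open L1 L7 L8 L9 LConst

lemma schur_const {ζ : ℂ} (hζ : ‖ζ‖ ≤ 1) : Schur (fun _ => ζ) :=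
  ⟨differentiableOn_const _, fun _ _ => hζ⟩

lemma IsLog.diff {m : ℂ} {v F : ℂ → ℂ} (hF : IsLog m v F) : DifferentiableOn ℂ F (ball 0 1) :=
  fun z hz => (hF.2 z hz).differentiableAt.differentiableWithinAt

lemma IsLog.diff_exp {m : ℂ} {v F : ℂ → ℂ} (hF : IsLog m v F) :
    DifferentiableOn ℂ (fun z => exp (F z)) (ball 0 1) := (IsLog.diff hF).cexp

theorem core {p r : ℝ} (hp : 0 < p) (hpr : p < r) (hr : r < 1) :
    ∃ ε : ℝ, 0 < ε ∧ ∀ m : ℂ, ‖m‖ ≤ 1 → ∀ R : (ℂ → ℂ) → ℂ,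
      (∀ F K : ℂ → ℂ, DifferentiableOn ℂ F (ball 0 1) → DifferentiableOn ℂ K (ball 0 1) →
        ∀ M : ℝ, (∀ z ∈ closedBall (0 : ℂ) r, ‖F z - K z‖ ≤ M) → ‖R F - R K‖ ≤ ε * M) →
      ∀ v F : ℂ → ℂ, Schur v → IsLog m v F →
      ∃ ζ : ℂ, ‖ζ‖ ≤ 1 ∧ (‖ζ‖ = 1 → ∀ z ∈ closedBall (0 : ℂ) r, v z = ζ) ∧
        ∃ K : ℂ → ℂ, IsLog m (fun _ => ζ) K ∧
        exp (F p) - R (fun z => exp (F z)) = exp (K p) - R (fun z => exp (K z)) := by
  have hr0 : 0 < r := hp.trans hpr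
  obtain ⟨C, hC, hCm⟩ := H_estimates hr0 hr
  obtain ⟨C₁, hC₁, hcl⟩ := closeness hp hpr.le hr
  have hp1 : p < 1 := hpr.trans hr
  set g : ℝ := (1 - p) * p ^ 2 / 64 with hg
  have hg0 : 0 < g := by
    have : 0 < 1 - p := by linarith
    positivity
  set κ : ℝ := min (1 / 2) (g / (8 * C ^ 2)) with hκ
  have hκ0 : 0 < κ := lt_min (by norm_num) (by positivity)
  have hκh : κ ≤ 1 / 2 := min_le_left _ _
  have hκ1 : κ ≤ 1 := hκh.trans (by norm_num)
  have hκ2 : κ ≤ g / (8 * C ^ 2) := min_le_right _ _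
  set ε : ℝ := min (g / (2 * C ^ 2)) (κ * g / (C ^ 2 * C₁)) with hε
  have hε0 : 0 < ε := lt_min (by positivity) (by positivity)
  have hε1 : ε ≤ g / (2 * C ^ 2) := min_le_left _ _
  have hε2 : ε ≤ κ * g / (C ^ 2 * C₁) := min_le_right _ _
  refine ⟨ε, hε0, fun m hm R hR v F hv hF => ?_⟩
  obtain ⟨T1, T2, T3, T4⟩ := hCm m hm
  have hpr' : ‖(p : ℂ)‖ ≤ r := by
    rw [Complex.norm_real, Real.norm_of_nonneg hp.le]; exact hpr.le
  have hpmem : (p : ℂ) ∈ closedBall (0 : ℂ) r := by simpa using hpr'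
  -- equality on the closed ball gives equality of everything
  have key0 : ∀ ζ : ℂ, ‖ζ‖ ≤ 1 → ∀ K : ℂ → ℂ, IsLog m (fun _ => ζ) K →
      (∀ z ∈ closedBall (0 : ℂ) r, ‖exp (F z) - exp (K z)‖ ≤ 0) →
      exp (F p) - R (fun z => exp (F z)) = exp (K p) - R (fun z => exp (K z)) := by
    intro ζ _ K hK h
    have h1 := hR _ _ (IsLog.diff_exp hF) (IsLog.diff_exp hK) 0 h
    rw [mul_zero] at h1
    have h2 := sub_eq_zero.mp (norm_le_zero_iff.mp h1)
    have h3 := sub_eq_zero.mp (norm_le_zero_iff.mp (h _ hpmem))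
    rw [h2, h3]
  rcases eq_or_lt_of_le hm with hm1 | hm1
  · -- degenerate case
    obtain ⟨K, hK⟩ := exists_log hm (schur_const (ζ := 0) (by simp))
    refine ⟨0, by simp, fun h => by simp at h, K, hK, key0 0 (by simp) K hK fun z hz => ?_⟩
    have hz' : ‖z‖ ≤ r := by simpa using hz
    have := T1 v (fun _ => 0) F K hv (schur_const (by simp)) hF hK 1 (fun w hw => by
      have hw' : w ∈ ball (0 : ℂ) 1 := by
        rw [mem_ball_zero_iff]
        exact lt_of_le_of_lt (by simpa using hw) hr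
      simpa using hv.2 w hw') z hz'
    rw [hm1] at this
    simpa using this
  · obtain ⟨ζ₀, hζ₀, K₀, hK₀, hpK⟩ := exists_const hp hp1 hm1 hv hF
    have hclose := hcl m hm1 v F hv hF ζ₀ hζ₀ K₀ hK₀ hpK
    set d : ℝ := 1 - ‖ζ₀‖ with hd
    have hd0 : 0 ≤ d := by linarith
    have hd1 : d ≤ 1 := by linarith [norm_nonneg ζ₀]
    set ρ : ℝ := 1 - ‖m‖ ^ 2 with hρ
    have hρ0 : 0 < ρ := by nlinarith [norm_nonneg m]
    have hL : ∀ ζ : ℂ, ‖ζ‖ ≤ 1 → ∃ K, IsLog m (fun _ => ζ) K := fun ζ hζ =>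
      exists_log hm (schur_const hζ)
    have hGG : ∀ ζ : ℂ, ‖ζ‖ ≤ 1 → ∃ K, IsG m (fun _ => ζ) K := fun ζ hζ =>
      exists_G hm (schur_const hζ)
    choose! K hK using hL
    choose! G hG using hGG
    -- basic bound for the derivative
    set A : ℂ := -2 * (ρ : ℂ) * (G ζ₀ p * exp (K ζ₀ p)) with hA
    have hAn : 2 * ρ * (g / C) ≤ ‖A‖ := by
      rw [hA, norm_mul, norm_mul, norm_mul, Complex.norm_real, Real.norm_of_nonneg hρ0.le]
      have h1 := G_lower hp hp1 hm hζ₀ (hG ζ₀ hζ₀)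
      have h2 := T4 _ _ (schur_const hζ₀) (hK ζ₀ hζ₀) p hpr'
      have h3 : g * (1 / C) ≤ ‖G ζ₀ ↑p‖ * ‖exp (K ζ₀ ↑p)‖ :=
        mul_le_mul h1 h2 (by positivity) (norm_nonneg _)
      have h4 : ‖(-2 : ℂ)‖ = 2 := by simp
      rw [h4]
      have : g / C = g * (1 / C) := by ring
      rw [this]
      exact mul_le_mul_of_nonneg_left h3 (by positivity)
    have hA0 : 0 < ‖A‖ := lt_of_lt_of_le (by positivity) hAn
    have hAne : A ≠ 0 := norm_pos_iff.mp hA0
    -- the balls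
    have hball : ∀ ζ ∈ closedBall ζ₀ (κ * d), ‖ζ‖ ≤ 1 := by
      intro ζ hζ
      rw [mem_closedBall, dist_eq_norm] at hζ
      have h1 : ‖ζ‖ ≤ ‖ζ₀‖ + ‖ζ - ζ₀‖ := by
        calc ‖ζ‖ = ‖ζ₀ + (ζ - ζ₀)‖ := by congr 1; ring
          _ ≤ _ := norm_add_le _ _
      have h2 : κ * d ≤ d := by nlinarith
      linarith
    set Φ : ℂ → ℂ := fun ζ => ζ - (exp (K ζ p) - exp (F p)
      - (R (fun z => exp (K ζ z)) - R (fun z => exp (F z)))) / A with hΦ
    have hKK₀ : exp (K ζ₀ p) = exp (F p) := by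
      have h1 := T1 _ _ _ _ (schur_const hζ₀) (schur_const hζ₀) (hK ζ₀ hζ₀) hK₀ 0
        (fun z _ => by simp) p hpr'
      rw [mul_zero] at h1
      rw [sub_eq_zero.mp (norm_le_zero_iff.mp h1), hpK]
    have hlip : ∀ z ∈ closedBall ζ₀ (κ * d), ∀ w ∈ closedBall ζ₀ (κ * d),
        ‖Φ z - Φ w‖ ≤ (1 / 2) * ‖z - w‖ := by
      intro z hz w hw
      have hz1 := hball z hz
      have hw1 := hball w hw
      rw [mem_closedBall, dist_eq_norm] at hz hw
      have e2 := T2 z w hz1 hw1 _ _ _ (hK z hz1) (hK w hw1) (hG w hw1) p hpr'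
      have e3 := T3 w ζ₀ hw1 hζ₀ _ _ _ _ (hK w hw1) (hK ζ₀ hζ₀) (hG w hw1) (hG ζ₀ hζ₀) p hpr'
      have e1 : ∀ y ∈ closedBall (0 : ℂ) r, ‖exp (K z y) - exp (K w y)‖ ≤ C * ρ * ‖z - w‖ := by
        intro y hy
        exact T1 _ _ _ _ (schur_const hz1) (schur_const hw1) (hK z hz1) (hK w hw1) ‖z - w‖
          (fun _ _ => le_rfl) y (by simpa using hy)
      have e4 := hR _ _ (IsLog.diff_exp (hK z hz1)) (IsLog.diff_exp (hK w hw1)) _ e1
      set E1 : ℂ := exp (K z p) - exp (K w p) + 2 * (ρ : ℂ) * (z - w) * G w p * exp (K w p) with hE1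
      set E3 : ℂ := G w p * exp (K w p) - G ζ₀ p * exp (K ζ₀ p) with hE3
      set E4 : ℂ := R (fun y => exp (K z y)) - R (fun y => exp (K w y)) with hE4
      have e5 : Φ z - Φ w = (2 * (ρ : ℂ) * (z - w) * E3 - E1 + E4) / A := by
        simp only [hΦ]
        rw [eq_div_iff hAne]
        have : A = -2 * (ρ : ℂ) * (G ζ₀ p * exp (K ζ₀ p)) := hA
        field_simp
        rw [hE1, hE3, hE4, this]
        ring
      rw [e5, norm_div, div_le_iff₀ hA0]
      have hzw : ‖z - w‖ ≤ 2 * (κ * d) := by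
        calc ‖z - w‖ ≤ ‖z - ζ₀‖ + ‖ζ₀ - w‖ := norm_sub_le_norm_sub_add_norm_sub _ _ _
          _ = ‖z - ζ₀‖ + ‖w - ζ₀‖ := by rw [norm_sub_rev ζ₀ w]
          _ ≤ _ := by linarith
      have n0 : 0 ≤ ‖z - w‖ := norm_nonneg _
      have b1 : ‖2 * (ρ : ℂ) * (z - w) * E3‖ ≤ 2 * ρ * ‖z - w‖ * (C * (κ * d)) := by
        rw [norm_mul, norm_mul, norm_mul, Complex.norm_real, Real.norm_of_nonneg hρ0.le]
        have : ‖(2 : ℂ)‖ = 2 := by simp
        rw [this]
        refine mul_le_mul_of_nonneg_left (e3.trans ?_) (by positivity)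
        exact mul_le_mul_of_nonneg_left hw hC.le
      have b2 : ‖E1‖ ≤ C * ρ * ‖z - w‖ * (2 * (κ * d)) := by
        refine e2.trans ?_
        rw [sq, ← mul_assoc]
        exact mul_le_mul_of_nonneg_left hzw (by positivity)
      have b3 : ‖2 * (ρ : ℂ) * (z - w) * E3 - E1 + E4‖ ≤
          2 * ρ * ‖z - w‖ * (C * (κ * d)) + C * ρ * ‖z - w‖ * (2 * (κ * d))
            + ε * (C * ρ * ‖z - w‖) := by
        refine (norm_add_le _ _).trans (add_le_add ((norm_sub_le _ _).trans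
          (add_le_add b1 b2)) e4)
      refine b3.trans ?_
      have b4 : κ * d ≤ g / (8 * C ^ 2) := by nlinarith
      have b5 : 4 * ρ * ‖z - w‖ * C * (κ * d) ≤ 4 * ρ * ‖z - w‖ * C * (g / (8 * C ^ 2)) :=
        mul_le_mul_of_nonneg_left b4 (by positivity)
      have b6 : ε * (C * ρ * ‖z - w‖) ≤ g / (2 * C ^ 2) * (C * ρ * ‖z - w‖) :=
        mul_le_mul_of_nonneg_right hε1 (by positivity)
      have b7 : 1 / 2 * ‖z - w‖ * (2 * ρ * (g / C)) ≤ 1 / 2 * ‖z - w‖ * ‖A‖ :=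
        mul_le_mul_of_nonneg_left hAn (by positivity)
      have b8 : 4 * ρ * ‖z - w‖ * C * (g / (8 * C ^ 2)) + g / (2 * C ^ 2) * (C * ρ * ‖z - w‖)
          = 1 / 2 * ‖z - w‖ * (2 * ρ * (g / C)) := by
        field_simp
        ring
      linarith
    have hbase : ‖Φ ζ₀ - ζ₀‖ ≤ (1 - 1 / 2) * (κ * d) := by
      have e5 : Φ ζ₀ - ζ₀ = (R (fun z => exp (K ζ₀ z)) - R (fun z => exp (F z))) / A := by
        simp only [hΦ]
        rw [hKK₀]
        ring
      rw [e5, norm_div, div_le_iff₀ hA0]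
      have e1 : ∀ y ∈ closedBall (0 : ℂ) r, ‖exp (K ζ₀ y) - exp (F y)‖ ≤ C * ρ * (C₁ * d) := by
        intro y hy
        exact T1 _ _ _ _ (schur_const hζ₀) hv (hK ζ₀ hζ₀) hF (C₁ * d)
          (fun z hz => by rw [norm_sub_rev]; exact hclose z hz) y (by simpa using hy)
      have e4 := hR _ _ (IsLog.diff_exp (hK ζ₀ hζ₀)) (IsLog.diff_exp hF) _ e1
      refine e4.trans ?_
      have b6 : ε * (C * ρ * (C₁ * d)) ≤ κ * g / (C ^ 2 * C₁) * (C * ρ * (C₁ * d)) :=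
        mul_le_mul_of_nonneg_right hε2 (by positivity)
      have b7 : (1 - 1 / 2) * (κ * d) * (2 * ρ * (g / C)) ≤ (1 - 1 / 2) * (κ * d) * ‖A‖ :=
        mul_le_mul_of_nonneg_left hAn (by nlinarith [mul_nonneg hκ0.le hd0])
      have b8 : κ * g / (C ^ 2 * C₁) * (C * ρ * (C₁ * d))
          = (1 - 1 / 2) * (κ * d) * (2 * ρ * (g / C)) := by
        field_simp
        ring
      linarith
    obtain ⟨ζ, hζ, hfix⟩ := exists_fix (Φ := Φ) (β := 1 / 2) (by norm_num) (by norm_num)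
      (c := ζ₀) (R := κ * d) (mul_nonneg hκ0.le hd0) hlip hbase
    have hζ1 := hball ζ hζ
    refine ⟨ζ, hζ1, fun hζe => ?_, K ζ, hK ζ hζ1, ?_⟩
    · rw [mem_closedBall, dist_eq_norm] at hζ
      have h1 : ‖ζ‖ ≤ ‖ζ₀‖ + ‖ζ - ζ₀‖ := by
        calc ‖ζ‖ = ‖ζ₀ + (ζ - ζ₀)‖ := by congr 1; ring
          _ ≤ _ := norm_add_le _ _
      have h2 : κ * d ≤ 1 / 2 * d := mul_le_mul_of_nonneg_right hκh hd0
      have h3 : d = 0 := by
        rw [hζe] at h1
        linarith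
      rw [h3, mul_zero] at hζ
      have h4 : ζ = ζ₀ := sub_eq_zero.mp (norm_le_zero_iff.mp hζ)
      intro z hz
      have h5 := hclose z hz
      rw [h3, mul_zero] at h5
      rw [h4]
      exact sub_eq_zero.mp (norm_le_zero_iff.mp h5)
    simp only [hΦ] at hfix
    have h1 : (exp (K ζ p) - exp (F p)
      - (R (fun z => exp (K ζ z)) - R (fun z => exp (F z)))) / A = 0 := by
      linear_combination -hfix
    rw [div_eq_zero_iff] at h1
    rcases h1 with h1 | h1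
    · linear_combination -h1
    · exact absurd h1 hAne

end Pool.Agent.MP_8daf13.LCore

end
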